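import Mathlib

/-!
# MP_dc8965_an, the range `1 < p < 2`: sequences, correlation operators (BT = below two)

`Tp V a` is the sequence `j ↦ ∑_k V_k a_{j+k}` (`V` a polynomial, `a` any sequence),
`Sle r f C` says `∑ ‖f n‖^r ≤ C`, `Sn r V = ∑ ‖V_k‖^r` for a polynomial, `MB p v B` says that
`Tp v` has norm at most `B` on `ℓ^p`.
-/

open Finset Polynomial

namespace DC8965.BT

/-- the correlation operator `(T_V a)(j) = ∑_k V_k a_{j+k}` -/
noncomputable def Tp (V : ℂ[X]) (a : ℕ → ℂ) (j : ℕ) : ℂ := ∑ k ∈ V.support, V.coeff k * a (j + k)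

/-- `∑_n ‖f n‖^r ≤ C` -/
def Sle (r : ℝ) (f : ℕ → ℂ) (C : ℝ) : Prop := ∀ n : ℕ, ∑ k ∈ range n, ‖f k‖ ^ r ≤ C

/-- `∑_k ‖V_k‖^r` -/
noncomputable def Sn (r : ℝ) (V : ℂ[X]) : ℝ := ∑ k ∈ V.support, ‖V.coeff k‖ ^ r

/-- `T_v` has norm at most `B` on `ℓ^p` -/
def MB (p : ℝ) (v : ℂ[X]) (B : ℝ) : Prop :=
  ∀ (y : ℕ → ℂ) (C : ℝ), Sle p y C → Sle p (Tp v y) (B ^ p * C)

/-! ### `Tp` -/

lemma Tp_sum_of_support_subset (V : ℂ[X]) (a : ℕ → ℂ) (j : ℕ) (s : Finset ℕ) (hs : V.support ⊆ s) :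
    Tp V a j = ∑ k ∈ s, V.coeff k * a (j + k) := by
  refine Finset.sum_subset hs fun k _ hk => ?_
  rw [Polynomial.notMem_support_iff.mp hk, zero_mul]

lemma support_subset_range {V : ℂ[X]} {n : ℕ} (hn : ∀ k, n ≤ k → V.coeff k = 0) :
    V.support ⊆ range n := by
  intro k hk
  rw [Finset.mem_range]
  by_contra h
  exact (Polynomial.mem_support_iff.mp hk) (hn k (not_lt.mp h))

lemma Tp_range {V : ℂ[X]} {n : ℕ} (hn : ∀ k, n ≤ k → V.coeff k = 0) (a : ℕ → ℂ) (j : ℕ) :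
    Tp V a j = ∑ k ∈ range n, V.coeff k * a (j + k) :=
  Tp_sum_of_support_subset V a j _ (support_subset_range hn)

lemma Tp_range' {V : ℂ[X]} {n : ℕ} (hn : V.natDegree < n) (a : ℕ → ℂ) (j : ℕ) :
    Tp V a j = ∑ k ∈ range n, V.coeff k * a (j + k) :=
  Tp_range (fun _ hk => Polynomial.coeff_eq_zero_of_natDegree_lt (hn.trans_le hk)) a j

lemma Tp_add_left (V W : ℂ[X]) (a : ℕ → ℂ) : Tp (V + W) a = Tp V a + Tp W a := by
  ext j
  rw [Pi.add_apply,
    Tp_sum_of_support_subset (V + W) a j (V.support ∪ W.support) Polynomial.support_add,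
    Tp_sum_of_support_subset V a j (V.support ∪ W.support) subset_union_left,
    Tp_sum_of_support_subset W a j (V.support ∪ W.support) subset_union_right,
    ← Finset.sum_add_distrib]
  refine Finset.sum_congr rfl fun k _ => ?_
  rw [Polynomial.coeff_add, add_mul]

lemma Tp_add_right (V : ℂ[X]) (a b : ℕ → ℂ) : Tp V (a + b) = Tp V a + Tp V b := by
  ext j
  simp only [Tp, Pi.add_apply, mul_add, Finset.sum_add_distrib]

lemma Tp_sub_right (V : ℂ[X]) (a b : ℕ → ℂ) : Tp V (a - b) = Tp V a - Tp V b := by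
  ext j
  simp only [Tp, Pi.sub_apply, mul_sub, Finset.sum_sub_distrib]

lemma Tp_neg_right (V : ℂ[X]) (a : ℕ → ℂ) : Tp V (-a) = -Tp V a := by
  ext j
  simp only [Tp, Pi.neg_apply, mul_neg, Finset.sum_neg_distrib]

lemma Tp_smul_right (V : ℂ[X]) (c : ℂ) (a : ℕ → ℂ) : Tp V (c • a) = c • Tp V a := by
  ext j
  simp only [Tp, Pi.smul_apply, smul_eq_mul, Finset.mul_sum]
  exact Finset.sum_congr rfl fun k _ => by ring

@[simp] lemma Tp_zero_left (a : ℕ → ℂ) : Tp 0 a = 0 := by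
  ext j; simp [Tp]

@[simp] lemma Tp_zero_right (V : ℂ[X]) : Tp V 0 = 0 := by
  ext j; simp [Tp]

lemma Tp_monomial (m : ℕ) (c : ℂ) (a : ℕ → ℂ) (j : ℕ) :
    Tp (Polynomial.monomial m c) a j = c * a (j + m) := by
  rw [Tp_sum_of_support_subset _ a j {m} (Polynomial.support_monomial_subset m c)]
  simp

lemma Tp_C (c : ℂ) (a : ℕ → ℂ) : Tp (Polynomial.C c) a = c • a := by
  ext j
  rw [← Polynomial.monomial_zero_left, Tp_monomial]
  simp

lemma Tp_C_mul (c : ℂ) (V : ℂ[X]) (a : ℕ → ℂ) : Tp (Polynomial.C c * V) a = c • Tp V a := by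
  ext j
  have h : (Polynomial.C c * V).support ⊆ V.support := by
    intro k hk
    rw [Polynomial.mem_support_iff, Polynomial.coeff_C_mul] at hk
    rw [Polynomial.mem_support_iff]
    exact fun h => hk (by rw [h, mul_zero])
  rw [Tp_sum_of_support_subset _ a j _ h]
  simp only [Polynomial.coeff_C_mul, Pi.smul_apply, smul_eq_mul, Tp, Finset.mul_sum, mul_assoc]

lemma Tp_neg_left (V : ℂ[X]) (a : ℕ → ℂ) : Tp (-V) a = -Tp V a := by
  have h := Tp_C_mul (-1) V a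
  simpa using h

lemma Tp_sub_left (V W : ℂ[X]) (a : ℕ → ℂ) : Tp (V - W) a = Tp V a - Tp W a := by
  rw [sub_eq_add_neg, Tp_add_left, Tp_neg_left, sub_eq_add_neg]

lemma Tp_finset_sum_left {ι : Type*} (s : Finset ι) (V : ι → ℂ[X]) (a : ℕ → ℂ) :
    Tp (∑ i ∈ s, V i) a = ∑ i ∈ s, Tp (V i) a := by
  classical
  induction s using Finset.induction_on with
  | empty => simp
  | insert i s hi ih => rw [Finset.sum_insert hi, Finset.sum_insert hi, Tp_add_left, ih]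

lemma Tp_finset_sum_right {ι : Type*} (s : Finset ι) (V : ℂ[X]) (a : ι → ℕ → ℂ) :
    Tp V (∑ i ∈ s, a i) = ∑ i ∈ s, Tp V (a i) := by
  classical
  induction s using Finset.induction_on with
  | empty => simp
  | insert i s hi ih => rw [Finset.sum_insert hi, Finset.sum_insert hi, Tp_add_right, ih]

/-- `T_{z^m V} a (j) = T_V a (j+m)` -/
lemma Tp_X_pow_mul (m : ℕ) (V : ℂ[X]) (a : ℕ → ℂ) (j : ℕ) :
    Tp (Polynomial.X ^ m * V) a j = Tp V a (j + m) := by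
  rw [Tp_range' (n := m + (V.natDegree + 1)) (V := Polynomial.X ^ m * V) ?_,
    Tp_range' (Nat.lt_succ_self _), Finset.sum_range_add]
  · have h1 : ∑ x ∈ range m, (Polynomial.X ^ m * V).coeff x * a (j + x) = 0 := by
      refine Finset.sum_eq_zero fun k hk => ?_
      rw [Polynomial.coeff_X_pow_mul', if_neg (by simpa using hk), zero_mul]
    rw [h1, zero_add]
    refine Finset.sum_congr rfl fun k _ => ?_
    rw [Polynomial.coeff_X_pow_mul', if_pos (Nat.le_add_right _ _), Nat.add_sub_cancel_left,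
      add_assoc]
  · refine (Polynomial.natDegree_mul_le).trans_lt ?_
    rw [Polynomial.natDegree_X_pow]
    omega

/-- the far part of `V` does not see a finitely supported sequence -/
lemma Tp_eq_zero_of_disjoint {V : ℂ[X]} {a : ℕ → ℂ} {m : ℕ} (hV : ∀ k < m, V.coeff k = 0)
    (ha : ∀ k, m ≤ k → a k = 0) : Tp V a = 0 := by
  ext j
  refine Finset.sum_eq_zero fun k _ => ?_
  rcases lt_or_ge k m with h | h
  · rw [hV k h, zero_mul]
  · rw [ha (j + k) (by omega), mul_zero]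

lemma Tp_eq_zero_of_ge (V : ℂ[X]) {a : ℕ → ℂ} {n : ℕ} (ha : ∀ k, n ≤ k → a k = 0) {j : ℕ}
    (hj : n ≤ j) : Tp V a j = 0 := by
  refine Finset.sum_eq_zero fun k _ => ?_
  rw [ha (j + k) (by omega), mul_zero]

/-- the duality `∑_j v_j (T_ψ a)_j = ∑_k ψ_k (T_v a)_k` -/
lemma pairing_swap (v ψ : ℂ[X]) (a : ℕ → ℂ) :
    ∑ j ∈ v.support, v.coeff j * Tp ψ a j = ∑ k ∈ ψ.support, ψ.coeff k * Tp v a k := by
  simp only [Tp, Finset.mul_sum]
  rw [Finset.sum_comm]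
  refine Finset.sum_congr rfl fun k _ => Finset.sum_congr rfl fun j _ => ?_
  rw [add_comm k j]
  ring

/-! ### `Sn`, `Sle` -/

lemma Sle.nonneg {r : ℝ} {f : ℕ → ℂ} {C : ℝ} (h : Sle r f C) : 0 ≤ C := by
  simpa using h 0

lemma Sle.mono {r : ℝ} {f : ℕ → ℂ} {C D : ℝ} (h : Sle r f C) (hCD : C ≤ D) : Sle r f D :=
  fun n => (h n).trans hCD

lemma Sle_zero {r : ℝ} (hr : 0 < r) {C : ℝ} (hC : 0 ≤ C) : Sle r 0 C := by
  intro n
  simpa [Real.zero_rpow hr.ne'] using hC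

lemma Sle.sum_le {r : ℝ} {f : ℕ → ℂ} {C : ℝ} (h : Sle r f C) (s : Finset ℕ) :
    ∑ k ∈ s, ‖f k‖ ^ r ≤ C := by
  obtain ⟨n, hn⟩ := s.exists_nat_subset_range
  refine (Finset.sum_le_sum_of_subset_of_nonneg hn fun k _ _ => by positivity).trans (h n)

lemma Sle.apply_le {r : ℝ} {f : ℕ → ℂ} {C : ℝ} (h : Sle r f C) (k : ℕ) : ‖f k‖ ^ r ≤ C := by
  simpa using h.sum_le {k}

lemma Sle.summable {r : ℝ} {f : ℕ → ℂ} {C : ℝ} (h : Sle r f C) : Summable fun n => ‖f n‖ ^ r :=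
  summable_of_sum_range_le (fun _ => by positivity) h

lemma Sle_iff_tsum {r : ℝ} {f : ℕ → ℂ} {C : ℝ} :
    Sle r f C ↔ (Summable fun n => ‖f n‖ ^ r) ∧ ∑' n, ‖f n‖ ^ r ≤ C := by
  constructor
  · exact fun h => ⟨h.summable, Real.tsum_le_of_sum_range_le (fun _ => by positivity) h⟩
  · rintro ⟨h1, h2⟩ n
    exact (h1.sum_le_tsum _ fun _ _ => by positivity).trans h2

lemma Sle_of_pointwise {r : ℝ} (hr : 0 ≤ r) {f g : ℕ → ℂ} {C : ℝ} (h : Sle r g C)
    (hfg : ∀ n, ‖f n‖ ≤ ‖g n‖) : Sle r f C :=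
  fun n => (Finset.sum_le_sum fun k _ => Real.rpow_le_rpow (norm_nonneg _) (hfg k) hr).trans (h n)

lemma Sn_nonneg (r : ℝ) (V : ℂ[X]) : 0 ≤ Sn r V := Finset.sum_nonneg fun _ _ => by positivity

@[simp] lemma Sn_zero (r : ℝ) : Sn r 0 = 0 := by simp [Sn]

lemma Sn_eq_sum {r : ℝ} (hr : 0 < r) (V : ℂ[X]) (s : Finset ℕ) (hs : V.support ⊆ s) :
    Sn r V = ∑ k ∈ s, ‖V.coeff k‖ ^ r := by
  refine Finset.sum_subset hs fun k _ hk => ?_
  rw [Polynomial.notMem_support_iff.mp hk, norm_zero, Real.zero_rpow hr.ne']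

lemma Sn_eq_range {r : ℝ} (hr : 0 < r) {V : ℂ[X]} {n : ℕ} (hn : ∀ k, n ≤ k → V.coeff k = 0) :
    Sn r V = ∑ k ∈ range n, ‖V.coeff k‖ ^ r := Sn_eq_sum hr V _ (support_subset_range hn)

/-- for a polynomial, `Sle` is `Sn ≤` -/
lemma Sle_coeff_iff {r : ℝ} (hr : 0 < r) (V : ℂ[X]) {C : ℝ} :
    Sle r (fun n => V.coeff n) C ↔ Sn r V ≤ C := by
  constructor
  · intro h; exact h.sum_le _
  · intro h n
    refine le_trans ?_ h
    rw [Sn_eq_sum hr V (V.support ∪ range n) subset_union_left]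
    exact Finset.sum_le_sum_of_subset_of_nonneg subset_union_right fun _ _ _ => by positivity

/-- disjoint supports -/
lemma Sn_add_le_of_disjoint {r : ℝ} (hr : 0 < r) {V W : ℂ[X]} {m : ℕ}
    (hV : ∀ k, m ≤ k → V.coeff k = 0) (hW : ∀ k < m, W.coeff k = 0) :
    Sn r (V + W) ≤ Sn r V + Sn r W := by
  rw [Sn_eq_sum hr (V + W) (V.support ∪ W.support) Polynomial.support_add,
    Sn_eq_sum hr V (V.support ∪ W.support) subset_union_left,
    Sn_eq_sum hr W (V.support ∪ W.support) subset_union_right, ← Finset.sum_add_distrib]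
  refine Finset.sum_le_sum fun k _ => ?_
  rw [Polynomial.coeff_add]
  rcases lt_or_ge k m with h | h
  · rw [hW k h, add_zero, norm_zero, Real.zero_rpow hr.ne', add_zero]
  · rw [hV k h, zero_add, norm_zero, Real.zero_rpow hr.ne', zero_add]

lemma Sn_neg (r : ℝ) (V : ℂ[X]) : Sn r (-V) = Sn r V := by
  simp [Sn]

lemma Sn_C_mul {r : ℝ} (hr : 0 < r) (c : ℂ) (V : ℂ[X]) : Sn r (C c * V) = ‖c‖ ^ r * Sn r V := by
  have h : (Polynomial.C c * V).support ⊆ V.support := by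
    intro k hk
    rw [Polynomial.mem_support_iff, Polynomial.coeff_C_mul] at hk
    rw [Polynomial.mem_support_iff]
    exact fun h => hk (by rw [h, mul_zero])
  rw [Sn_eq_sum hr _ _ h, Sn, Finset.mul_sum]
  refine Finset.sum_congr rfl fun k _ => ?_
  rw [Polynomial.coeff_C_mul, norm_mul, Real.mul_rpow (norm_nonneg _) (norm_nonneg _)]

lemma Sn_X_pow_mul {r : ℝ} (m : ℕ) (V : ℂ[X]) : Sn r (X ^ m * V) = Sn r V := by
  rw [Sn, Sn]
  symm
  refine Finset.sum_bij (fun k _ => m + k) ?_ ?_ ?_ ?_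
  · intro k hk
    rw [Polynomial.mem_support_iff] at hk ⊢
    rwa [Polynomial.coeff_X_pow_mul', if_pos (Nat.le_add_right _ _), Nat.add_sub_cancel_left]
  · intro a _ b _ h; omega
  · intro b hb
    rw [Polynomial.mem_support_iff, Polynomial.coeff_X_pow_mul'] at hb
    split_ifs at hb with h
    · refine ⟨b - m, ?_, by omega⟩
      rwa [Polynomial.mem_support_iff]
    · exact absurd rfl hb
  · intro k _
    rw [Polynomial.coeff_X_pow_mul', if_pos (Nat.le_add_right _ _), Nat.add_sub_cancel_left]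

/-- Minkowski -/
lemma Sle.add {r : ℝ} (hr : 1 ≤ r) {f g : ℕ → ℂ} {A B : ℝ} (hA : 0 ≤ A) (hB : 0 ≤ B)
    (hf : Sle r f (A ^ r)) (hg : Sle r g (B ^ r)) : Sle r (fun n => f n + g n) ((A + B) ^ r) := by
  intro n
  have hr0 : 0 < r := by linarith
  have h0 : 0 ≤ ∑ k ∈ range n, ‖f k + g k‖ ^ r := Finset.sum_nonneg fun _ _ => by positivity
  have h1 : (∑ k ∈ range n, ‖f k + g k‖ ^ r) ^ (1 / r) ≤ A + B := by
    have h2 := Real.Lp_add_le (range n) (fun k => ‖f k‖) (fun k => ‖g k‖) hr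
    have h3 : ∑ k ∈ range n, ‖f k + g k‖ ^ r ≤ ∑ k ∈ range n, |‖f k‖ + ‖g k‖| ^ r := by
      refine Finset.sum_le_sum fun k _ => ?_
      rw [abs_of_nonneg (by positivity)]
      exact Real.rpow_le_rpow (norm_nonneg _) (norm_add_le _ _) hr0.le
    have h4 : ∀ (F : ℕ → ℂ) (D : ℝ), 0 ≤ D → Sle r F (D ^ r) →
        (∑ k ∈ range n, |‖F k‖| ^ r) ^ (1 / r) ≤ D := by
      intro F D hD hF
      have h5 : ∑ k ∈ range n, |‖F k‖| ^ r ≤ D ^ r := by
        simpa [abs_norm] using hF n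
      calc (∑ k ∈ range n, |‖F k‖| ^ r) ^ (1 / r) ≤ (D ^ r) ^ (1 / r) :=
            Real.rpow_le_rpow (Finset.sum_nonneg fun _ _ => by positivity) h5 (by positivity)
        _ = D := by rw [← Real.rpow_mul hD, mul_one_div_cancel hr0.ne', Real.rpow_one]
    calc (∑ k ∈ range n, ‖f k + g k‖ ^ r) ^ (1 / r)
        ≤ (∑ k ∈ range n, |‖f k‖ + ‖g k‖| ^ r) ^ (1 / r) := Real.rpow_le_rpow h0 h3 (by positivity)
      _ ≤ _ := h2
      _ ≤ A + B := add_le_add (h4 f A hA hf) (h4 g B hB hg)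
  calc ∑ k ∈ range n, ‖f k + g k‖ ^ r = ((∑ k ∈ range n, ‖f k + g k‖ ^ r) ^ (1 / r)) ^ r := by
        rw [← Real.rpow_mul h0, one_div_mul_cancel hr0.ne', Real.rpow_one]
    _ ≤ (A + B) ^ r := Real.rpow_le_rpow (by positivity) h1 hr0.le

end DC8965.BT
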