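import Pool.Agent.Lib.MP_dc8965_an.BT.BDefs

open Finset Polynomial

namespace DC8965.BT

private lemma b1_sin {L k : ℕ} (hk : 0 < k) (hkL : k < L) :
    2 * ((min k (L - k) : ℕ) : ℝ) / L ≤ Real.sin (Real.pi * k / L) := by
  have hL : (0 : ℝ) < L := by exact_mod_cast (lt_trans hk hkL)
  have hpi := Real.pi_pos
  have hkr : (0 : ℝ) < k := by exact_mod_cast hk
  rcases le_total k (L - k) with h | h
  · rw [min_eq_left h]
    have h2 : 2 * (k : ℝ) ≤ L := by
      have : 2 * k ≤ L := by omega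
      exact_mod_cast this
    have h3 := Real.mul_le_sin (x := Real.pi * k / L) (by positivity) (by
      rw [div_le_div_iff₀ hL (by norm_num)]
      nlinarith)
    have h4 : 2 / Real.pi * (Real.pi * k / L) = 2 * (k : ℝ) / L := by
      field_simp
    rw [h4] at h3
    exact h3
  · rw [min_eq_right h]
    have hc : ((L - k : ℕ) : ℝ) = (L : ℝ) - k := by
      rw [Nat.cast_sub hkL.le]
    have h2 : (L : ℝ) ≤ 2 * k := by
      have : L ≤ 2 * k := by omega
      exact_mod_cast this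
    have hkL' : (k : ℝ) < L := by exact_mod_cast hkL
    have h5 : Real.sin (Real.pi * k / L) = Real.sin (Real.pi * ((L : ℝ) - k) / L) := by
      rw [← Real.sin_pi_sub]
      congr 1
      field_simp
    have h3 := Real.mul_le_sin (x := Real.pi * ((L : ℝ) - k) / L)
      (div_nonneg (mul_nonneg hpi.le (by linarith)) hL.le) (by
      rw [div_le_div_iff₀ hL (by norm_num)]
      nlinarith)
    have h4 : 2 / Real.pi * (Real.pi * ((L : ℝ) - k) / L) = 2 * ((L : ℝ) - k) / L := by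
      field_simp
    rw [h4] at h3
    rw [h5, hc]
    exact h3

private lemma b1_ep (L k l : ℕ) (hL : 0 < L) :
    (starRingEnd ℂ) (ep L l) * ep L (l + k) =
      Complex.exp (((Real.pi * (k : ℝ) ^ 2 / L : ℝ) : ℂ) * Complex.I) *
        Complex.exp (Complex.I * ((2 * (Real.pi * k / L) : ℝ) : ℂ)) ^ l := by
  have hL' : (L : ℂ) ≠ 0 := by exact_mod_cast hL.ne'
  unfold ep
  rw [← Complex.exp_conj, ← Complex.exp_add, ← Complex.exp_nat_mul, ← Complex.exp_add]
  congr 1
  rw [map_mul, Complex.conj_I, Complex.conj_ofReal]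
  push_cast
  field_simp
  ring

/-- (B1) Proof. `conj(ε_l) ε_{l+k} = exp(iπ(2lk + k²)/L) = exp(iπk²/L) ρ^l` with `ρ = exp(2πik/L) ≠ 1`
(`0 < k < L`). So `|C_k| = |∑_{l<L-k} ρ^l| = |ρ^{L-k} - 1| / |ρ - 1|` (`geom_sum_eq`).
First bound: `|C_k| ≤ L - k` is trivial; and `ρ^L = 1`, so `|ρ^{L-k} - 1| = |ρ^{-k} - 1| = |ρ^k - 1| ≤ k |ρ - 1|`
(telescoping), so `|C_k| ≤ k`. Second bound: `|ρ^{L-k} - 1| ≤ 2` and
`|ρ - 1| = 2 sin(πk/L) ≥ 4 min(k, L-k) / L` by Jordan's inequality (`Real.mul_le_sin`: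
`2/π x ≤ sin x` for `0 ≤ x ≤ π/2`; for `k > L/2` use `sin(πk/L) = sin(π(L-k)/L)`), so
`|C_k| ≤ 2 L / (4 min(k, L-k))`. -/
theorem B1 {L k : ℕ} (hk : 0 < k) (hkL : k < L) :
    ‖Cc L k‖ ≤ ((min k (L - k) : ℕ) : ℝ) ∧ 2 * ((min k (L - k) : ℕ) : ℝ) * ‖Cc L k‖ ≤ L := by
  have hL0 : 0 < L := lt_trans hk hkL
  have hL : (0 : ℝ) < L := by exact_mod_cast hL0
  set ρ : ℂ := Complex.exp (Complex.I * ((2 * (Real.pi * k / L) : ℝ) : ℂ)) with hρ
  have hρ1 : ‖ρ - 1‖ = 2 * Real.sin (Real.pi * k / L) := by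
    rw [hρ, Complex.norm_exp_I_mul_ofReal_sub_one, Real.norm_eq_abs]
    have h1 : (2 * (Real.pi * k / L)) / 2 = Real.pi * k / L := by ring
    rw [h1, abs_of_nonneg]
    have h2 := b1_sin hk hkL
    have h3 : 0 ≤ 2 * ((min k (L - k) : ℕ) : ℝ) / L := by positivity
    linarith
  have hmpos : 0 < ((min k (L - k) : ℕ) : ℝ) := by
    have : 0 < min k (L - k) := by
      rw [lt_min_iff]
      exact ⟨hk, by omega⟩
    exact_mod_cast this
  have hsin := b1_sin hk hkL
  have hsinpos : 0 < Real.sin (Real.pi * k / L) := lt_of_lt_of_le (by positivity) hsin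
  have hρne : ρ ≠ 1 := by
    intro h0
    rw [h0, sub_self, norm_zero] at hρ1
    linarith
  have hρnorm : ‖ρ‖ = 1 := by
    rw [hρ, mul_comm]
    exact Complex.norm_exp_ofReal_mul_I _
  have hρL : ρ ^ L = 1 := by
    rw [hρ, ← Complex.exp_nat_mul]
    have hL' : (L : ℂ) ≠ 0 := by exact_mod_cast hL0.ne'
    have h1 : (L : ℂ) * (Complex.I * ((2 * (Real.pi * k / L) : ℝ) : ℂ)) =
        (k : ℂ) * (2 * (Real.pi : ℂ) * Complex.I) := by
      push_cast
      field_simp
    rw [h1]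
    exact Complex.exp_nat_mul_two_pi_mul_I k
  have hC : ‖Cc L k‖ = ‖∑ l ∈ range (L - k), ρ ^ l‖ := by
    unfold Cc
    rw [Finset.sum_congr rfl fun l _ => b1_ep L k l hL0, ← Finset.mul_sum, norm_mul,
      Complex.norm_exp_ofReal_mul_I, one_mul]
  have hsub : ∑ l ∈ range (L - k), ρ ^ l = - ∑ l ∈ range k, ρ ^ (L - k + l) := by
    have h1 : ∑ l ∈ range L, ρ ^ l = 0 := by
      have h2 := geom_sum_mul ρ L
      rw [hρL, sub_self] at h2
      exact (mul_eq_zero.mp h2).resolve_right (sub_ne_zero.mpr hρne)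
    have h3 : ∑ l ∈ range (L - k + k), ρ ^ l =
        ∑ l ∈ range (L - k), ρ ^ l + ∑ l ∈ range k, ρ ^ (L - k + l) := Finset.sum_range_add _ _ _
    rw [Nat.sub_add_cancel hkL.le, h1] at h3
    exact eq_neg_of_add_eq_zero_left h3.symm
  constructor
  · rw [hC]
    rcases le_total k (L - k) with h | h
    · rw [min_eq_left h, hsub, norm_neg]
      refine (norm_sum_le _ _).trans ?_
      simp only [norm_pow, hρnorm, one_pow, Finset.sum_const, Finset.card_range, nsmul_eq_mul,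
        mul_one]
      exact le_refl _
    · rw [min_eq_right h]
      refine (norm_sum_le _ _).trans ?_
      simp only [norm_pow, hρnorm, one_pow, Finset.sum_const, Finset.card_range, nsmul_eq_mul,
        mul_one]
      exact le_refl _
  · have h1 : ‖∑ l ∈ range (L - k), ρ ^ l‖ * ‖ρ - 1‖ ≤ 2 := by
      rw [← norm_mul, geom_sum_mul]
      refine (norm_sub_le _ _).trans ?_
      rw [norm_pow, hρnorm, one_pow, norm_one]
      norm_num
    rw [← hC, hρ1] at h1
    have h2 : 2 * ((min k (L - k) : ℕ) : ℝ) ≤ Real.sin (Real.pi * k / L) * L := by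
      rwa [div_le_iff₀ hL] at hsin
    have h3 := norm_nonneg (Cc L k)
    calc 2 * ((min k (L - k) : ℕ) : ℝ) * ‖Cc L k‖
        ≤ (Real.sin (Real.pi * k / L) * L) * ‖Cc L k‖ := mul_le_mul_of_nonneg_right h2 h3
      _ = (‖Cc L k‖ * (2 * Real.sin (Real.pi * k / L))) / 2 * L := by ring
      _ ≤ 2 / 2 * L := by
        refine mul_le_mul_of_nonneg_right ?_ hL.le
        linarith
      _ = L := by ring

end DC8965.BT
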