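import Pool.Agent.Lib.MP_dc8965_an.BT.Basic

open Finset Polynomial

namespace DC8965.BT

/-- the window `z_s` -/
private noncomputable def A1_z (N : ℕ) (y : ℕ → ℂ) (s n : ℕ) : ℂ :=
  if n ≤ s ∧ s < n + N then y n else 0

/-- the translate of the window -/
private noncomputable def A1_t (N : ℕ) (y : ℕ → ℂ) (s m : ℕ) : ℂ :=
  if m < N ∧ N ≤ s + 1 + m then y (s + 1 + m - N) else 0

private lemma A1_sum_z (N : ℕ) (y : ℕ → ℂ) (i j : ℕ) (hj : j < N) :
    ∑ s ∈ Ico i (i + N), A1_z N y s (i + j) = ((N : ℂ) - j) * y (i + j) := by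
  have h1 : ∑ s ∈ Ico i (i + N), A1_z N y s (i + j)
      = ∑ s ∈ (Ico i (i + N)).filter (fun s => i + j ≤ s ∧ s < i + j + N), y (i + j) := by
    rw [Finset.sum_filter]
    rfl
  have h2 : (Ico i (i + N)).filter (fun s => i + j ≤ s ∧ s < i + j + N) = Ico (i + j) (i + N) := by
    ext s
    simp only [Finset.mem_filter, Finset.mem_Ico]
    omega
  rw [h1, h2, Finset.sum_const, Nat.card_Ico, nsmul_eq_mul]
  have h3 : i + N - (i + j) = N - j := by omega
  rw [h3, Nat.cast_sub hj.le]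

private lemma A1_coeff (N : ℕ) (v : ℕ → ℂ) (k : ℕ) :
    (∑ j ∈ range N, monomial j ((1 - (j : ℂ) / N) * v j)).coeff k
      = if k < N then (1 - (k : ℂ) / N) * v k else 0 := by
  rw [Polynomial.finsetSum_coeff]
  simp only [Polynomial.coeff_monomial]
  rw [Finset.sum_ite_eq']
  simp only [Finset.mem_range]

private lemma A1_Tp (N : ℕ) (hN : 0 < N) (v y : ℕ → ℂ) (i : ℕ) :
    Tp (∑ j ∈ range N, monomial j ((1 - (j : ℂ) / N) * v j)) y i
      = (1 / (N : ℂ)) * ∑ s ∈ Ico i (i + N), ∑ j ∈ range N, v j * A1_z N y s (i + j) := by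
  have hN' : (N : ℂ) ≠ 0 := Nat.cast_ne_zero.mpr hN.ne'
  rw [Tp_range (n := N) (fun k hk => by rw [A1_coeff, if_neg (not_lt.mpr hk)]), Finset.sum_comm,
    Finset.mul_sum]
  refine Finset.sum_congr rfl fun j hj => ?_
  have hj' := Finset.mem_range.mp hj
  rw [A1_coeff, if_pos hj', ← Finset.mul_sum, A1_sum_z N y i j hj']
  field_simp

private lemma A1_convex {p : ℝ} (hp : 1 ≤ p) (N : ℕ) (hN : 0 < N) (v y : ℕ → ℂ) (i : ℕ) :
    ‖Tp (∑ j ∈ range N, monomial j ((1 - (j : ℂ) / N) * v j)) y i‖ ^ p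
      ≤ ∑ s ∈ Ico i (i + N), (1 / (N : ℝ)) * ‖∑ j ∈ range N, v j * A1_z N y s (i + j)‖ ^ p := by
  have hN' : (N : ℝ) ≠ 0 := Nat.cast_ne_zero.mpr hN.ne'
  have h1 : ‖Tp (∑ j ∈ range N, monomial j ((1 - (j : ℂ) / N) * v j)) y i‖
      ≤ ∑ s ∈ Ico i (i + N), (1 / (N : ℝ)) * ‖∑ j ∈ range N, v j * A1_z N y s (i + j)‖ := by
    rw [A1_Tp N hN, norm_mul, norm_div, norm_one, Complex.norm_natCast, ← Finset.mul_sum]
    exact mul_le_mul_of_nonneg_left (norm_sum_le _ _) (by positivity)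
  refine (Real.rpow_le_rpow (norm_nonneg _) h1 (by linarith)).trans ?_
  refine Real.rpow_arith_mean_le_arith_mean_rpow _ (fun _ => 1 / (N : ℝ))
    (fun s => ‖∑ j ∈ range N, v j * A1_z N y s (i + j)‖) (fun _ _ => by positivity) ?_
    (fun _ _ => norm_nonneg _) hp
  rw [Finset.sum_const, Nat.card_Ico, nsmul_eq_mul, Nat.add_sub_cancel_left]
  field_simp

private lemma A1_sum_le_of_inj {f g : ℕ → ℝ} (s t : Finset ℕ) (e : ℕ → ℕ)
    (he : ∀ i ∈ s, e i ∈ t) (hinj : ∀ i ∈ s, ∀ j ∈ s, e i = e j → i = j)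
    (hfg : ∀ i ∈ s, f i ≤ g (e i)) (hg : ∀ j ∈ t, 0 ≤ g j) :
    ∑ i ∈ s, f i ≤ ∑ j ∈ t, g j := by
  classical
  calc ∑ i ∈ s, f i ≤ ∑ i ∈ s, g (e i) := Finset.sum_le_sum hfg
    _ = ∑ j ∈ s.image e, g j := (Finset.sum_image (fun i hi j hj h => hinj i hi j hj h)).symm
    _ ≤ ∑ j ∈ t, g j := by
        refine Finset.sum_le_sum_of_subset_of_nonneg ?_ fun j hj _ => hg j hj
        intro j hj
        obtain ⟨i, hi, rfl⟩ := Finset.mem_image.mp hj
        exact he i hi

private lemma A1_window {p : ℝ} (hp : 1 ≤ p) {N : ℕ} (v : ℕ → ℂ) {B : ℝ}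
    (hB : 0 ≤ B)
    (h : ∀ y : ℕ → ℂ, (∀ k, N ≤ k → y k = 0) →
      ∑ i ∈ range N, ‖∑ j ∈ range N, v j * y (i + j)‖ ^ p ≤ B ^ p * ∑ i ∈ range N, ‖y i‖ ^ p)
    (y : ℕ → ℂ) (n s : ℕ) :
    ∑ i ∈ (range n).filter (fun i => i ≤ s ∧ s < i + N),
        ‖∑ j ∈ range N, v j * A1_z N y s (i + j)‖ ^ p
      ≤ B ^ p * ∑ m ∈ (range (s + 1)).filter (fun m => m ≤ s ∧ s < m + N), ‖y m‖ ^ p := by
  have hp0 : p ≠ 0 := by linarith
  have h1 : ∑ i ∈ (range n).filter (fun i => i ≤ s ∧ s < i + N),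
        ‖∑ j ∈ range N, v j * A1_z N y s (i + j)‖ ^ p
      ≤ ∑ i ∈ range N, ‖∑ j ∈ range N, v j * A1_t N y s (i + j)‖ ^ p := by
    refine A1_sum_le_of_inj _ _ (fun i => i + N - 1 - s) ?_ ?_ ?_ ?_
    · intro i hi
      simp only [Finset.mem_filter, Finset.mem_range] at hi ⊢
      omega
    · intro i hi j hj hij
      simp only [Finset.mem_filter, Finset.mem_range] at hi hj hij
      omega
    · intro i hi
      simp only [Finset.mem_filter, Finset.mem_range] at hi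
      refine le_of_eq ?_
      congr 2
      refine Finset.sum_congr rfl fun j _ => ?_
      congr 1
      unfold A1_z A1_t
      by_cases hc : i + j ≤ s
      · rw [if_pos ⟨hc, by omega⟩, if_pos ⟨by omega, by omega⟩]
        congr 1
        omega
      · rw [if_neg (fun hh => hc hh.1), if_neg (fun hh => hc (by omega))]
    · intro j _
      positivity
  have h2 := h (A1_t N y s) (fun k hk => if_neg (fun hh => absurd hh.1 (not_lt.mpr hk)))
  have h3 : ∑ m ∈ range N, ‖A1_t N y s m‖ ^ p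
      ≤ ∑ m ∈ (range (s + 1)).filter (fun m => m ≤ s ∧ s < m + N), ‖y m‖ ^ p := by
    have h4 : ∑ m ∈ range N, ‖A1_t N y s m‖ ^ p
        = ∑ m ∈ (range N).filter (fun m => N ≤ s + 1 + m), ‖y (s + 1 + m - N)‖ ^ p := by
      rw [Finset.sum_filter]
      refine Finset.sum_congr rfl fun m hm => ?_
      have hm' := Finset.mem_range.mp hm
      unfold A1_t
      by_cases hc : N ≤ s + 1 + m
      · rw [if_pos ⟨hm', hc⟩, if_pos hc]
      · rw [if_neg (fun hh => hc hh.2), if_neg hc, norm_zero, Real.zero_rpow hp0]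
    rw [h4]
    refine A1_sum_le_of_inj _ _ (fun m => s + 1 + m - N) ?_ ?_ (fun _ _ => le_rfl) ?_
    · intro i hi
      simp only [Finset.mem_filter, Finset.mem_range] at hi ⊢
      omega
    · intro i hi j hj hij
      simp only [Finset.mem_filter, Finset.mem_range] at hi hj hij
      omega
    · intro j _
      positivity
  exact h1.trans (h2.trans (mul_le_mul_of_nonneg_left h3 (by positivity)))

/-- (A1) Fejer window: a bound `B` for the truncated Toeplitz operator of size `N` gives the bound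
`B` on the whole of `ℓ^p` for the windowed symbol.

Proof. Let `Sle p y C`, `w` the windowed polynomial. By `Tp_range` (n = N)
`Tp w y i = ∑_{j<N} (1 - j/N) v_j y_{i+j} = (1/N) ∑_{s=i}^{i+N-1} ∑_{j<N} v_j z_s(i+j)` where `z_s n = y n`
if `s < n + N ∧ n ≤ s` and `0` otherwise (the pair `(i, i+j)` lies in the window `(s-N, s]` exactly for
the `N - j` values `s = i+j, ..., i+N-1`; compare `fejer_avg` in
`Pool/Agent/Lib/MP_dc8965_an/Fejer.lean`, which you may import and whose proof you may copy).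
By convexity of `x ↦ x^p` (`inner_le_nnorm_mul_nnorm`, or
`Real.inner_le_Lp_mul_Lq`, or `Real.pow_arith_mean_le_arith_mean_pow` in the `rpow` form
`Real.rpow_arith_mean_le_arith_mean_rpow`) `‖Tp w y i‖^p ≤ (1/N) ∑_{s=i}^{i+N-1} ‖∑_{j<N} v_j z_s(i+j)‖^p`.
Sum over `i < n` and exchange: for each `s` the indices are `i ∈ (s-N, s]`; the translate
`y'(m) = z_s(s+1+m-N)` if `m < N` and `N ≤ s+1+m`, `0` otherwise, vanishes from `N` on and
`∑_{j<N} v_j z_s(i+j) = ∑_{j<N} v_j y'(i' + j)`, `i' = i+N-1-s`. So `h` bounds the sum over `i` by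
`B^p ∑_{m<N} ‖y'(m)‖^p = B^p ∑_{n ∈ (s-N,s]} ‖y n‖^p`. Each `n` lies in `N` windows, so the total is at most
`(1/N) N B^p C`. -/
theorem A1 {p : ℝ} (hp : 1 ≤ p) {N : ℕ} (hN : 0 < N) (v : ℕ → ℂ) {B : ℝ} (hB : 0 ≤ B)
    (h : ∀ y : ℕ → ℂ, (∀ k, N ≤ k → y k = 0) →
      ∑ i ∈ range N, ‖∑ j ∈ range N, v j * y (i + j)‖ ^ p ≤ B ^ p * ∑ i ∈ range N, ‖y i‖ ^ p) :
    MB p (∑ j ∈ range N, monomial j ((1 - (j : ℂ) / N) * v j)) B := by
  intro y C hy n
  have hN' : (N : ℝ) ≠ 0 := Nat.cast_ne_zero.mpr hN.ne'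
  have hN0 : (0 : ℝ) < N := Nat.cast_pos.mpr hN
  calc ∑ i ∈ range n, ‖Tp (∑ j ∈ range N, monomial j ((1 - (j : ℂ) / N) * v j)) y i‖ ^ p
      ≤ ∑ i ∈ range n, ∑ s ∈ Ico i (i + N),
          (1 / (N : ℝ)) * ‖∑ j ∈ range N, v j * A1_z N y s (i + j)‖ ^ p :=
        Finset.sum_le_sum fun i _ => A1_convex hp N hN v y i
    _ = ∑ s ∈ range (n + N), ∑ i ∈ (range n).filter (fun i => i ≤ s ∧ s < i + N),
          (1 / (N : ℝ)) * ‖∑ j ∈ range N, v j * A1_z N y s (i + j)‖ ^ p := by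
        refine Finset.sum_comm' fun i s => ?_
        simp only [Finset.mem_filter, Finset.mem_range, Finset.mem_Ico]
        omega
    _ ≤ ∑ s ∈ range (n + N), (1 / (N : ℝ)) * (B ^ p *
          ∑ m ∈ (range (s + 1)).filter (fun m => m ≤ s ∧ s < m + N), ‖y m‖ ^ p) := by
        refine Finset.sum_le_sum fun s _ => ?_
        rw [← Finset.mul_sum]
        exact mul_le_mul_of_nonneg_left (A1_window hp v hB h y n s) (by positivity)
    _ = (1 / (N : ℝ)) * (B ^ p * ∑ s ∈ range (n + N),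
          ∑ m ∈ (range (s + 1)).filter (fun m => m ≤ s ∧ s < m + N), ‖y m‖ ^ p) := by
        rw [Finset.mul_sum, Finset.mul_sum]
    _ = (1 / (N : ℝ)) * (B ^ p * ∑ m ∈ range (n + N),
          ∑ s ∈ (range (n + N)).filter (fun s => m ≤ s ∧ s < m + N), ‖y m‖ ^ p) := by
        congr 2
        refine Finset.sum_comm' fun s m => ?_
        simp only [Finset.mem_filter, Finset.mem_range]
        omega
    _ ≤ (1 / (N : ℝ)) * (B ^ p * ∑ m ∈ range (n + N), (N : ℝ) * ‖y m‖ ^ p) := by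
        refine mul_le_mul_of_nonneg_left (mul_le_mul_of_nonneg_left
          (Finset.sum_le_sum fun m _ => ?_) (by positivity)) (by positivity)
        rw [Finset.sum_const, nsmul_eq_mul]
        refine mul_le_mul_of_nonneg_right ?_ (by positivity)
        have hc : ((range (n + N)).filter (fun s => m ≤ s ∧ s < m + N)).card ≤ N := by
          calc ((range (n + N)).filter (fun s => m ≤ s ∧ s < m + N)).card
              ≤ (Ico m (m + N)).card := Finset.card_le_card (fun s hs => by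
                simp only [Finset.mem_filter, Finset.mem_range, Finset.mem_Ico] at hs ⊢
                omega)
            _ = N := by rw [Nat.card_Ico, Nat.add_sub_cancel_left]
        exact_mod_cast hc
    _ = B ^ p * ∑ m ∈ range (n + N), ‖y m‖ ^ p := by
        rw [← Finset.mul_sum]
        field_simp
    _ ≤ B ^ p * C := mul_le_mul_of_nonneg_left (hy (n + N)) (by positivity)

end DC8965.BT
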