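import Pool.Agent.Lib.MP_dc8965_an.BT.Basic

open Finset Polynomial

namespace DC8965.BT

/-- the set of the sums of correlations -/
private def A2K (p q : ℝ) (N : ℕ) (κ : ℝ) : Set (Fin N → ℂ) :=
  {x | ∃ (R : ℕ) (ψ φ : Fin R → ℂ[X]), (∀ α k, N ≤ k → (ψ α).coeff k = 0) ∧
      (∀ α k, N ≤ k → (φ α).coeff k = 0) ∧
      (∀ j : Fin N, x j = ∑ α, Tp (ψ α) (fun n => (φ α).coeff n) j) ∧
      ∑ α, Sn q (ψ α) ≤ κ ∧ ∑ α, Sn p (φ α) ≤ κ}

private lemma A2_Tp (c d : ℂ) (ψ φ : ℂ[X]) (j : ℕ) :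
    Tp (C c * ψ) (fun n => (C d * φ).coeff n) j = c * d * Tp ψ (fun n => φ.coeff n) j := by
  have h1 : (fun n => (C d * φ).coeff n) = d • (fun n => φ.coeff n) := by
    ext n
    rw [Polynomial.coeff_C_mul]
    rfl
  rw [Tp_C_mul, h1, Tp_smul_right]
  simp only [Pi.smul_apply, smul_eq_mul]
  ring

private lemma A2_Sn {r a : ℝ} (hr : 0 < r) (ha : 0 ≤ a) (V : ℂ[X]) :
    Sn r (C (((a ^ (1 / r) : ℝ)) : ℂ) * V) = a * Sn r V := by
  rw [Sn_C_mul hr, Complex.norm_real, Real.norm_of_nonneg (Real.rpow_nonneg ha _),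
    ← Real.rpow_mul ha, one_div_mul_cancel hr.ne', Real.rpow_one]

private lemma A2_coeff {N : ℕ} {c : ℂ} {V : ℂ[X]} (h : ∀ k, N ≤ k → V.coeff k = 0) :
    ∀ k, N ≤ k → (C c * V).coeff k = 0 := by
  intro k hk
  rw [Polynomial.coeff_C_mul, h k hk, mul_zero]

private lemma A2_convex {p q : ℝ} (hpq : p.HolderConjugate q) (N : ℕ) (κ : ℝ) :
    Convex ℝ (A2K p q N κ) := by
  have hp : 0 < p := hpq.pos
  have hq : 0 < q := hpq.symm.pos
  have hmul : ∀ a : ℝ, 0 ≤ a → (((a ^ (1 / q) : ℝ)) : ℂ) * (((a ^ (1 / p) : ℝ)) : ℂ) = (a : ℂ) := by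
    intro a ha
    have h1 : a ^ (1 / q) * a ^ (1 / p) = a := by
      rw [← Real.rpow_add_of_nonneg ha (by positivity) (by positivity)]
      have h2 : 1 / q + 1 / p = 1 := by
        rw [one_div, one_div]
        exact hpq.symm.inv_add_inv_eq_one
      rw [h2, Real.rpow_one]
    exact_mod_cast h1
  rintro x ⟨R, ψ, φ, h1, h2, h3, h4, h5⟩ y ⟨R', ψ', φ', h1', h2', h3', h4', h5'⟩ a b ha hb hab
  refine ⟨R + R',
    Fin.append (fun α => C (((a ^ (1 / q) : ℝ)) : ℂ) * ψ α)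
      (fun α => C (((b ^ (1 / q) : ℝ)) : ℂ) * ψ' α),
    Fin.append (fun α => C (((a ^ (1 / p) : ℝ)) : ℂ) * φ α)
      (fun α => C (((b ^ (1 / p) : ℝ)) : ℂ) * φ' α), ?_, ?_, ?_, ?_, ?_⟩
  · intro α
    refine Fin.addCases (fun i => ?_) (fun i => ?_) α
    · rw [Fin.append_left]; exact A2_coeff (h1 i)
    · rw [Fin.append_right]; exact A2_coeff (h1' i)
  · intro α
    refine Fin.addCases (fun i => ?_) (fun i => ?_) α
    · rw [Fin.append_left]; exact A2_coeff (h2 i)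
    · rw [Fin.append_right]; exact A2_coeff (h2' i)
  · intro j
    rw [Fin.sum_univ_add]
    simp only [Fin.append_left, Fin.append_right, A2_Tp, hmul a ha, hmul b hb]
    rw [← Finset.mul_sum, ← Finset.mul_sum, ← h3 j, ← h3' j]
    simp only [Pi.add_apply, Pi.smul_apply, Complex.real_smul]
  · rw [Fin.sum_univ_add]
    simp only [Fin.append_left, Fin.append_right, A2_Sn hq ha, A2_Sn hq hb]
    rw [← Finset.mul_sum, ← Finset.mul_sum]
    calc a * ∑ i, Sn q (ψ i) + b * ∑ i, Sn q (ψ' i) ≤ a * κ + b * κ :=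
          add_le_add (mul_le_mul_of_nonneg_left h4 ha) (mul_le_mul_of_nonneg_left h4' hb)
      _ = κ := by rw [← add_mul, hab, one_mul]
  · rw [Fin.sum_univ_add]
    simp only [Fin.append_left, Fin.append_right, A2_Sn hp ha, A2_Sn hp hb]
    rw [← Finset.mul_sum, ← Finset.mul_sum]
    calc a * ∑ i, Sn p (φ i) + b * ∑ i, Sn p (φ' i) ≤ a * κ + b * κ :=
          add_le_add (mul_le_mul_of_nonneg_left h5 ha) (mul_le_mul_of_nonneg_left h5' hb)
      _ = κ := by rw [← add_mul, hab, one_mul]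

/-- (A2) Duality in `ℂ^N`.

Proof. Let `E = Fin N → ℂ` and let `K ⊆ E` be the set of all `x` such that there are `R` and families
`ψ φ : Fin R → ℂ[X]` with all coefficients `0` from `N` on, `x j = ∑_α Tp (ψ α) (φ α).coeff j` for `j < N`,
`∑ Sn q (ψ α) ≤ κ`, `∑ Sn p (φ α) ≤ κ`. `K` is convex: for weights `a, b ≥ 0`, `a + b = 1`, concatenate the
families (`Fin.append` or `Fin R ⊕ Fin R'` and `finSumFinEquiv`) with factors `a^{1/q}` for the `ψ`,
`a^{1/p}` for the `φ` (as `C (a^{1/q})`; use `Sn_C_mul`, `Tp_C_mul`, `1/p + 1/q = 1`). If the vector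
`x0 j = b j` is not in `closure K` (`Convex.closure`), then
`RCLike.geometric_hahn_banach_closed_point` gives `f : E →L[ℂ] ℂ` and `u` with `re (f a) < u < re (f x0)`
for `a ∈ closure K`. Write `f x = ∑ v_j x_j` with `v j = f (Pi.single j 1)` for `j < N` (0 otherwise). For
`ψ, φ` as in `h` and every `θ` of modulus one, `(C θ * ψ, φ)` is an admissible family (R = 1), so
`re (θ * f (T_ψ φ)) ≤ u`; choosing `θ` gives `‖f (T_ψ φ)‖ ≤ u`. By `h` with `M = u`: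
`‖f x0‖ ≤ u`, a contradiction with `u < re (f x0)`. So `x0 ∈ closure K`, which gives the claim for `j < N`;
for `j ≥ N` both sides vanish (`Tp_eq_zero_of_ge`). -/
theorem A2 {p q : ℝ} (hpq : p.HolderConjugate q) {N : ℕ} (b : ℕ → ℂ)
    (hb : ∀ j, N ≤ j → b j = 0) {κ : ℝ} (hκ : 0 < κ)
    (h : ∀ (v : ℕ → ℂ) (M : ℝ), (∀ ψ φ : ℂ[X], (∀ k, N ≤ k → ψ.coeff k = 0) →
        (∀ k, N ≤ k → φ.coeff k = 0) → Sn q ψ ≤ κ → Sn p φ ≤ κ →
        ‖∑ j ∈ range N, v j * Tp ψ (fun n => φ.coeff n) j‖ ≤ M) →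
      ‖∑ j ∈ range N, v j * b j‖ ≤ M) {ρ : ℝ} (hρ : 0 < ρ) :
    ∃ (R : ℕ) (ψ φ : Fin R → ℂ[X]), (∀ α k, N ≤ k → (ψ α).coeff k = 0) ∧
      (∀ α k, N ≤ k → (φ α).coeff k = 0) ∧
      (∀ j, ‖b j - ∑ α, Tp (ψ α) (fun n => (φ α).coeff n) j‖ ≤ ρ) ∧
      ∑ α, Sn q (ψ α) ≤ κ ∧ ∑ α, Sn p (φ α) ≤ κ := by
  have hp : 0 < p := hpq.pos
  have hq : 0 < q := hpq.symm.pos
  have hmem : (fun j : Fin N => b j) ∈ closure (A2K p q N κ) := by
    by_contra hcon
    obtain ⟨f, u, hf, hu⟩ := RCLike.geometric_hahn_banach_closed_point (𝕜 := ℂ)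
      (A2_convex hpq N κ).closure isClosed_closure hcon
    let v : ℕ → ℂ := fun j => if h : j < N then f (fun j' => if (⟨j, h⟩ : Fin N) = j' then 1 else 0)
      else 0
    have hfv : ∀ y : ℕ → ℂ, f (fun j : Fin N => y j) = ∑ j ∈ range N, v j * y j := by
      intro y
      rw [Finset.sum_range]
      have h1 := LinearMap.pi_apply_eq_sum_univ (f : (Fin N → ℂ) →ₗ[ℂ] ℂ) (fun j : Fin N => y j)
      refine Eq.trans h1 ?_
      refine Finset.sum_congr rfl fun i _ => ?_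
      simp only [v, Fin.is_lt, dif_pos, smul_eq_mul, Fin.eta]
      rw [mul_comm]
      rfl
    have key : ∀ ψ φ : ℂ[X], (∀ k, N ≤ k → ψ.coeff k = 0) →
        (∀ k, N ≤ k → φ.coeff k = 0) → Sn q ψ ≤ κ → Sn p φ ≤ κ →
        ‖∑ j ∈ range N, v j * Tp ψ (fun n => φ.coeff n) j‖ ≤ u := by
      intro ψ φ h1 h2 h3 h4
      obtain ⟨θ, hθ, hθw⟩ := RCLike.exists_norm_eq_mul_self
        (∑ j ∈ range N, v j * Tp ψ (fun n => φ.coeff n) j)
      have hK : (fun j : Fin N => θ * Tp ψ (fun n => φ.coeff n) j) ∈ A2K p q N κ := by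
        refine ⟨1, fun _ => C θ * ψ, fun _ => φ, fun _ => A2_coeff h1, fun _ => h2, ?_, ?_, ?_⟩
        · intro j
          rw [Fin.sum_univ_one, Tp_C_mul]
          rfl
        · rw [Fin.sum_univ_one, Sn_C_mul hq, hθ, Real.one_rpow, one_mul]
          exact h3
        · rw [Fin.sum_univ_one]
          exact h4
      have h5 := hf _ (subset_closure hK)
      have h6 : f (fun j : Fin N => θ * Tp ψ (fun n => φ.coeff n) j) =
          ((‖∑ j ∈ range N, v j * Tp ψ (fun n => φ.coeff n) j‖ : ℝ) : ℂ) := by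
        rw [hfv (fun j => θ * Tp ψ (fun n => φ.coeff n) j)]
        refine Eq.trans ?_ hθw.symm
        rw [Finset.mul_sum]
        refine Finset.sum_congr rfl fun j _ => ?_
        ring
      rw [h6] at h5
      have h7 : RCLike.re ((‖∑ j ∈ range N, v j * Tp ψ (fun n => φ.coeff n) j‖ : ℝ) : ℂ) =
          ‖∑ j ∈ range N, v j * Tp ψ (fun n => φ.coeff n) j‖ := RCLike.ofReal_re _
      rw [h7] at h5
      exact h5.le
    have h8 := h v u key
    rw [hfv b] at hu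
    have h9 : RCLike.re (∑ j ∈ range N, v j * b j) ≤ ‖∑ j ∈ range N, v j * b j‖ :=
      RCLike.re_le_norm _
    linarith
  obtain ⟨x, ⟨R, ψ, φ, h1, h2, h3, h4, h5⟩, hx⟩ := Metric.mem_closure_iff.1 hmem ρ hρ
  refine ⟨R, ψ, φ, h1, h2, ?_, h4, h5⟩
  intro j
  rcases lt_or_ge j N with hj | hj
  · have h6 := (norm_le_pi_norm ((fun j : Fin N => b j) - x) ⟨j, hj⟩).trans
      (le_of_eq (dist_eq_norm _ _).symm)
    have h7 := h6.trans hx.le
    rw [Pi.sub_apply, h3] at h7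
    exact h7
  · rw [hb j hj, Finset.sum_eq_zero fun α _ => Tp_eq_zero_of_ge (ψ α) (h2 α) hj, sub_zero,
      norm_zero]
    exact hρ.le

end DC8965.BT
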