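import Pool.Agent.Lib.MP_dc8965_an.BT.A2

open Finset Polynomial

namespace DC8965.BT

private lemma A3_coeff (N : ℕ) (c : ℕ → ℂ) (k : ℕ) :
    (∑ i ∈ range N, monomial i (c i)).coeff k = if k < N then c k else 0 := by
  rw [Polynomial.finsetSum_coeff]
  simp only [Polynomial.coeff_monomial]
  rw [Finset.sum_ite_eq' (range N) k c]
  simp

/-- (A3) The exact form of (A2): the small error is absorbed by one more term.

Proof. `τ := δ^{1/q}`, so `τ^q = δ`. Choose `ρ > 0` with `N * (ρ/τ)^p ≤ δ` and apply (A2). The error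
`e j = b j - ∑ ...` vanishes for `j ≥ N` and `‖e j‖ ≤ ρ`. Add the term `ψ = C τ`,
`φ = ∑_{j<N} monomial j (τ⁻¹ * e j)` (`Fin.snoc`, `Fin.sum_univ_castSucc`): `Tp (C τ) φ j = e j` by `Tp_C`,
`Sn q (C τ) = τ^q ≤ δ`, `Sn p φ = ∑_{j<N} (‖e j‖/τ)^p ≤ N (ρ/τ)^p ≤ δ` (`Sn_eq_range`). -/
theorem A3 {p q : ℝ} (hpq : p.HolderConjugate q) {N : ℕ} (b : ℕ → ℂ)
    (hb : ∀ j, N ≤ j → b j = 0) {κ : ℝ} (hκ : 0 < κ)
    (h : ∀ (v : ℕ → ℂ) (M : ℝ), (∀ ψ φ : ℂ[X], (∀ k, N ≤ k → ψ.coeff k = 0) →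
        (∀ k, N ≤ k → φ.coeff k = 0) → Sn q ψ ≤ κ → Sn p φ ≤ κ →
        ‖∑ j ∈ range N, v j * Tp ψ (fun n => φ.coeff n) j‖ ≤ M) →
      ‖∑ j ∈ range N, v j * b j‖ ≤ M) {δ : ℝ} (hδ : 0 < δ) :
    ∃ (R : ℕ) (ψ φ : Fin R → ℂ[X]),
      (∀ j, b j = ∑ α, Tp (ψ α) (fun n => (φ α).coeff n) j) ∧
      ∑ α, Sn q (ψ α) ≤ κ + δ ∧ ∑ α, Sn p (φ α) ≤ κ + δ := by
  classical
  have hp0 : 0 < p := hpq.pos
  have hq0 : 0 < q := hpq.symm.pos
  set τ : ℝ := δ ^ (1 / q) with hτ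
  have hτ0 : 0 < τ := Real.rpow_pos_of_pos hδ _
  have hτq : τ ^ q = δ := by
    rw [hτ, ← Real.rpow_mul hδ.le, one_div_mul_cancel hq0.ne', Real.rpow_one]
  set σ : ℝ := (δ / (N + 1)) ^ (1 / p) with hσ
  have hN1 : (0 : ℝ) < N + 1 := by positivity
  have hσ0 : 0 < σ := Real.rpow_pos_of_pos (div_pos hδ hN1) _
  have hσp : σ ^ p = δ / (N + 1) := by
    rw [hσ, ← Real.rpow_mul (div_pos hδ hN1).le, one_div_mul_cancel hp0.ne', Real.rpow_one]
  obtain ⟨R, ψ, φ, hψ, hφ, he, hSψ, hSφ⟩ := A2 hpq b hb hκ h (ρ := τ * σ) (by positivity)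
  set e : ℕ → ℂ := fun j => b j - ∑ α, Tp (ψ α) (fun n => (φ α).coeff n) j with hedef
  have he0 : ∀ j, N ≤ j → e j = 0 := by
    intro j hj
    have h1 : ∀ α, Tp (ψ α) (fun n => (φ α).coeff n) j = 0 := fun α =>
      Tp_eq_zero_of_ge (ψ α) (fun k hk => hφ α k hk) hj
    simp only [hedef, h1, hb j hj, Finset.sum_const_zero, sub_zero]
  have hχ : ∀ k, (∑ i ∈ range N, monomial i (((τ⁻¹ : ℝ) : ℂ) * e i)).coeff k =
      ((τ⁻¹ : ℝ) : ℂ) * e k := by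
    intro k
    rw [A3_coeff]
    split_ifs with hk
    · rfl
    · rw [he0 k (not_lt.1 hk), mul_zero]
  refine ⟨R + 1, Fin.snoc (α := fun _ => ℂ[X]) ψ (C (τ : ℂ)), Fin.snoc (α := fun _ => ℂ[X]) φ
    (∑ i ∈ range N, monomial i (((τ⁻¹ : ℝ) : ℂ) * e i)), fun j => ?_, ?_, ?_⟩
  · rw [Fin.sum_univ_castSucc]
    simp only [Fin.snoc_castSucc, Fin.snoc_last]
    rw [Tp_C]
    simp only [Pi.smul_apply, smul_eq_mul, hχ]
    have h1 : (τ : ℂ) * (((τ⁻¹ : ℝ) : ℂ) * e j) = e j := by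
      rw [← mul_assoc, ← Complex.ofReal_mul, mul_inv_cancel₀ hτ0.ne', Complex.ofReal_one, one_mul]
    rw [h1, hedef]
    ring
  · rw [Fin.sum_univ_castSucc]
    simp only [Fin.snoc_castSucc, Fin.snoc_last]
    have h1 : Sn q (C (τ : ℂ)) = δ := by
      rw [Sn_eq_range hq0 (n := 1) (fun k hk => by
        rw [Polynomial.coeff_C, if_neg (by omega)])]
      simp only [Finset.sum_range_one, Polynomial.coeff_C_zero, Complex.norm_real]
      rw [Real.norm_of_nonneg hτ0.le, hτq]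
    rw [h1]
    linarith
  · rw [Fin.sum_univ_castSucc]
    simp only [Fin.snoc_castSucc, Fin.snoc_last]
    have h1 : Sn p (∑ i ∈ range N, monomial i (((τ⁻¹ : ℝ) : ℂ) * e i)) ≤ δ := by
      rw [Sn_eq_range hp0 (n := N) (fun k hk => by rw [hχ, he0 k hk, mul_zero])]
      have h2 : ∀ k ∈ range N,
          ‖(∑ i ∈ range N, monomial i (((τ⁻¹ : ℝ) : ℂ) * e i)).coeff k‖ ^ p ≤ δ / (N + 1) := by
        intro k _
        rw [hχ, norm_mul, Complex.norm_real, Real.norm_of_nonneg (by positivity), ← hσp]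
        refine Real.rpow_le_rpow (by positivity) ?_ hp0.le
        rw [inv_mul_le_iff₀ hτ0]
        exact he k
      refine (Finset.sum_le_sum h2).trans ?_
      rw [Finset.sum_const, Finset.card_range, nsmul_eq_mul]
      rw [mul_div_assoc', div_le_iff₀ hN1]
      nlinarith
    linarith

end DC8965.BT
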