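import Pool.Agent.Lib.MP_dc8965_an.BT.Basic

open Finset Polynomial

namespace DC8965.BT

private lemma A4_coeff (N : ℕ) (c : ℕ → ℂ) (k : ℕ) :
    (∑ i ∈ range N, monomial i (c i)).coeff k = if k < N then c k else 0 := by
  rw [Polynomial.finsetSum_coeff]
  simp only [Polynomial.coeff_monomial]
  rw [Finset.sum_ite_eq' (range N) k c]
  simp

private lemma A4_Sn {r : ℝ} (hr : 0 < r) (N : ℕ) (c : ℕ → ℂ) :
    Sn r (∑ i ∈ range N, monomial i (c i)) = ∑ i ∈ range N, ‖c i‖ ^ r := by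
  rw [Sn_eq_range hr (n := N) (fun k hk => by rw [A4_coeff, if_neg (not_lt.2 hk)])]
  refine Finset.sum_congr rfl fun k hk => ?_
  rw [A4_coeff, if_pos (Finset.mem_range.1 hk)]

/-- (A4) The bound `M` of the bilinear form gives the bound `M / κ` of the truncated Toeplitz operator.

Proof. Let `y` vanish from `N` on, `z i = ∑_{j<N} v_j y_{i+j}` (`z i = 0` for `i ≥ N`),
`Y = ∑_{i<N} ‖y i‖^p`, `Z = ∑_{i<N} ‖z i‖^p`. If `Z = 0` there is nothing to prove, if `Y = 0` then `y = 0`,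
`z = 0`. Otherwise put `φ = ∑_{i<N} monomial i ((κ/Y)^{1/p} y i)`, so `Sn p φ = κ`, and
`ψ = ∑_{i<N} monomial i ((κ/Z)^{1/q} * (conj (z i) * ‖z i‖^{p-2}))` (coefficient `0` where `z i = 0`); since
`(p-1) q = p`, `Sn q ψ = κ`. By `pairing_swap`-type computation (exchange of two finite sums)
`∑_{j<N} v_j Tp ψ φ j = ∑_{k<N} ψ_k ∑_{j<N} v_j φ_{k+j} = (κ/Z)^{1/q} (κ/Y)^{1/p} Z`, of norm at most `M` by
`h`. As `1/p + 1/q = 1` this says `κ Z^{1/p} ≤ M Y^{1/p}`, and taking `p`-th powers gives the claim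
(`M ≥ 0` by `h` with `ψ = φ = 0`). -/
theorem A4 {p q : ℝ} (hpq : p.HolderConjugate q) {N : ℕ} (v : ℕ → ℂ) {κ M : ℝ} (hκ : 0 < κ)
    (h : ∀ ψ φ : ℂ[X], (∀ k, N ≤ k → ψ.coeff k = 0) → (∀ k, N ≤ k → φ.coeff k = 0) →
        Sn q ψ ≤ κ → Sn p φ ≤ κ → ‖∑ j ∈ range N, v j * Tp ψ (fun n => φ.coeff n) j‖ ≤ M)
    (y : ℕ → ℂ) (hy : ∀ k, N ≤ k → y k = 0) :
    ∑ i ∈ range N, ‖∑ j ∈ range N, v j * y (i + j)‖ ^ p
      ≤ (M / κ) ^ p * ∑ i ∈ range N, ‖y i‖ ^ p := by
  classical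
  have hp1 : 1 < p := hpq.lt
  have hp0 : 0 < p := hpq.pos
  have hq0 : 0 < q := hpq.symm.pos
  have hM : 0 ≤ M := by
    refine (norm_nonneg _).trans (h 0 0 (fun k _ => by simp) (fun k _ => by simp) ?_ ?_)
    · rw [Sn_zero]; exact hκ.le
    · rw [Sn_zero]; exact hκ.le
  set z : ℕ → ℂ := fun i => ∑ j ∈ range N, v j * y (i + j) with hz
  set Y : ℝ := ∑ i ∈ range N, ‖y i‖ ^ p with hY
  set Z : ℝ := ∑ i ∈ range N, ‖z i‖ ^ p with hZ
  have hY0 : 0 ≤ Y := Finset.sum_nonneg fun _ _ => by positivity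
  have hZ0 : 0 ≤ Z := Finset.sum_nonneg fun _ _ => by positivity
  change Z ≤ (M / κ) ^ p * Y
  rcases hZ0.eq_or_lt with hZe | hZp
  · rw [← hZe]
    positivity
  have hYp : 0 < Y := by
    refine hY0.lt_of_ne fun h0 => ?_
    have h1 : ∀ i ∈ range N, ‖y i‖ ^ p = 0 :=
      (Finset.sum_eq_zero_iff_of_nonneg fun _ _ => by positivity).1 h0.symm
    have h2 : ∀ i, y i = 0 := by
      intro i
      by_cases hi : i < N
      · have h3 := h1 i (Finset.mem_range.2 hi)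
        rw [Real.rpow_eq_zero (norm_nonneg _) hp0.ne'] at h3
        exact norm_eq_zero.1 h3
      · exact hy i (not_lt.1 hi)
    have h3 : Z = 0 := by
      rw [hZ]
      refine Finset.sum_eq_zero fun i _ => ?_
      have : z i = 0 := by
        rw [hz]
        exact Finset.sum_eq_zero fun j _ => by rw [h2, mul_zero]
      rw [this, norm_zero, Real.zero_rpow hp0.ne']
    exact hZp.ne' h3
  -- scalars
  set a : ℝ := (κ / Y) ^ (1 / p) with ha
  set b : ℝ := (κ / Z) ^ (1 / q) with hb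
  have ha0 : 0 < a := Real.rpow_pos_of_pos (div_pos hκ hYp) _
  have hb0 : 0 < b := Real.rpow_pos_of_pos (div_pos hκ hZp) _
  have hap : a ^ p = κ / Y := by
    rw [ha, ← Real.rpow_mul (div_pos hκ hYp).le, one_div_mul_cancel hp0.ne', Real.rpow_one]
  have hbq : b ^ q = κ / Z := by
    rw [hb, ← Real.rpow_mul (div_pos hκ hZp).le, one_div_mul_cancel hq0.ne', Real.rpow_one]
  -- the dual vector
  set w : ℕ → ℂ := fun i => (starRingEnd ℂ) (z i) * ((‖z i‖ ^ (p - 2) : ℝ) : ℂ) with hw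
  have hwn : ∀ i, ‖w i‖ = ‖z i‖ ^ (p - 1) := by
    intro i
    rw [hw]
    simp only [norm_mul, RCLike.norm_conj, Complex.norm_real]
    rw [Real.norm_of_nonneg (by positivity)]
    rcases eq_or_ne (z i) 0 with h0 | h0
    · rw [h0, norm_zero, zero_mul, Real.zero_rpow (by linarith)]
    · have h1 : 0 < ‖z i‖ := norm_pos_iff.2 h0
      nth_rewrite 1 [← Real.rpow_one ‖z i‖]
      rw [← Real.rpow_add h1]
      congr 1
      ring
  have hzw : ∀ i, w i * z i = ((‖z i‖ ^ p : ℝ) : ℂ) := by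
    intro i
    rw [hw]
    simp only
    rcases eq_or_ne (z i) 0 with h0 | h0
    · rw [h0, norm_zero, Real.zero_rpow hp0.ne']
      simp
    · have h1 : 0 < ‖z i‖ := norm_pos_iff.2 h0
      have h2 : (starRingEnd ℂ) (z i) * z i = ((‖z i‖ ^ (2 : ℝ) : ℝ) : ℂ) := by
        rw [mul_comm, Complex.mul_conj, Complex.normSq_eq_norm_sq]
        norm_num
      calc (starRingEnd ℂ) (z i) * ((‖z i‖ ^ (p - 2) : ℝ) : ℂ) * z i
          = ((starRingEnd ℂ) (z i) * z i) * ((‖z i‖ ^ (p - 2) : ℝ) : ℂ) := by ring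
        _ = ((‖z i‖ ^ (2 : ℝ) * ‖z i‖ ^ (p - 2) : ℝ) : ℂ) := by rw [h2]; push_cast; rfl
        _ = ((‖z i‖ ^ p : ℝ) : ℂ) := by
            rw [← Real.rpow_add h1]
            congr 2
            ring
  have hwq : ∀ i, ‖w i‖ ^ q = ‖z i‖ ^ p := by
    intro i
    rw [hwn, ← Real.rpow_mul (norm_nonneg _), hpq.sub_one_mul_conj]
  set φ : ℂ[X] := ∑ i ∈ range N, monomial i ((a : ℂ) * y i) with hφ
  set ψ : ℂ[X] := ∑ i ∈ range N, monomial i ((b : ℂ) * w i) with hψ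
  have hφS : Sn p φ ≤ κ := by
    rw [hφ, A4_Sn hp0]
    have h1 : ∀ i ∈ range N, ‖(a : ℂ) * y i‖ ^ p = κ / Y * ‖y i‖ ^ p := by
      intro i _
      rw [norm_mul, Complex.norm_real, Real.norm_of_nonneg ha0.le,
        Real.mul_rpow ha0.le (norm_nonneg _), hap]
    rw [Finset.sum_congr rfl h1, ← Finset.mul_sum, ← hY, div_mul_cancel₀ _ hYp.ne']
  have hψS : Sn q ψ ≤ κ := by
    rw [hψ, A4_Sn hq0]
    have h1 : ∀ i ∈ range N, ‖(b : ℂ) * w i‖ ^ q = κ / Z * ‖z i‖ ^ p := by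
      intro i _
      rw [norm_mul, Complex.norm_real, Real.norm_of_nonneg hb0.le,
        Real.mul_rpow hb0.le (norm_nonneg _), hbq, hwq]
    rw [Finset.sum_congr rfl h1, ← Finset.mul_sum, ← hZ, div_mul_cancel₀ _ hZp.ne']
  have hφc : ∀ k, φ.coeff k = (a : ℂ) * y k := by
    intro k
    rw [hφ, A4_coeff]
    split_ifs with hk
    · rfl
    · rw [hy k (not_lt.1 hk), mul_zero]
  have hψc : ∀ k, N ≤ k → ψ.coeff k = 0 := fun k hk => by
    rw [hψ, A4_coeff, if_neg (not_lt.2 hk)]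
  have h1 := h ψ φ hψc (fun k hk => by rw [hφc, hy k hk, mul_zero]) hψS hφS
  have h2 : ∑ j ∈ range N, v j * Tp ψ (fun n => φ.coeff n) j = ((a * b * Z : ℝ) : ℂ) := by
    have e1 : ∀ j, Tp ψ (fun n => φ.coeff n) j =
        ∑ k ∈ range N, ((b : ℂ) * w k) * ((a : ℂ) * y (j + k)) := by
      intro j
      rw [Tp_range hψc]
      refine Finset.sum_congr rfl fun k hk => ?_
      rw [hφc, hψ, A4_coeff, if_pos (Finset.mem_range.1 hk)]
    simp only [e1, Finset.mul_sum]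
    rw [Finset.sum_comm]
    have e2 : ∀ k ∈ range N, ∑ j ∈ range N, v j * ((b : ℂ) * w k * ((a : ℂ) * y (j + k))) =
        (a : ℂ) * b * ((‖z k‖ ^ p : ℝ) : ℂ) := by
      intro k _
      rw [← hzw k, hz]
      simp only [Finset.mul_sum]
      refine Finset.sum_congr rfl fun j _ => ?_
      rw [add_comm j k]
      ring
    rw [Finset.sum_congr rfl e2, ← Finset.mul_sum, hZ]
    push_cast
    rfl
  rw [h2, Complex.norm_real, Real.norm_of_nonneg (by positivity)] at h1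
  have h3 : (a * b * Z) ^ p ≤ M ^ p := Real.rpow_le_rpow (by positivity) h1 hp0.le
  have h4 : (b * Z) ^ p = κ ^ (p - 1) * Z := by
    have e1 : b * Z = κ ^ (1 / q) * Z ^ (1 / p) := by
      rw [hb, Real.div_rpow hκ.le hZ0]
      have e2 : Z = Z ^ (1 / p) * Z ^ (1 / q) := by
        rw [← Real.rpow_add hZp]
        have : 1 / p + 1 / q = 1 := by
          have := hpq.inv_add_inv_eq_one
          rwa [← one_div, ← one_div] at this
        rw [this, Real.rpow_one]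
      have e3 : Z ^ (1 / q) ≠ 0 := (Real.rpow_pos_of_pos hZp _).ne'
      nth_rewrite 2 [e2]
      field_simp
    rw [e1, Real.mul_rpow (by positivity) (by positivity), ← Real.rpow_mul hκ.le,
      ← Real.rpow_mul hZ0, one_div_mul_cancel hp0.ne', Real.rpow_one]
    congr 2
    have h5 := hpq.sub_one_mul_conj
    field_simp
    linarith
  have h5 : κ / Y * (κ ^ (p - 1) * Z) ≤ M ^ p := by
    rw [← h4, ← hap, ← Real.mul_rpow ha0.le (by positivity), ← mul_assoc]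
    exact h3
  have h6 : κ * κ ^ (p - 1) = κ ^ p := by
    nth_rewrite 1 [← Real.rpow_one κ]
    rw [← Real.rpow_add hκ]
    congr 1
    ring
  have h7 : κ ^ p * Z ≤ M ^ p * Y := by
    have e1 : κ / Y * (κ ^ (p - 1) * Z) = κ ^ p * Z / Y := by
      rw [← h6]; ring
    rw [e1, div_le_iff₀ hYp] at h5
    exact h5
  rw [Real.div_rpow hM hκ.le, div_mul_eq_mul_div, le_div_iff₀ (Real.rpow_pos_of_pos hκ _)]
  linarith

end DC8965.BT
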