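import Pool.Agent.Lib.MP_dc8965_an.BT.A1
import Pool.Agent.Lib.MP_dc8965_an.BT.A3
import Pool.Agent.Lib.MP_dc8965_an.BT.A4

open Finset Polynomial

namespace DC8965.BT

private lemma A5_coeff (N : ℕ) (c : ℕ → ℂ) (k : ℕ) :
    (∑ i ∈ range N, monomial i (c i)).coeff k = if k < N then c k else 0 := by
  rw [Polynomial.finsetSum_coeff]
  simp only [Polynomial.coeff_monomial]
  rw [Finset.sum_ite_eq' (range N) k c]
  simp

/-- (A5) The factorisation theorem: if `b` has predual norm at most `κ` against all multipliers,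
then `b` is a finite sum of correlations of total cost `≤ κ + δ`.

Proof. Let `D = ∑_{j<n} ‖b j‖` and choose `N > 0`, `N ≥ n`, with `(n / N) D ≤ δ/2`. Apply (A3) with
`κ' = κ + δ/2` and `δ/2`. Its hypothesis: let `v, M` be such that the bilinear form is bounded by `M`
at level `κ'`. By (A4) the truncated operator has the bound `B := M / κ'` (`M ≥ 0`: take `ψ = φ = 0`). By
(A1) the windowed polynomial `w = ∑_{j<N} monomial j ((1 - j/N) v_j)` satisfies `MB p w B`, so
`‖∑_{j<n} (1 - j/N) v_j b_j‖ ≤ κ B` by `h` (the coefficients of `w` are `(1-j/N) v_j` for `j < N`). (A4) with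
`y = Pi.single j 1`, `j < N`, the term `i = 0`: `‖v_j‖^p ≤ B^p`, so `‖v_j‖ ≤ B`. Hence
`‖∑_{j<N} v_j b_j‖ = ‖∑_{j<n} v_j b_j‖ ≤ κ B + ∑_{j<n} (j/N) B ‖b_j‖ ≤ κ B + (n/N) D B ≤ (κ + δ/2) B = M`. -/
theorem A5 {p q : ℝ} (hpq : p.HolderConjugate q) {n : ℕ} (b : ℕ → ℂ)
    (hb : ∀ j, n ≤ j → b j = 0) {κ : ℝ} (hκ : 0 < κ)
    (h : ∀ (v : ℂ[X]) (B : ℝ), 0 ≤ B → MB p v B → ‖∑ j ∈ range n, v.coeff j * b j‖ ≤ κ * B)
    {δ : ℝ} (hδ : 0 < δ) :
    ∃ (R : ℕ) (ψ φ : Fin R → ℂ[X]),
      (∀ j, b j = ∑ α, Tp (ψ α) (fun n => (φ α).coeff n) j) ∧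
      ∑ α, Sn q (ψ α) ≤ κ + δ ∧ ∑ α, Sn p (φ α) ≤ κ + δ := by
  classical
  have hp1 : 1 < p := hpq.lt
  have hp0 : 0 < p := hpq.pos
  set D : ℝ := ∑ j ∈ range n, ‖b j‖ with hD
  have hD0 : 0 ≤ D := Finset.sum_nonneg fun _ _ => norm_nonneg _
  obtain ⟨N0, hN0⟩ := exists_nat_ge (n * D / (δ / 2))
  set N : ℕ := max (N0 + 1) n with hN
  have hNn : n ≤ N := le_max_right _ _
  have hNp : 0 < N := lt_of_lt_of_le (Nat.succ_pos N0) (le_max_left _ _)
  have hNr : (0 : ℝ) < N := by exact_mod_cast hNp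
  have hND : (n : ℝ) / N * D ≤ δ / 2 := by
    have h1 : (n : ℝ) * D / (δ / 2) ≤ N := by
      refine hN0.trans ?_
      have : N0 ≤ N := (Nat.le_succ N0).trans (le_max_left _ _)
      exact_mod_cast this
    rw [div_le_iff₀ (by positivity)] at h1
    rw [div_mul_eq_mul_div, div_le_iff₀ hNr]
    linarith
  set κ' : ℝ := κ + δ / 2 with hκ'
  have hκ'0 : 0 < κ' := by positivity
  have hbN : ∀ j, N ≤ j → b j = 0 := fun j hj => hb j (hNn.trans hj)
  obtain ⟨R, ψ, φ, h1, h2, h3⟩ := A3 hpq b hbN hκ'0 (by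
    intro v M hvM
    have hM : 0 ≤ M := by
      refine (norm_nonneg _).trans (hvM 0 0 (fun k _ => by simp) (fun k _ => by simp) ?_ ?_)
      · rw [Sn_zero]; exact hκ'0.le
      · rw [Sn_zero]; exact hκ'0.le
    set B : ℝ := M / κ' with hB
    have hB0 : 0 ≤ B := div_nonneg hM hκ'0.le
    have hop := fun y hy => A4 hpq v hκ'0 hvM y hy
    have hmb := A1 hp1.le hNp v hB0 hop
    have hw := h _ B hB0 hmb
    have hwc : ∀ j ∈ range n, (∑ j ∈ range N, monomial j ((1 - (j : ℂ) / N) * v j)).coeff j * b j =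
        (1 - (j : ℂ) / N) * v j * b j := by
      intro j hj
      rw [A5_coeff, if_pos ((Finset.mem_range.1 hj).trans_le hNn)]
    rw [Finset.sum_congr rfl hwc] at hw
    have hvB : ∀ j, j < N → ‖v j‖ ≤ B := by
      intro j hj
      have h4 := hop (Pi.single j 1) (fun k hk => by
        rw [Pi.single_eq_of_ne (by omega)])
      have h5 : ∑ i ∈ range N, ‖(Pi.single j 1 : ℕ → ℂ) i‖ ^ p = 1 := by
        rw [Finset.sum_eq_single j]
        · simp
        · intro i _ hi
          rw [Pi.single_eq_of_ne hi, norm_zero, Real.zero_rpow hp0.ne']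
        · intro hj'
          exact absurd (Finset.mem_range.2 hj) hj'
      rw [h5, mul_one] at h4
      have h6 : ‖∑ j' ∈ range N, v j' * (Pi.single j 1 : ℕ → ℂ) (0 + j')‖ ^ p ≤ B ^ p := by
        refine le_trans ?_ h4
        exact Finset.single_le_sum
          (f := fun i => ‖∑ j' ∈ range N, v j' * (Pi.single j 1 : ℕ → ℂ) (i + j')‖ ^ p)
          (fun _ _ => by positivity) (Finset.mem_range.2 hNp)
      have h7 : ∑ j' ∈ range N, v j' * (Pi.single j 1 : ℕ → ℂ) (0 + j') = v j := by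
        rw [Finset.sum_eq_single j]
        · simp
        · intro i _ hi
          rw [zero_add, Pi.single_eq_of_ne hi, mul_zero]
        · intro hj'
          exact absurd (Finset.mem_range.2 hj) hj'
      rw [h7] at h6
      exact (Real.rpow_le_rpow_iff (norm_nonneg _) hB0 hp0).1 h6
    have hsplit : ∑ j ∈ range N, v j * b j = ∑ j ∈ range n, (1 - (j : ℂ) / N) * v j * b j +
        ∑ j ∈ range n, ((j : ℂ) / N) * (v j * b j) := by
      rw [← Finset.sum_add_distrib]
      rw [← Finset.sum_subset (Finset.range_mono hNn) (fun j _ hj => by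
        rw [hb j (not_lt.1 fun h => hj (Finset.mem_range.2 h)), mul_zero])]
      refine Finset.sum_congr rfl fun j _ => ?_
      ring
    have hrest : ‖∑ j ∈ range n, ((j : ℂ) / N) * (v j * b j)‖ ≤ δ / 2 * B := by
      calc ‖∑ j ∈ range n, ((j : ℂ) / N) * (v j * b j)‖
          ≤ ∑ j ∈ range n, ‖((j : ℂ) / N) * (v j * b j)‖ := norm_sum_le _ _
        _ ≤ ∑ j ∈ range n, ((n : ℝ) / N) * (B * ‖b j‖) := by
            refine Finset.sum_le_sum fun j hj => ?_
            have hj' := Finset.mem_range.1 hj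
            rw [norm_mul, norm_mul, norm_div, Complex.norm_natCast, Complex.norm_natCast]
            have hjn : (j : ℝ) ≤ n := by exact_mod_cast hj'.le
            have h8 := hvB j (hj'.trans_le hNn)
            gcongr
        _ = (n : ℝ) / N * D * B := by
            rw [← Finset.mul_sum, ← Finset.mul_sum, ← hD]
            ring
        _ ≤ δ / 2 * B := mul_le_mul_of_nonneg_right hND hB0
    rw [hsplit]
    calc _ ≤ κ * B + δ / 2 * B := (norm_add_le _ _).trans (add_le_add hw hrest)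
      _ = κ' * B := by rw [hκ']; ring
      _ = M := by rw [hB]; field_simp) (δ := δ / 2) (by positivity)
  refine ⟨R, ψ, φ, h1, ?_, ?_⟩
  · refine h2.trans (le_of_eq ?_)
    rw [hκ']; ring
  · refine h3.trans (le_of_eq ?_)
    rw [hκ']; ring

end DC8965.BT
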