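import Pool.Agent.Lib.MP_dc8965_an.BT.B1

open Finset Polynomial

namespace DC8965.BT

private lemma B2_reflect (L : ℕ) (G : ℕ → ℝ) (hG : ∀ m, 0 ≤ G m) :
    ∑ k ∈ Ico 1 L, G (min k (L - k)) ≤ 2 * ∑ k ∈ Ico 1 L, G k := by
  have h1 : ∑ k ∈ Ico 1 L, G (L - k) = ∑ k ∈ Ico 1 L, G k := by
    refine Finset.sum_nbij' (fun k => L - k) (fun k => L - k) ?_ ?_ ?_ ?_ ?_
    · intro k hk
      rw [Finset.mem_Ico] at hk ⊢
      omega
    · intro k hk
      rw [Finset.mem_Ico] at hk ⊢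
      omega
    · intro k hk
      rw [Finset.mem_Ico] at hk
      show L - (L - k) = k
      omega
    · intro k hk
      rw [Finset.mem_Ico] at hk
      show L - (L - k) = k
      omega
    · intro k _
      rfl
  have h2 : ∑ k ∈ Ico 1 L, G (min k (L - k)) ≤ ∑ k ∈ Ico 1 L, (G k + G (L - k)) := by
    refine Finset.sum_le_sum fun k _ => ?_
    rcases min_choice k (L - k) with h | h
    · rw [h]
      linarith [hG (L - k)]
    · rw [h]
      linarith [hG k]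
  rw [Finset.sum_add_distrib, h1] at h2
  linarith

/-- (B2) Proof. Let `m(k) = min k (L-k)`; every value `m ≥ 1` is taken at most twice on `0 < k < L`. Fix
`T ≥ 1` with `1/T ≤ δ` . The `k` with `m(k) ≤ T` number at most `2T` and contribute at most `T²` each by
(B1); the others contribute at most `L²/(4 m²)` each, in total at most
`2 ∑_{m>T} L²/(4m²) ≤ L²/(2T) ≤ δ L²/2` (`∑_{m>T} 1/m² ≤ 1/T`, telescoping `1/m² ≤ 1/(m-1) - 1/m`). The sum is
at most `2T³ + δ L²/2 ≤ δ L²` as soon as `L² ≥ 4T³/δ`. Convenient form: `∑_{k ∈ Ico 1 L} F(min k (L-k)) ≤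
2 ∑_{m ∈ Ico 1 L} F m` for `F ≥ 0` with `F m = min(m², L²/(4m²))` (split into `k ≤ L-k` and `L-k < k`). -/
theorem B2 {δ : ℝ} (hδ : 0 < δ) :
    ∃ L₀ : ℕ, ∀ L : ℕ, L₀ ≤ L → ∑ k ∈ Ico 1 L, ‖Cc L k‖ ^ 2 ≤ δ * (L : ℝ) ^ 2 := by
  obtain ⟨T, hT⟩ := exists_nat_ge (1 / δ + 1)
  have hδi : 0 < 1 / δ := by positivity
  have hT1 : (1 : ℝ) ≤ T := by linarith
  have hT0 : T ≠ 0 := by
    rintro rfl
    norm_num at hT1
  have hTδ : (T : ℝ)⁻¹ ≤ δ := by
    rw [inv_le_comm₀ (by linarith) hδ]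
    rw [one_div] at hT
    linarith
  obtain ⟨L₀, hL₀⟩ := exists_nat_ge (4 * (T : ℝ) ^ 3 / δ + 1)
  refine ⟨L₀, fun L hL => ?_⟩
  have hL' : 4 * (T : ℝ) ^ 3 / δ + 1 ≤ L := hL₀.trans (by exact_mod_cast hL)
  have hpos : 0 ≤ 4 * (T : ℝ) ^ 3 / δ := by positivity
  have hL1 : (1 : ℝ) ≤ L := by linarith
  have hLL : 4 * (T : ℝ) ^ 3 ≤ δ * (L : ℝ) ^ 2 := by
    have h1 : 4 * (T : ℝ) ^ 3 / δ ≤ (L : ℝ) ^ 2 := by nlinarith
    rw [div_le_iff₀ hδ] at h1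
    linarith
  set G : ℕ → ℝ := fun m => (if m ≤ T then (T : ℝ) ^ 2 else 0) +
    (if T < m then (L : ℝ) ^ 2 / 4 * ((m : ℝ) ^ 2)⁻¹ else 0) with hG
  have hG0 : ∀ m, 0 ≤ G m := by
    intro m
    simp only [hG]
    split_ifs <;> positivity
  have hle : ∀ k ∈ Ico 1 L, ‖Cc L k‖ ^ 2 ≤ G (min k (L - k)) := by
    intro k hk
    rw [Finset.mem_Ico] at hk
    obtain ⟨h1, h2⟩ := B1 (L := L) (k := k) (by omega) hk.2
    set m := min k (L - k) with hm
    have hm1 : 1 ≤ m := by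
      rw [hm, le_min_iff]
      omega
    have hm1' : (1 : ℝ) ≤ m := by exact_mod_cast hm1
    have hn := norm_nonneg (Cc L k)
    simp only [hG]
    rcases Nat.lt_or_ge T m with h | h
    · rw [if_neg (by omega), if_pos h, zero_add]
      have h3 : ‖Cc L k‖ ≤ L / (2 * m) := by
        rw [le_div_iff₀ (by positivity)]
        linarith
      calc ‖Cc L k‖ ^ 2 ≤ ((L : ℝ) / (2 * m)) ^ 2 := pow_le_pow_left₀ hn h3 2
        _ = _ := by
          field_simp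
          ring
    · rw [if_pos h, if_neg (by omega), add_zero]
      have h3 : (m : ℝ) ≤ T := by exact_mod_cast h
      exact pow_le_pow_left₀ hn (h1.trans h3) 2
  have hsum1 : ∑ m ∈ Ico 1 L, (if m ≤ T then (T : ℝ) ^ 2 else 0) ≤ (T : ℝ) ^ 3 := by
    rw [← Finset.sum_filter, Finset.sum_const, nsmul_eq_mul]
    have h1 : ((Ico 1 L).filter (fun m => m ≤ T)).card ≤ T := by
      have h2 : (Ico 1 L).filter (fun m => m ≤ T) ⊆ Icc 1 T := by
        intro m hm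
        rw [Finset.mem_filter, Finset.mem_Ico] at hm
        rw [Finset.mem_Icc]
        omega
      refine (Finset.card_le_card h2).trans ?_
      rw [Nat.card_Icc]
      omega
    have h3 : (((Ico 1 L).filter (fun m => m ≤ T)).card : ℝ) ≤ T := by exact_mod_cast h1
    calc _ ≤ (T : ℝ) * (T : ℝ) ^ 2 := mul_le_mul_of_nonneg_right h3 (by positivity)
      _ = _ := by ring
  have hsum2 : ∑ m ∈ Ico 1 L, (if T < m then (L : ℝ) ^ 2 / 4 * ((m : ℝ) ^ 2)⁻¹ else 0) ≤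
      (L : ℝ) ^ 2 / 4 * (T : ℝ)⁻¹ := by
    rw [← Finset.sum_filter, ← Finset.mul_sum]
    refine mul_le_mul_of_nonneg_left ?_ (by positivity)
    have h2 : (Ico 1 L).filter (fun m => T < m) ⊆ Ioc T (T + L) := by
      intro m hm
      rw [Finset.mem_filter, Finset.mem_Ico] at hm
      rw [Finset.mem_Ioc]
      omega
    refine (Finset.sum_le_sum_of_subset_of_nonneg h2 fun _ _ _ => by positivity).trans ?_
    have h3 := sum_Ioc_inv_sq_le_sub (α := ℝ) hT0 (Nat.le_add_right T L)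
    have h4 : (0 : ℝ) ≤ (((T + L : ℕ) : ℝ))⁻¹ := by positivity
    linarith
  have hsumG : ∑ m ∈ Ico 1 L, G m ≤ (T : ℝ) ^ 3 + (L : ℝ) ^ 2 / 4 * (T : ℝ)⁻¹ := by
    simp only [hG, Finset.sum_add_distrib]
    exact add_le_add hsum1 hsum2
  have hfin : (L : ℝ) ^ 2 / 4 * (T : ℝ)⁻¹ ≤ (L : ℝ) ^ 2 / 4 * δ :=
    mul_le_mul_of_nonneg_left hTδ (by positivity)
  calc ∑ k ∈ Ico 1 L, ‖Cc L k‖ ^ 2 ≤ ∑ k ∈ Ico 1 L, G (min k (L - k)) := Finset.sum_le_sum hle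
    _ ≤ 2 * ∑ k ∈ Ico 1 L, G k := B2_reflect L G hG0
    _ ≤ δ * (L : ℝ) ^ 2 := by nlinarith

end DC8965.BT
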