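import Pool.Agent.Lib.MP_dc8965_an.BT.BDefs

open Finset Polynomial

namespace DC8965.BT

private lemma B3_shift {r : ℝ} {a : ℕ → ℂ} {C : ℝ} (h : Sle r a C) (c : ℂ) (k : ℕ) :
    Sle r (fun j => c * a (j + k)) (‖c‖ ^ r * C) := by
  intro n
  have h1 : ∑ j ∈ range n, ‖c * a (j + k)‖ ^ r = ‖c‖ ^ r * ∑ j ∈ range n, ‖a (j + k)‖ ^ r := by
    rw [Finset.mul_sum]
    refine Finset.sum_congr rfl fun j _ => ?_
    rw [norm_mul, Real.mul_rpow (norm_nonneg _) (norm_nonneg _)]
  rw [h1]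
  refine mul_le_mul_of_nonneg_left ?_ (by positivity)
  have h2 := h.sum_le ((range n).map ⟨(· + k), add_left_injective k⟩)
  rw [Finset.sum_map] at h2
  exact h2

/-- (B3) Young's inequality `‖T_V a‖_r ≤ ‖V‖_1 ‖a‖_r`.

Proof. Induction over the number of terms, or directly: for every `D ≥ 0` with `Sle r a (D^r)`
(`C = D^r`, `D = C^{1/r}`) show by induction on a finite set `s` that
`Sle r (fun j => ∑ k ∈ s, V.coeff k * a (j+k)) ((∑ k ∈ s, ‖V.coeff k‖ * D)^r)`: the step is `Sle.add` and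
`Sle r (fun j => c * a (j + k)) ((‖c‖ * D)^r)` (a sum over `range n` of the shifted sequence is at most a
sum over `range (n+k)`). -/
theorem B3 {r : ℝ} (hr : 1 ≤ r) (V : ℂ[X]) {a : ℕ → ℂ} {C : ℝ} (h : Sle r a C) :
    Sle r (Tp V a) (N1 V ^ r * C) := by
  have hr0 : 0 < r := by linarith
  have hC : 0 ≤ C := h.nonneg
  obtain ⟨D, hD, hDC⟩ : ∃ D : ℝ, 0 ≤ D ∧ D ^ r = C :=
    ⟨C ^ (1 / r), Real.rpow_nonneg hC _, by
      rw [← Real.rpow_mul hC, one_div_mul_cancel hr0.ne', Real.rpow_one]⟩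
  have key : ∀ s : Finset ℕ, Sle r (fun j => ∑ k ∈ s, V.coeff k * a (j + k))
      (((∑ k ∈ s, ‖V.coeff k‖) * D) ^ r) := by
    intro s
    induction s using Finset.induction_on with
    | empty =>
      intro n
      simp [Real.zero_rpow hr0.ne']
    | insert i s hi ih =>
      have h1 : Sle r (fun j => V.coeff i * a (j + i)) ((‖V.coeff i‖ * D) ^ r) := by
        rw [Real.mul_rpow (norm_nonneg _) hD, hDC]
        exact B3_shift h _ _
      have h2 := Sle.add hr (mul_nonneg (norm_nonneg _) hD)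
        (mul_nonneg (Finset.sum_nonneg fun _ _ => norm_nonneg _) hD) h1 ih
      rw [← add_mul] at h2
      simp only [Finset.sum_insert hi]
      exact h2
  have h3 := key V.support
  rw [Real.mul_rpow (Finset.sum_nonneg fun _ _ => norm_nonneg _) hD, hDC] at h3
  exact h3

end DC8965.BT
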