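import Pool.Agent.Lib.MP_dc8965_an.BT.BDefs

open Finset Polynomial

namespace DC8965.BT

/-- (B4) Proof. By linearity (`Tp_finset_sum_left`, `Tp_C_mul`, `Tp_finset_sum_right` or
`Finset.sum` of coefficients) the left side is
`∑_{l<L} ∑_{l'<L} conj(ε_l) ε_{l'} Tp (X^{lP} ψ) (X^{l'P} φ).coeff j`, and by `Tp_X_pow_mul` the inner factor is
`Tp ψ (X^{l'P} φ).coeff (j + lP) = ∑_m ψ_m (X^{l'P} φ)_{j + lP + m}`. If `l' < l` the index satisfies
`j + lP + m - l'P ≥ P`, so the term vanishes by `hφ` (`coeff_X_pow_mul'`). If `l' = l + k` then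
`(X^{l'P} φ)_{j+lP+m} = (X^{kP} φ)_{j+m}`. So the sum is
`∑_{k<L} (∑_{l<L-k} conj(ε_l) ε_{l+k}) Tp ψ (X^{kP} φ).coeff j`. -/
theorem B4 (L P : ℕ) (ψ φ : ℂ[X]) (hφ : ∀ k, P ≤ k → φ.coeff k = 0) (j : ℕ) :
    Tp (X0 L P ψ) (fun n => (Y0 L P φ).coeff n) j
      = ∑ k ∈ range L, Cc L k * Tp ψ (fun n => (X ^ (k * P) * φ).coeff n) j := by
  have hzero : ∀ l l' : ℕ, l' < l →
      Tp ψ (fun n => (X ^ (l' * P) * φ).coeff n) (j + l * P) = 0 := by
    intro l l' hl
    refine Finset.sum_eq_zero fun m _ => ?_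
    have h1 : (X ^ (l' * P) * φ).coeff (j + l * P + m) = 0 := by
      have h2 : (l' + 1) * P ≤ l * P := Nat.mul_le_mul_right P hl
      have h3 : l' * P + P ≤ l * P := by rw [← Nat.succ_mul]; exact h2
      rw [Polynomial.coeff_X_pow_mul', if_pos (by omega)]
      exact hφ _ (by omega)
    show ψ.coeff m * (X ^ (l' * P) * φ).coeff (j + l * P + m) = 0
    rw [h1, mul_zero]
  have hshift : ∀ l k : ℕ,
      Tp ψ (fun n => (X ^ ((l + k) * P) * φ).coeff n) (j + l * P)
        = Tp ψ (fun n => (X ^ (k * P) * φ).coeff n) j := by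
    intro l k
    refine Finset.sum_congr rfl fun m _ => ?_
    show ψ.coeff m * (X ^ ((l + k) * P) * φ).coeff (j + l * P + m)
      = ψ.coeff m * (X ^ (k * P) * φ).coeff (j + m)
    have h1 : (X ^ ((l + k) * P) * φ).coeff (j + l * P + m)
        = (X ^ (k * P) * φ).coeff (j + m) := by
      have h2 : (l + k) * P = l * P + k * P := Nat.add_mul l k P
      rw [h2, pow_add, mul_assoc, Polynomial.coeff_X_pow_mul', if_pos (by omega)]
      congr 1
      omega
    rw [h1]
  have hY : (fun n => (Y0 L P φ).coeff n)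
      = ∑ l' ∈ range L, ep L l' • (fun n => (X ^ (l' * P) * φ).coeff n) := by
    ext n
    rw [Y0, Polynomial.finsetSum_coeff, Finset.sum_apply]
    refine Finset.sum_congr rfl fun l' _ => ?_
    rw [Polynomial.coeff_C_mul, Pi.smul_apply, smul_eq_mul]
  have hinner : ∀ i : ℕ, Tp ψ (fun n => (Y0 L P φ).coeff n) i
      = ∑ l' ∈ range L, ep L l' * Tp ψ (fun n => (X ^ (l' * P) * φ).coeff n) i := by
    intro i
    rw [hY, Tp_finset_sum_right, Finset.sum_apply]
    refine Finset.sum_congr rfl fun l' _ => ?_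
    rw [Tp_smul_right, Pi.smul_apply, smul_eq_mul]
  have houter : Tp (X0 L P ψ) (fun n => (Y0 L P φ).coeff n) j
      = ∑ l ∈ range L, (starRingEnd ℂ) (ep L l)
          * Tp ψ (fun n => (Y0 L P φ).coeff n) (j + l * P) := by
    rw [X0, Tp_finset_sum_left, Finset.sum_apply]
    refine Finset.sum_congr rfl fun l _ => ?_
    rw [Tp_C_mul, Pi.smul_apply, smul_eq_mul, Tp_X_pow_mul]
  rw [houter]
  have hrow : ∀ l ∈ range L, (starRingEnd ℂ) (ep L l)
        * Tp ψ (fun n => (Y0 L P φ).coeff n) (j + l * P)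
      = ∑ k ∈ range (L - l), (starRingEnd ℂ) (ep L l) * ep L (l + k)
          * Tp ψ (fun n => (X ^ (k * P) * φ).coeff n) j := by
    intro l hl
    rw [Finset.mem_range] at hl
    rw [hinner, Finset.range_eq_Ico, ← Finset.sum_Ico_consecutive _ (Nat.zero_le l) hl.le]
    have h0 : ∑ l' ∈ Ico 0 l, ep L l'
        * Tp ψ (fun n => (X ^ (l' * P) * φ).coeff n) (j + l * P) = 0 := by
      refine Finset.sum_eq_zero fun l' hl' => ?_
      rw [hzero l l' (Finset.mem_Ico.mp hl').2, mul_zero]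
    rw [h0, zero_add, Finset.sum_Ico_eq_sum_range, Finset.mul_sum]
    refine Finset.sum_congr rfl fun k _ => ?_
    rw [hshift l k, mul_assoc]
  rw [Finset.sum_congr rfl hrow,
    Finset.sum_comm' (s := range L) (t := fun l => range (L - l)) (t' := range L)
      (s' := fun k => range (L - k))
      (by intro l k; simp only [Finset.mem_range]; omega)]
  refine Finset.sum_congr rfl fun k _ => ?_
  rw [Cc, Finset.sum_mul]

end DC8965.BT
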