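import Pool.Agent.Lib.MP_dc8965_an.BT.B3
import Pool.Agent.Lib.MP_dc8965_an.BT.B4

open Finset Polynomial

namespace DC8965.BT

private lemma B5_zero {P : ℕ} (hP : 0 < P) {ψ φ : ℂ[X]} (hψ : ∀ k, P ≤ k → ψ.coeff k = 0)
    (hφ : ∀ k, P ≤ k → φ.coeff k = 0) {j k : ℕ} (h : ¬ (k = j / P ∨ k = j / P + 1)) :
    Tp ψ (fun n => (X ^ (k * P) * φ).coeff n) j = 0 := by
  rw [Tp_range hψ]
  refine Finset.sum_eq_zero fun m hm => ?_
  rw [Finset.mem_range] at hm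
  rw [coeff_X_pow_mul']
  split_ifs with h1
  · by_cases h2 : P ≤ j + m - k * P
    · rw [hφ _ h2, mul_zero]
    · exfalso
      apply h
      have h3 : k * P < j + P := by omega
      have h4 : j < (k + 1) * P := by
        rw [add_mul, one_mul]
        omega
      have h5 : j / P < k + 1 := (Nat.div_lt_iff_lt_mul hP).2 h4
      have h6 : k < j / P + 2 := by
        by_contra h7
        have h8 : (j / P + 2) * P ≤ k * P := Nat.mul_le_mul_right P (not_lt.1 h7)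
        have h9 : j < (j / P + 1) * P := Nat.lt_mul_of_div_lt (Nat.lt_succ_self _) hP
        have h10 : (j / P + 2) * P = (j / P + 1) * P + P := by ring
        omega
      omega
  · rw [mul_zero]

private lemma B5_Cc0 (L : ℕ) : Cc L 0 = L := by
  unfold Cc
  have h : ∀ l ∈ range (L - 0), (starRingEnd ℂ) (ep L l) * ep L (l + 0) = 1 := fun l _ => by
    rw [add_zero, Complex.conj_mul', norm_ep]
    simp
  rw [Finset.sum_congr rfl h]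
  simp

private lemma B5_pt {L P : ℕ} (hP : 0 < P) {ψ φ : ℂ[X]} (hψ : ∀ k, P ≤ k → ψ.coeff k = 0)
    (hφ : ∀ k, P ≤ k → φ.coeff k = 0) (c : ℕ → ℂ) (j : ℕ) :
    ‖∑ k ∈ Ico 1 L, c k * Tp ψ (fun n => (X ^ (k * P) * φ).coeff n) j‖ ^ 2 ≤
      2 * ∑ k ∈ Ico 1 L, ‖c k‖ ^ 2 * ‖Tp ψ (fun n => (X ^ (k * P) * φ).coeff n) j‖ ^ 2 := by
  set f : ℕ → ℂ := fun k => c k * Tp ψ (fun n => (X ^ (k * P) * φ).coeff n) j with hf
  have h0 : ∑ k ∈ Ico 1 L, f k = ∑ k ∈ (Ico 1 L).filter (fun k => k = j / P ∨ k = j / P + 1), f k := by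
    refine (Finset.sum_filter_of_ne fun k _ hk => ?_).symm
    by_contra h
    apply hk
    rw [hf]
    dsimp only
    rw [B5_zero hP hψ hφ h, mul_zero]
  have hcard : ((Ico 1 L).filter (fun k => k = j / P ∨ k = j / P + 1)).card ≤ 2 := by
    refine (Finset.card_le_card (t := {j / P, j / P + 1}) ?_).trans Finset.card_le_two
    intro k hk
    rw [Finset.mem_filter] at hk
    simpa using hk.2
  have h1 : ∀ k, ‖c k‖ ^ 2 * ‖Tp ψ (fun n => (X ^ (k * P) * φ).coeff n) j‖ ^ 2 = ‖f k‖ ^ 2 :=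
    fun k => by rw [hf]; dsimp only; rw [norm_mul, mul_pow]
  simp only [h1]
  rw [h0]
  set s := (Ico 1 L).filter (fun k => k = j / P ∨ k = j / P + 1) with hs
  calc ‖∑ k ∈ s, f k‖ ^ 2 ≤ (∑ k ∈ s, ‖f k‖) ^ 2 :=
        pow_le_pow_left₀ (norm_nonneg _) (norm_sum_le _ _) 2
    _ ≤ s.card * ∑ k ∈ s, ‖f k‖ ^ 2 := sq_sum_le_card_mul_sum_sq
    _ ≤ 2 * ∑ k ∈ s, ‖f k‖ ^ 2 := by
        refine mul_le_mul_of_nonneg_right ?_ (Finset.sum_nonneg fun _ _ => sq_nonneg _)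
        exact_mod_cast hcard
    _ ≤ 2 * ∑ k ∈ Ico 1 L, ‖f k‖ ^ 2 := by
        refine mul_le_mul_of_nonneg_left ?_ (by norm_num)
        exact Finset.sum_le_sum_of_subset_of_nonneg (Finset.filter_subset _ _)
          fun _ _ _ => sq_nonneg _

/-- (B5) Proof. By (B4) and `Cc L 0 = L` (`conj ε ε = 1`) the sequence is
`j ↦ ∑_{k ∈ Ico 1 L} C_k G_k(j)`, `G_k(j) = Tp ψ (X^{kP} φ).coeff j = ∑_{m<P} ψ_m φ_{j+m-kP}`, which
is nonzero only if `kP ≤ j + m < kP + P` for some `m < P`, i.e. `kP < j + P` and `j < kP + P`. For fixed `j`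
at most two `k` satisfy this (`k = j / P` and `k = j / P + 1`), so by
`|x + y|² ≤ 2|x|² + 2|y|²`: `|∑_k C_k G_k(j)|² ≤ 2 ∑_k |C_k|² |G_k(j)|²`. Sum over `j < n`: by (B3) with `r = 2`
(`‖·‖^(2:ℝ)` versus `‖·‖^2`: `Real.rpow_two`), `Sn_X_pow_mul` and `Sle_coeff_iff`,
`∑_j |G_k(j)|² ≤ (N1 ψ)² Sn 2 φ`. -/
theorem B5 (L P : ℕ) (hL : 0 < L) (hP : 0 < P) (ψ φ : ℂ[X]) (hψ : ∀ k, P ≤ k → ψ.coeff k = 0)
    (hφ : ∀ k, P ≤ k → φ.coeff k = 0) :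
    Sle 2 (fun j => Tp (X0 L P ψ) (fun n => (Y0 L P φ).coeff n) j
        - (L : ℂ) * Tp ψ (fun n => φ.coeff n) j)
      (2 * (∑ k ∈ Ico 1 L, ‖Cc L k‖ ^ 2) * N1 ψ ^ 2 * Sn 2 φ) := by
  have hG : ∀ k n, ∑ j ∈ range n, ‖Tp ψ (fun n => (X ^ (k * P) * φ).coeff n) j‖ ^ 2 ≤
      N1 ψ ^ 2 * Sn 2 φ := by
    intro k n
    have h1 : Sle 2 (fun n => (X ^ (k * P) * φ).coeff n) (Sn 2 φ) := by
      rw [Sle_coeff_iff (by norm_num), Sn_X_pow_mul]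
    have h2 := B3 (by norm_num) ψ h1 n
    simp only [Real.rpow_two] at h2
    exact h2
  have hD : ∀ j, Tp (X0 L P ψ) (fun n => (Y0 L P φ).coeff n) j
        - (L : ℂ) * Tp ψ (fun n => φ.coeff n) j =
      ∑ k ∈ Ico 1 L, Cc L k * Tp ψ (fun n => (X ^ (k * P) * φ).coeff n) j := by
    intro j
    rw [B4 L P ψ φ hφ j, Finset.sum_range_eq_add_Ico _ hL, B5_Cc0]
    simp only [zero_mul, pow_zero, one_mul, add_sub_cancel_left]
  intro n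
  calc ∑ j ∈ range n, ‖Tp (X0 L P ψ) (fun n => (Y0 L P φ).coeff n) j
        - (L : ℂ) * Tp ψ (fun n => φ.coeff n) j‖ ^ (2 : ℝ)
      ≤ ∑ j ∈ range n, 2 * ∑ k ∈ Ico 1 L, ‖Cc L k‖ ^ 2 *
          ‖Tp ψ (fun n => (X ^ (k * P) * φ).coeff n) j‖ ^ 2 := by
        refine Finset.sum_le_sum fun j _ => ?_
        rw [hD, Real.rpow_two]
        exact B5_pt hP hψ hφ _ j
    _ = 2 * ∑ k ∈ Ico 1 L, ‖Cc L k‖ ^ 2 *
          ∑ j ∈ range n, ‖Tp ψ (fun n => (X ^ (k * P) * φ).coeff n) j‖ ^ 2 := by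
        rw [← Finset.mul_sum, Finset.sum_comm]
        simp only [Finset.mul_sum]
    _ ≤ 2 * ∑ k ∈ Ico 1 L, ‖Cc L k‖ ^ 2 * (N1 ψ ^ 2 * Sn 2 φ) := by
        refine mul_le_mul_of_nonneg_left ?_ (by norm_num)
        exact Finset.sum_le_sum fun k _ => mul_le_mul_of_nonneg_left (hG k n) (sq_nonneg _)
    _ = 2 * (∑ k ∈ Ico 1 L, ‖Cc L k‖ ^ 2) * N1 ψ ^ 2 * Sn 2 φ := by
        rw [← Finset.sum_mul]
        ring

end DC8965.BT
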