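import Pool.Agent.Lib.MP_dc8965_an.BT.B2
import Pool.Agent.Lib.MP_dc8965_an.BT.B5

open Finset Polynomial

namespace DC8965.BT

private lemma B6_smul {r : ℝ} {f : ℕ → ℂ} {D : ℝ} (h : Sle r f D) (c : ℂ) :
    Sle r (fun j => c * f j) (‖c‖ ^ r * D) := by
  intro n
  have h1 : ∑ k ∈ range n, ‖c * f k‖ ^ r = ‖c‖ ^ r * ∑ k ∈ range n, ‖f k‖ ^ r := by
    rw [Finset.mul_sum]
    refine Finset.sum_congr rfl fun k _ => ?_
    rw [norm_mul, Real.mul_rpow (norm_nonneg _) (norm_nonneg _)]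
  show ∑ k ∈ range n, ‖c * f k‖ ^ r ≤ _
  rw [h1]
  exact mul_le_mul_of_nonneg_left (h n) (by positivity)

private lemma B6_train_coeff (c : ℕ → ℂ) {P : ℕ} {ψ : ℂ[X]} (hψ : ∀ k, P ≤ k → ψ.coeff k = 0)
    (L : ℕ) (k : ℕ) (hk : L * P ≤ k) :
    (∑ l ∈ range L, C (c l) * (X ^ (l * P) * ψ)).coeff k = 0 := by
  rw [Polynomial.finsetSum_coeff]
  refine Finset.sum_eq_zero fun l hl => ?_
  have h1 : (l + 1) * P ≤ L * P := Nat.mul_le_mul_right P (Finset.mem_range.1 hl)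
  rw [Nat.succ_mul] at h1
  rw [Polynomial.coeff_C_mul, Polynomial.coeff_X_pow_mul', if_pos (by omega), hψ _ (by omega),
    mul_zero]

private lemma B6_train {r : ℝ} (hr : 0 < r) (c : ℕ → ℂ) (hc : ∀ l, ‖c l‖ = 1) {P : ℕ}
    {ψ : ℂ[X]} (hψ : ∀ k, P ≤ k → ψ.coeff k = 0) (L : ℕ) :
    Sn r (∑ l ∈ range L, C (c l) * (X ^ (l * P) * ψ)) ≤ L * Sn r ψ := by
  induction L with
  | zero => simp
  | succ L ih =>
    rw [Finset.sum_range_succ]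
    refine (Sn_add_le_of_disjoint hr (m := L * P) (B6_train_coeff c hψ L) ?_).trans ?_
    · intro k hk
      rw [Polynomial.coeff_C_mul, Polynomial.coeff_X_pow_mul', if_neg (by omega), mul_zero]
    · rw [Sn_C_mul hr, Sn_X_pow_mul, hc, Real.one_rpow, one_mul]
      push_cast
      linarith

/-- (B6) The block lemma: a term `T_ψ φ` can be removed by far, flat blocks of the same norms.

Proof. Choose `P > 0` with `ψ, φ` supported below `P`. For `L ≥ 1` put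
`X = -C (L^{-1/q}) * (X^{n₀} * X0 L P ψ)`, `Y = C (L^{-1/p}) * (X^{n₀} * Y0 L P φ)`.
(a) The `L` blocks of `X0` are disjoint and `‖ε_l‖ = 1`, so by induction on `L` with
`Sn_add_le_of_disjoint`, `Sn_C_mul`, `Sn_X_pow_mul`: `Sn q (X0 L P ψ) ≤ L Sn q ψ`; hence `Sn q X ≤ Sn q ψ`
(`(L^{-1/q})^q = 1/L`, `Sn_neg`). Same for `Y` with `p`, and `Sn 2 (Y0 L P φ) ≤ L Sn 2 φ`.
(b) `L^{-1/q} L^{-1/p} = 1/L` and `Tp (X^{n₀} A) (X^{n₀} B).coeff j = Tp A (X^{n₀} B).coeff (j + n₀) = Tp A B.coeff j`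
(`Tp_X_pow_mul`, `coeff_X_pow_mul'`), so `Tp X Y = -(1/L) Tp (X0) (Y0)` and
`Tp (V + X) Y + Tp ψ φ = Tp V Y - (1/L) (Tp X0 Y0 - L Tp ψ φ)`.
(c) By (B3): `Sle 2 (Tp V Y) (N1(V)² L^{1-2/p} Sn 2 φ)`, which tends to `0` since `2/p > 1`.
(d) By (B5), (B2): `Sle 2 ((1/L)(Tp X0 Y0 - L Tp ψ φ)) (2 δ' N1(ψ)² Sn 2 φ)` for `L ≥ L₀(δ')`.
Choose `δ'` small, then `L` large, and add with `Sle.add` (`r = 2`, `A = B = √δ/2`). -/
theorem B6 {p q : ℝ} (hpq : p.HolderConjugate q) (hp2 : p < 2) (V ψ φ : ℂ[X]) (n₀ : ℕ)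
    {δ : ℝ} (hδ : 0 < δ) :
    ∃ X Y : ℂ[X], (∀ k < n₀, X.coeff k = 0) ∧ (∀ k < n₀, Y.coeff k = 0) ∧
      Sn q X ≤ Sn q ψ ∧ Sn p Y ≤ Sn p φ ∧
      Sle 2 (fun j => Tp (V + X) (fun n => Y.coeff n) j + Tp ψ (fun n => φ.coeff n) j) δ := by
  have hp0 : 0 < p := hpq.pos
  have hq0 : 0 < q := hpq.symm.pos
  have hinv : p⁻¹ + q⁻¹ = 1 := hpq.inv_add_inv_eq_one
  obtain ⟨P, hP, hψ, hφ⟩ : ∃ P : ℕ, 0 < P ∧ (∀ k, P ≤ k → ψ.coeff k = 0) ∧
      ∀ k, P ≤ k → φ.coeff k = 0 :=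
    ⟨ψ.natDegree + φ.natDegree + 1, by omega,
      fun k hk => Polynomial.coeff_eq_zero_of_natDegree_lt (by omega),
      fun k hk => Polynomial.coeff_eq_zero_of_natDegree_lt (by omega)⟩
  obtain ⟨N, hN⟩ : ∃ N, N = N1 ψ ^ 2 * Sn 2 φ := ⟨_, rfl⟩
  have hN0 : 0 ≤ N := by
    rw [hN]
    exact mul_nonneg (sq_nonneg _) (Sn_nonneg _ _)
  obtain ⟨L₀, hL₀⟩ := B2 (δ := δ / (8 * (N + 1))) (by positivity)
  have hy : 0 < 2 / p - 1 := by
    rw [sub_pos, lt_div_iff₀ hp0]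
    linarith
  have hlim : Filter.Tendsto (fun L : ℕ => N1 V ^ 2 * Sn 2 φ * ((L : ℝ) ^ (-(2 / p - 1))))
      Filter.atTop (nhds 0) := by
    have h1 := ((tendsto_rpow_neg_atTop hy).comp tendsto_natCast_atTop_atTop).const_mul
      (N1 V ^ 2 * Sn 2 φ)
    rw [mul_zero] at h1
    exact h1
  obtain ⟨L, hL1, hL2, hL3⟩ := ((hlim.eventually (gt_mem_nhds (show (0 : ℝ) < δ / 4 by
    positivity))).and ((Filter.eventually_ge_atTop L₀).and
      (Filter.eventually_ge_atTop 1))).exists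
  have hLpos : (0 : ℝ) < L := by exact_mod_cast hL3
  obtain ⟨cq, hcq⟩ : ∃ cq : ℝ, cq = (L : ℝ) ^ (-q⁻¹) := ⟨_, rfl⟩
  obtain ⟨cp, hcp⟩ : ∃ cp : ℝ, cp = (L : ℝ) ^ (-p⁻¹) := ⟨_, rfl⟩
  have hcq0 : 0 < cq := by
    rw [hcq]
    exact Real.rpow_pos_of_pos hLpos _
  have hcp0 : 0 < cp := by
    rw [hcp]
    exact Real.rpow_pos_of_pos hLpos _
  have hcqq : cq ^ q = (L : ℝ)⁻¹ := by
    rw [hcq, ← Real.rpow_mul hLpos.le, neg_mul, inv_mul_cancel₀ hq0.ne', Real.rpow_neg_one]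
  have hcpp : cp ^ p = (L : ℝ)⁻¹ := by
    rw [hcp, ← Real.rpow_mul hLpos.le, neg_mul, inv_mul_cancel₀ hp0.ne', Real.rpow_neg_one]
  have hcpq : cq * cp = (L : ℝ)⁻¹ := by
    rw [hcq, hcp, ← Real.rpow_add hLpos, ← neg_add, add_comm q⁻¹, hinv, Real.rpow_neg_one]
  have hcp2 : cp ^ (2 : ℝ) * L = (L : ℝ) ^ (-(2 / p - 1)) := by
    rw [hcp, ← Real.rpow_mul hLpos.le, ← Real.rpow_add_one hLpos.ne']
    congr 1
    ring
  have hnq : ‖(cq : ℂ)‖ = cq := by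
    rw [Complex.norm_real, Real.norm_of_nonneg hcq0.le]
  have hnp : ‖(cp : ℂ)‖ = cp := by
    rw [Complex.norm_real, Real.norm_of_nonneg hcp0.le]
  have hX0 : Sn q (X0 L P ψ) ≤ L * Sn q ψ :=
    B6_train hq0 (fun l => (starRingEnd ℂ) (ep L l))
      (fun l => by rw [RCLike.norm_conj, norm_ep]) hψ L
  have hY0 : ∀ r : ℝ, 0 < r → Sn r (Y0 L P φ) ≤ L * Sn r φ := fun r hr =>
    B6_train hr (fun l => ep L l) (fun l => norm_ep L l) hφ L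
  have hSY : ∀ r : ℝ, 0 < r →
      Sn r (C (cp : ℂ) * (X ^ n₀ * Y0 L P φ)) ≤ cp ^ r * (L * Sn r φ) := by
    intro r hr
    rw [Sn_C_mul hr, Sn_X_pow_mul, hnp]
    exact mul_le_mul_of_nonneg_left (hY0 r hr) (by positivity)
  refine ⟨-(C (cq : ℂ) * (X ^ n₀ * X0 L P ψ)), C (cp : ℂ) * (X ^ n₀ * Y0 L P φ), ?_, ?_, ?_, ?_,
    ?_⟩
  · intro k hk
    rw [Polynomial.coeff_neg, Polynomial.coeff_C_mul, Polynomial.coeff_X_pow_mul',
      if_neg (by omega), mul_zero, neg_zero]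
  · intro k hk
    rw [Polynomial.coeff_C_mul, Polynomial.coeff_X_pow_mul', if_neg (by omega), mul_zero]
  · rw [Sn_neg, Sn_C_mul hq0, Sn_X_pow_mul, hnq, hcqq]
    calc (L : ℝ)⁻¹ * Sn q (X0 L P ψ) ≤ (L : ℝ)⁻¹ * (L * Sn q ψ) :=
          mul_le_mul_of_nonneg_left hX0 (by positivity)
      _ = Sn q ψ := inv_mul_cancel_left₀ hLpos.ne' _
  · refine (hSY p hp0).trans (le_of_eq ?_)
    rw [hcpp, inv_mul_cancel_left₀ hLpos.ne']
  · have hLC : (L : ℂ) ≠ 0 := by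
      exact_mod_cast hLpos.ne'
    have hfun : (fun j => Tp (V + -(C (cq : ℂ) * (X ^ n₀ * X0 L P ψ)))
        (fun n => (C (cp : ℂ) * (X ^ n₀ * Y0 L P φ)).coeff n) j +
        Tp ψ (fun n => φ.coeff n) j) =
        fun j => Tp V (fun n => (C (cp : ℂ) * (X ^ n₀ * Y0 L P φ)).coeff n) j +
          (-(L : ℂ)⁻¹) * (Tp (X0 L P ψ) (fun n => (Y0 L P φ).coeff n) j -
            (L : ℂ) * Tp ψ (fun n => φ.coeff n) j) := by
      funext j
      rw [Tp_add_left, Pi.add_apply, Tp_neg_left, Pi.neg_apply, Tp_C_mul, Pi.smul_apply,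
        Tp_X_pow_mul]
      have h1 : Tp (X0 L P ψ) (fun n => (C (cp : ℂ) * (X ^ n₀ * Y0 L P φ)).coeff n) (j + n₀) =
          (cp : ℂ) * Tp (X0 L P ψ) (fun n => (Y0 L P φ).coeff n) j := by
        unfold Tp
        rw [Finset.mul_sum]
        refine Finset.sum_congr rfl fun k _ => ?_
        show _ * (C (cp : ℂ) * (X ^ n₀ * Y0 L P φ)).coeff (j + n₀ + k) = _
        rw [Polynomial.coeff_C_mul, Polynomial.coeff_X_pow_mul', if_pos (by omega),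
          show j + n₀ + k - n₀ = j + k by omega]
        ring
      have h2 : (cq : ℂ) * (cp : ℂ) = (L : ℂ)⁻¹ := by
        rw [← Complex.ofReal_mul, hcpq]
        push_cast
        rfl
      rw [h1, smul_eq_mul, show ∀ z : ℂ, (cq : ℂ) * ((cp : ℂ) * z) = (L : ℂ)⁻¹ * z from
        fun z => by rw [← mul_assoc, h2]]
      have h5 : (L : ℂ)⁻¹ * (L : ℂ) = 1 := inv_mul_cancel₀ hLC
      linear_combination (-Tp ψ (fun n => φ.coeff n) j) * h5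
    rw [hfun]
    have hsq : (√δ / 2) ^ (2 : ℝ) = δ / 4 := by
      rw [Real.rpow_two, div_pow, Real.sq_sqrt hδ.le]
      norm_num
    have hA : Sle 2 (fun j => Tp V (fun n => (C (cp : ℂ) * (X ^ n₀ * Y0 L P φ)).coeff n) j)
        ((√δ / 2) ^ (2 : ℝ)) := by
      have h1 : Sle 2 (fun n => (C (cp : ℂ) * (X ^ n₀ * Y0 L P φ)).coeff n)
          (cp ^ (2 : ℝ) * (L * Sn 2 φ)) :=
        (Sle_coeff_iff (by norm_num) _).2 (hSY 2 (by norm_num))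
      refine (B3 (by norm_num : (1 : ℝ) ≤ 2) V h1).mono ?_
      rw [hsq, Real.rpow_two, ← mul_assoc (cp ^ (2 : ℝ)), hcp2]
      refine le_trans (le_of_eq ?_) hL1.le
      ring
    have hB : Sle 2 (fun j => (-(L : ℂ)⁻¹) * (Tp (X0 L P ψ) (fun n => (Y0 L P φ).coeff n) j -
        (L : ℂ) * Tp ψ (fun n => φ.coeff n) j)) ((√δ / 2) ^ (2 : ℝ)) := by
      refine (B6_smul (B5 L P hL3 hP ψ φ hψ hφ) (-(L : ℂ)⁻¹)).mono ?_
      have h1 : ‖(-(L : ℂ)⁻¹)‖ ^ (2 : ℝ) = ((L : ℝ) ^ 2)⁻¹ := by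
        rw [norm_neg, norm_inv, Complex.norm_natCast, Real.rpow_two, inv_pow]
      rw [h1, hsq]
      have h2 := hL₀ L hL2
      have h3 : 2 * (∑ k ∈ Ico 1 L, ‖Cc L k‖ ^ 2) * N1 ψ ^ 2 * Sn 2 φ =
          2 * N * (∑ k ∈ Ico 1 L, ‖Cc L k‖ ^ 2) := by
        rw [hN]
        ring
      rw [h3]
      calc ((L : ℝ) ^ 2)⁻¹ * (2 * N * ∑ k ∈ Ico 1 L, ‖Cc L k‖ ^ 2)
          ≤ ((L : ℝ) ^ 2)⁻¹ * (2 * N * (δ / (8 * (N + 1)) * (L : ℝ) ^ 2)) := by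
            refine mul_le_mul_of_nonneg_left ?_ (by positivity)
            exact mul_le_mul_of_nonneg_left h2 (by positivity)
        _ = δ / 4 * (N / (N + 1)) := by
            have h4 : (N + 1) ≠ 0 := by positivity
            field_simp
            ring
        _ ≤ δ / 4 * 1 := by
            refine mul_le_mul_of_nonneg_left ?_ (by positivity)
            rw [div_le_one (by positivity)]
            linarith
        _ = δ / 4 := mul_one _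
    have hAB := Sle.add (by norm_num : (1 : ℝ) ≤ 2) (by positivity) (by positivity) hA hB
    rwa [add_halves, Real.rpow_two, Real.sq_sqrt hδ.le] at hAB

end DC8965.BT
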