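import Pool.Agent.Lib.MP_dc8965_an.BT.Basic

/-! the quadratic phases (chirp) and the two trains of translates -/

open Finset Polynomial

namespace DC8965.BT

/-- `ε_l = exp(i π l² / L)` -/
noncomputable def ep (L l : ℕ) : ℂ := Complex.exp (((Real.pi * (l : ℝ) ^ 2 / L : ℝ) : ℂ) * Complex.I)

/-- the aperiodic autocorrelation of `ε` -/
noncomputable def Cc (L k : ℕ) : ℂ :=
  ∑ l ∈ range (L - k), (starRingEnd ℂ) (ep L l) * ep L (l + k)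

/-- `∑_l conj(ε_l) z^{lP} ψ` -/
noncomputable def X0 (L P : ℕ) (ψ : ℂ[X]) : ℂ[X] :=
  ∑ l ∈ range L, C ((starRingEnd ℂ) (ep L l)) * (X ^ (l * P) * ψ)

/-- `∑_l ε_l z^{lP} φ` -/
noncomputable def Y0 (L P : ℕ) (φ : ℂ[X]) : ℂ[X] :=
  ∑ l ∈ range L, C (ep L l) * (X ^ (l * P) * φ)

/-- the `ℓ^1` norm of the coefficients -/
noncomputable def N1 (V : ℂ[X]) : ℝ := ∑ k ∈ V.support, ‖V.coeff k‖

lemma N1_nonneg (V : ℂ[X]) : 0 ≤ N1 V := Finset.sum_nonneg fun _ _ => norm_nonneg _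

lemma norm_ep (L l : ℕ) : ‖ep L l‖ = 1 := Complex.norm_exp_ofReal_mul_I _

end DC8965.BT
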