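import Pool.Agent.Lib.MP_dc8965_an.BT.B6

open Finset Polynomial

namespace DC8965.BT

/-- (C1) One step of the construction.

Proof. Let `n₀` be larger than the degrees of `V`, `c`, all `g i`, all `a i`. Take `X, Y` from (B6) for
`V, ψ, φ, n₀, δ`, and `V' = V + X`, `g' = Function.update g i₀ (g i₀ + Y)`. `Tp X (g i) = 0` by
`Tp_eq_zero_of_disjoint`. `V' - c = (V - c) + X` and `g' i₀ - a i₀ = (g i₀ - a i₀) + Y`: use
`Sn_add_le_of_disjoint`. Finally `Tp V' (g i₀ + Y) = Tp V (g i₀) + Tp (V+X) Y`. -/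
theorem C1 {p q : ℝ} (hpq : p.HolderConjugate q) (hp2 : p < 2) {k : ℕ} (c V : ℂ[X])
    (a g : Fin k → ℂ[X]) (i₀ : Fin k) (ψ φ : ℂ[X]) {δ : ℝ} (hδ : 0 < δ) :
    ∃ (V' : ℂ[X]) (g' : Fin k → ℂ[X]), Sn q (V' - c) ≤ Sn q (V - c) + Sn q ψ ∧
      (∀ i, i ≠ i₀ → g' i = g i) ∧ Sn p (g' i₀ - a i₀) ≤ Sn p (g i₀ - a i₀) + Sn p φ ∧
      (∀ i, i ≠ i₀ → Tp V' (fun n => (g' i).coeff n) = Tp V (fun n => (g i).coeff n)) ∧
      Sle 2 (fun j => Tp V' (fun n => (g' i₀).coeff n) j - Tp V (fun n => (g i₀).coeff n) j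
        + Tp ψ (fun n => φ.coeff n) j) δ := by
  classical
  have hp0 : 0 < p := hpq.pos
  have hq0 : 0 < q := hpq.symm.pos
  obtain ⟨n₀, hn₀⟩ : ∃ n₀ : ℕ, V.natDegree < n₀ ∧ c.natDegree < n₀ ∧
      (∀ i, (g i).natDegree < n₀) ∧ (∀ i, (a i).natDegree < n₀) := by
    refine ⟨1 + V.natDegree + c.natDegree + ∑ i, (g i).natDegree + ∑ i, (a i).natDegree,
      by omega, by omega, fun i => ?_, fun i => ?_⟩
    · have := Finset.single_le_sum (f := fun i => (g i).natDegree) (fun _ _ => Nat.zero_le _)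
        (Finset.mem_univ i)
      omega
    · have := Finset.single_le_sum (f := fun i => (a i).natDegree) (fun _ _ => Nat.zero_le _)
        (Finset.mem_univ i)
      omega
  obtain ⟨hV, hc, hg, ha⟩ := hn₀
  obtain ⟨X', Y, hX, hY, hSX, hSY, hE⟩ := B6 hpq hp2 V ψ φ n₀ hδ
  have zero : ∀ {P : ℂ[X]}, P.natDegree < n₀ → ∀ k, n₀ ≤ k → P.coeff k = 0 :=
    fun hP k hk => Polynomial.coeff_eq_zero_of_natDegree_lt (hP.trans_le hk)
  have hTX : ∀ i, Tp X' (fun n => (g i).coeff n) = 0 := fun i =>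
    Tp_eq_zero_of_disjoint hX (zero (hg i))
  refine ⟨V + X', Function.update g i₀ (g i₀ + Y), ?_, ?_, ?_, ?_, ?_⟩
  · have h1 : V + X' - c = (V - c) + X' := by ring
    rw [h1]
    refine (Sn_add_le_of_disjoint hq0 (m := n₀) ?_ hX).trans ?_
    · intro k hk
      rw [Polynomial.coeff_sub, zero hV k hk, zero hc k hk, sub_zero]
    · linarith
  · intro i hi
    exact Function.update_of_ne hi _ _
  · rw [Function.update_self]
    have h1 : g i₀ + Y - a i₀ = (g i₀ - a i₀) + Y := by ring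
    rw [h1]
    refine (Sn_add_le_of_disjoint hp0 (m := n₀) ?_ hY).trans ?_
    · intro k hk
      rw [Polynomial.coeff_sub, zero (hg i₀) k hk, zero (ha i₀) k hk, sub_zero]
    · linarith
  · intro i hi
    rw [Function.update_of_ne hi, Tp_add_left, hTX i, add_zero]
  · rw [Function.update_self]
    have h1 : (fun n => (g i₀ + Y).coeff n) = (fun n => (g i₀).coeff n) + fun n => Y.coeff n := by
      ext n
      simp
    have h2 : ∀ j, Tp (V + X') (fun n => (g i₀ + Y).coeff n) j - Tp V (fun n => (g i₀).coeff n) j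
        + Tp ψ (fun n => φ.coeff n) j =
        Tp (V + X') (fun n => Y.coeff n) j + Tp ψ (fun n => φ.coeff n) j := by
      intro j
      rw [h1, Tp_add_right, Pi.add_apply]
      have h3 : Tp (V + X') (fun n => (g i₀).coeff n) = Tp V (fun n => (g i₀).coeff n) := by
        rw [Tp_add_left, hTX i₀, add_zero]
      rw [h3]
      ring
    simp only [h2]
    exact hE

end DC8965.BT
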