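import Pool.Agent.Lib.MP_dc8965_an.BT.C1

open Finset Polynomial

namespace DC8965.BT

/-- (C2) All blocks, one after another.

Proof. Induction on `R` (for all `δ`). `R = 0`: `V = c`, `g = a`. Step: the induction hypothesis for the first
`R` terms (`Fin.castSucc`) with `δ/4`, then (C1) with `δ/4`, `i₀ = ι (Fin.last R)`. For `i = i₀` the
error is the sum of the two errors (`Sle.add` with `r = 2`, `A = B = √δ/2`, `δ/4 = (√δ/2)^2`), for
`i ≠ i₀` nothing changes. The filter sums split by `Fin.sum_univ_castSucc`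
(write `∑ α with ι α = i, F α = ∑ α, if ι α = i then F α else 0`, `Finset.sum_filter`). -/
theorem C2 {p q : ℝ} (hpq : p.HolderConjugate q) (hp2 : p < 2) {k : ℕ} (c : ℂ[X])
    (a : Fin k → ℂ[X]) (R : ℕ) (ι : Fin R → Fin k) (ψ φ : Fin R → ℂ[X]) {δ : ℝ} (hδ : 0 < δ) :
    ∃ (V : ℂ[X]) (g : Fin k → ℂ[X]), Sn q (V - c) ≤ ∑ α, Sn q (ψ α) ∧
      (∀ i, Sn p (g i - a i) ≤ ∑ α, Sn p (φ α)) ∧
      ∀ i, Sle 2 (fun j => Tp V (fun n => (g i).coeff n) j - Tp c (fun n => (a i).coeff n) j
        + ∑ α, if ι α = i then Tp (ψ α) (fun n => (φ α).coeff n) j else 0) δ := by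
  induction R generalizing δ with
  | zero =>
    refine ⟨c, a, ?_, fun i => ?_, fun i => ?_⟩
    · rw [sub_self, Sn_zero]
      simp
    · rw [sub_self, Sn_zero]
      simp
    · have h1 : (fun j => Tp c (fun n => (a i).coeff n) j - Tp c (fun n => (a i).coeff n) j
          + ∑ α : Fin 0, if ι α = i then Tp (ψ α) (fun n => (φ α).coeff n) j else 0)
          = (0 : ℕ → ℂ) := by
        funext j
        simp
      rw [h1]
      exact Sle_zero (by norm_num) hδ.le
  | succ R ih =>
    obtain ⟨V, g, hV, hg, hS⟩ := ih (fun α => ι α.castSucc) (fun α => ψ α.castSucc)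
      (fun α => φ α.castSucc) (δ := δ / 4) (by positivity)
    obtain ⟨V', g', h1, h2, h3, h4, h5⟩ := C1 hpq hp2 c V a g (ι (Fin.last R)) (ψ (Fin.last R))
      (φ (Fin.last R)) (δ := δ / 4) (by positivity)
    refine ⟨V', g', ?_, fun i => ?_, fun i => ?_⟩
    · rw [Fin.sum_univ_castSucc]
      linarith
    · rw [Fin.sum_univ_castSucc]
      by_cases hi : i = ι (Fin.last R)
      · rw [hi]
        have := hg (ι (Fin.last R))
        linarith
      · rw [h2 i hi]
        have := hg i
        have h6 := Sn_nonneg p (φ (Fin.last R))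
        linarith
    · by_cases hi : i = ι (Fin.last R)
      · have h6 := hS i
        have h7 : Sle 2 (fun j => Tp V' (fun n => (g' i).coeff n) j -
            Tp V (fun n => (g i).coeff n) j
            + Tp (ψ (Fin.last R)) (fun n => (φ (Fin.last R)).coeff n) j) (δ / 4) := by
          rw [hi]
          exact h5
        have hsq : (√δ / 2) ^ (2 : ℝ) = δ / 4 := by
          rw [Real.rpow_two, div_pow, Real.sq_sqrt hδ.le]
          norm_num
        have hsq2 : (√δ / 2 + √δ / 2) ^ (2 : ℝ) = δ := by
          rw [Real.rpow_two, add_halves, Real.sq_sqrt hδ.le]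
        have h8 := Sle.add (r := 2) (by norm_num) (A := √δ / 2) (B := √δ / 2) (by positivity)
          (by positivity) (by rw [hsq]; exact h6) (by rw [hsq]; exact h7)
        rw [hsq2] at h8
        convert h8 using 1
        funext j
        rw [Fin.sum_univ_castSucc, if_pos hi.symm]
        ring
      · have h6 := (hS i).mono (show δ / 4 ≤ δ by linarith)
        rw [h4 i hi]
        convert h6 using 1
        funext j
        rw [Fin.sum_univ_castSucc, if_neg (fun h => hi h.symm), add_zero]

end DC8965.BT
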