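import Pool.Agent.Lib.MP_dc8965_an.BT.DDefs

open Finset Polynomial

namespace DC8965.BT

private lemma D1_om_add (J : ℕ) (a b : ℤ) : om J (a + b) = om J a * om J b := by
  unfold om
  rw [← Complex.exp_add]
  congr 1
  push_cast
  ring

private lemma D1_om_zero (J : ℕ) : om J 0 = 1 := by
  unfold om
  simp

private lemma D1_om_neg (J : ℕ) (a : ℤ) : (starRingEnd ℂ) (om J a) = om J (-a) := by
  unfold om
  rw [← Complex.exp_conj, map_mul, Complex.conj_I, Complex.conj_ofReal]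
  congr 1
  push_cast
  ring

private lemma D1_om_pow (J : ℕ) (a : ℤ) (n : ℕ) : om J a ^ n = om J ((n : ℤ) * a) := by
  induction n with
  | zero => rw [pow_zero, Nat.cast_zero, zero_mul, D1_om_zero]
  | succ n ih =>
    rw [pow_succ, ih, ← D1_om_add]
    congr 1
    push_cast
    ring

private lemma D1_om_eq_one {J : ℕ} (hJ : 0 < J) (a : ℤ) : om J a = 1 ↔ (J : ℤ) ∣ a := by
  unfold om
  rw [Complex.exp_eq_one_iff]
  have hJ' : (J : ℝ) ≠ 0 := Nat.cast_ne_zero.mpr hJ.ne'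
  constructor
  · rintro ⟨n, hn⟩
    refine ⟨n, ?_⟩
    have h1 : ((2 * Real.pi * (a : ℝ) / J : ℝ) : ℂ) * Complex.I
        = ((n * (2 * Real.pi) : ℝ) : ℂ) * Complex.I := by
      rw [hn]
      push_cast
      ring
    have h2 := Complex.ofReal_injective (mul_right_cancel₀ Complex.I_ne_zero h1)
    have h3 : (a : ℝ) = J * n := by
      field_simp at h2
      linarith
    exact_mod_cast h3
  · rintro ⟨n, hn⟩
    refine ⟨n, ?_⟩
    have h3 : (a : ℝ) = J * n := by
      rw [hn]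
      push_cast
      ring
    rw [h3]
    have h5 : 2 * Real.pi * ((J : ℝ) * n) / J = n * (2 * Real.pi) := by
      field_simp
    rw [h5]
    push_cast
    ring

private lemma D1_geom {J : ℕ} (hJ : 0 < J) (a : ℤ) :
    ∑ j ∈ range J, om J ((j : ℤ) * a) = if (J : ℤ) ∣ a then (J : ℂ) else 0 := by
  simp only [← D1_om_pow]
  split_ifs with h
  · rw [(D1_om_eq_one hJ a).mpr h]
    simp
  · have h1 : om J a ≠ 1 := fun hh => h ((D1_om_eq_one hJ a).mp hh)
    have h2 : om J a ^ J = 1 := by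
      rw [D1_om_pow]
      exact (D1_om_eq_one hJ _).mpr (dvd_mul_right _ _)
    rw [geom_sum_eq h1, h2, sub_self, zero_div]

/-- (D1) Parseval at the `J`-th roots of unity.

Proof. `Q(z ω^j) = ∑_{k<J} Q_k z^k ω^{jk}`. Expand `‖·‖² = (·) conj(·)` into a double sum over `k, l < J`; as
`∑_{j<J} ω^{j(k-l)} = 0` for `k ≠ l` (`0 < |k-l| < J`, geometric sum, `IsPrimitiveRoot.geom_sum_eq_zero`
or `ω^{(k-l)J} = 1`, `ω^{k-l} ≠ 1`) only the diagonal remains, `|z^k| = 1`. -/
theorem D1 {J : ℕ} (hJ : 0 < J) (Q : ℂ[X]) (hQ : Q.natDegree < J) {z : ℂ} (hz : ‖z‖ = 1) :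
    ∑ j ∈ range J, ‖Q.eval (z * om J (j : ℤ))‖ ^ 2 = J * ∑ k ∈ range J, ‖Q.coeff k‖ ^ 2 := by
  have hz1 : ∀ k : ℕ, z ^ k * (starRingEnd ℂ) (z ^ k) = 1 := by
    intro k
    rw [Complex.mul_conj, Complex.normSq_eq_norm_sq, norm_pow, hz, one_pow, one_pow,
      Complex.ofReal_one]
  have hev : ∀ j : ℕ, Q.eval (z * om J (j : ℤ))
      = ∑ k ∈ range J, Q.coeff k * z ^ k * om J ((j : ℤ) * k) := by
    intro j
    rw [Polynomial.eval_eq_sum_range' hQ]
    refine Finset.sum_congr rfl fun k _ => ?_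
    rw [mul_pow, D1_om_pow, mul_comm (k : ℤ) (j : ℤ)]
    ring
  have hsq : ∀ x : ℂ, ((‖x‖ ^ 2 : ℝ) : ℂ) = x * (starRingEnd ℂ) x := by
    intro x
    rw [Complex.mul_conj, Complex.normSq_eq_norm_sq]
  apply Complex.ofReal_injective
  rw [Complex.ofReal_sum, Complex.ofReal_mul, Complex.ofReal_sum, Complex.ofReal_natCast]
  simp only [hsq]
  calc ∑ j ∈ range J, Q.eval (z * om J (j : ℤ)) * (starRingEnd ℂ) (Q.eval (z * om J (j : ℤ)))
      = ∑ j ∈ range J, ∑ k ∈ range J, ∑ l ∈ range J,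
          (Q.coeff k * z ^ k * (starRingEnd ℂ) (Q.coeff l * z ^ l))
            * om J ((j : ℤ) * ((k : ℤ) - l)) := by
        refine Finset.sum_congr rfl fun j _ => ?_
        rw [hev, map_sum, Finset.sum_mul_sum]
        refine Finset.sum_congr rfl fun k _ => Finset.sum_congr rfl fun l _ => ?_
        rw [map_mul (starRingEnd ℂ) (Q.coeff l * z ^ l), D1_om_neg]
        have h1 : (j : ℤ) * ((k : ℤ) - l) = (j : ℤ) * k + -((j : ℤ) * l) := by ring
        rw [h1, D1_om_add]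
        ring
    _ = ∑ k ∈ range J, ∑ l ∈ range J, (Q.coeff k * z ^ k * (starRingEnd ℂ) (Q.coeff l * z ^ l))
            * ∑ j ∈ range J, om J ((j : ℤ) * ((k : ℤ) - l)) := by
        rw [Finset.sum_comm]
        refine Finset.sum_congr rfl fun k _ => ?_
        rw [Finset.sum_comm]
        refine Finset.sum_congr rfl fun l _ => ?_
        rw [Finset.mul_sum]
    _ = ∑ k ∈ range J, ∑ l ∈ range J, if k = l then
            (Q.coeff k * z ^ k * (starRingEnd ℂ) (Q.coeff k * z ^ k)) * (J : ℂ) else 0 := by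
        refine Finset.sum_congr rfl fun k hk => Finset.sum_congr rfl fun l hl => ?_
        have hk' := Finset.mem_range.mp hk
        have hl' := Finset.mem_range.mp hl
        rw [D1_geom hJ]
        by_cases hkl : k = l
        · subst hkl
          rw [if_pos (by rw [sub_self]; exact dvd_zero _), if_pos rfl]
        · rw [if_neg, if_neg hkl, mul_zero]
          intro hd
          have h2 : ((k : ℤ) - l) = 0 := by
            refine Int.eq_zero_of_abs_lt_dvd hd ?_
            rw [abs_lt]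
            omega
          omega
    _ = ∑ k ∈ range J, (Q.coeff k * z ^ k * (starRingEnd ℂ) (Q.coeff k * z ^ k)) * (J : ℂ) := by
        refine Finset.sum_congr rfl fun k hk => ?_
        rw [Finset.sum_ite_eq, if_pos hk]
    _ = (J : ℂ) * ∑ k ∈ range J, Q.coeff k * (starRingEnd ℂ) (Q.coeff k) := by
        rw [Finset.mul_sum]
        refine Finset.sum_congr rfl fun k _ => ?_
        rw [map_mul]
        calc Q.coeff k * z ^ k * ((starRingEnd ℂ) (Q.coeff k) * (starRingEnd ℂ) (z ^ k)) * (J : ℂ)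
            = (J : ℂ) * (Q.coeff k * (starRingEnd ℂ) (Q.coeff k))
                * (z ^ k * (starRingEnd ℂ) (z ^ k)) := by ring
          _ = (J : ℂ) * (Q.coeff k * (starRingEnd ℂ) (Q.coeff k)) := by rw [hz1, mul_one]

private lemma D1_shift (P : ℕ) (G : ℤ → ℝ) (hG : ∀ b : ℤ, G (b + P) = G b) (n : ℕ) :
    ∑ i ∈ range P, G ((i : ℤ) + n) = ∑ i ∈ range P, G (i : ℤ) := by
  induction n with
  | zero => simp
  | succ n ih =>
    rw [← ih]
    have h1 := Finset.sum_range_succ (fun i : ℕ => G ((i : ℤ) + n)) P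
    have h2 := Finset.sum_range_succ' (fun i : ℕ => G ((i : ℤ) + n)) P
    have h3 : G ((P : ℤ) + n) = G (((0 : ℕ) : ℤ) + n) := by
      rw [Nat.cast_zero, zero_add, add_comm (P : ℤ) (n : ℤ), hG]
    have h4 : ∑ i ∈ range P, G ((i : ℤ) + ((n + 1 : ℕ) : ℤ))
        = ∑ i ∈ range P, G (((i + 1 : ℕ) : ℤ) + n) := by
      refine Finset.sum_congr rfl fun i _ => ?_
      congr 1
      push_cast
      ring
    rw [h4]
    linarith

/-- (D1b) the nodes `ω^{-a}`, `-ω^{-a}`, `a = i - K`, `i < 2K`, are all the `4K`-th roots of unity.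

Proof. `-om (4K) b = om (4K) (b + 2K)` and `om (4K) (b + 4K) = om (4K) b`. With `b = K - i`: the numbers
`K - i` (mod `4K`) for `i ≤ K` are `0..K`, for `K < i < 2K` they are `5K - i ∈ (3K, 4K)`; the numbers
`3K - i`, `i < 2K`, are `K+1..3K`. Reorder the finite sum. -/
theorem D1b {K : ℕ} (hK : 0 < K) (F : ℂ → ℝ) (z : ℂ) :
    ∑ i ∈ range (2 * K), (F (z * om (4 * K) (-((i : ℤ) - (K : ℕ))))
        + F (-(z * om (4 * K) (-((i : ℤ) - (K : ℕ))))))
      = ∑ j ∈ range (4 * K), F (z * om (4 * K) (j : ℤ)) := by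
  have hK4 : 0 < 4 * K := by omega
  have hper : ∀ b : ℤ, om (4 * K) (b + ((4 * K : ℕ) : ℤ)) = om (4 * K) b := by
    intro b
    rw [D1_om_add, (D1_om_eq_one hK4 _).mpr (dvd_refl _), mul_one]
  have hhalf : om (4 * K) (2 * (K : ℤ)) = -1 := by
    have hKr : (K : ℝ) ≠ 0 := Nat.cast_ne_zero.mpr hK.ne'
    have h1 : (2 * Real.pi * ((2 * (K : ℤ) : ℤ) : ℝ) / ((4 * K : ℕ) : ℝ) : ℝ) = Real.pi := by
      push_cast
      field_simp
      ring
    unfold om
    rw [h1, Complex.exp_pi_mul_I]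
  have hneg : ∀ b : ℤ, -(z * om (4 * K) b) = z * om (4 * K) (b + 2 * (K : ℤ)) := by
    intro b
    rw [D1_om_add, hhalf]
    ring
  have hG : ∀ b : ℤ, F (z * om (4 * K) (b + ((4 * K : ℕ) : ℤ))) = F (z * om (4 * K) b) := by
    intro b
    rw [hper]
  have h3 := D1_shift (4 * K) (fun b => F (z * om (4 * K) b)) hG (3 * K + 1)
  beta_reduce at h3
  rw [← h3]
  have h4 : 4 * K = 2 * K + 2 * K := by omega
  have h5 : ∑ j ∈ range (4 * K), F (z * om (4 * K) ((j : ℤ) + ((3 * K + 1 : ℕ) : ℤ)))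
      = ∑ j ∈ range (2 * K), F (z * om (4 * K) ((j : ℤ) + ((3 * K + 1 : ℕ) : ℤ)))
        + ∑ j ∈ range (2 * K), F (z * om (4 * K) (((2 * K + j : ℕ) : ℤ)
            + ((3 * K + 1 : ℕ) : ℤ))) := by
    have h6 := Finset.sum_range_add
      (fun j : ℕ => F (z * om (4 * K) ((j : ℤ) + ((3 * K + 1 : ℕ) : ℤ)))) (2 * K) (2 * K)
    rw [← h4] at h6
    exact h6
  rw [h5, Finset.sum_add_distrib]
  congr 1
  · rw [← Finset.sum_range_reflect]
    refine Finset.sum_congr rfl fun i hi => ?_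
    have hi' := Finset.mem_range.mp hi
    rw [← hG]
    congr 3
    push_cast [Nat.cast_sub (show i ≤ 2 * K - 1 by omega), Nat.cast_sub (show 1 ≤ 2 * K by omega)]
    ring
  · rw [← Finset.sum_range_reflect]
    refine Finset.sum_congr rfl fun i hi => ?_
    have hi' := Finset.mem_range.mp hi
    rw [hneg, ← hG]
    congr 3
    push_cast [Nat.cast_sub (show i ≤ 2 * K - 1 by omega), Nat.cast_sub (show 1 ≤ 2 * K by omega)]
    ring

end DC8965.BT
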