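import Pool.Agent.Lib.MP_dc8965_an.BT.DDefs

open Finset Polynomial

namespace DC8965.BT

theorem D2_eval (M : ℕ) (w : ℂ) : (DM M).eval w = ∑ m ∈ range M, w ^ m := by
  rw [DM, eval_finsetSum]
  exact sum_congr rfl fun m _ => by rw [eval_pow, eval_X]

theorem D2_coeff (M k : ℕ) : (DM M).coeff k = if k < M then 1 else 0 := by
  rw [DM, finsetSum_coeff]
  simp only [coeff_X_pow]
  rw [Finset.sum_ite_eq]
  simp only [mem_range]

private theorem D2_natDegree (M : ℕ) : (DM M).natDegree ≤ M - 1 := by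
  rw [DM]
  apply natDegree_sum_le_of_forall_le
  intro m hm
  rw [mem_range] at hm
  refine (natDegree_X_pow_le m).trans ?_
  omega

private theorem D2_step (M : ℕ) (Q : ℂ[X]) (c : ℝ) (hc : ∀ k, ‖Q.coeff k‖ ≤ c) (k : ℕ) :
    ‖(DM M * Q).coeff k‖ ≤ M * c := by
  have hc0 : 0 ≤ c := (norm_nonneg _).trans (hc 0)
  rw [DM, sum_mul, finsetSum_coeff]
  calc ‖∑ m ∈ range M, (X ^ m * Q).coeff k‖ ≤ ∑ m ∈ range M, ‖(X ^ m * Q).coeff k‖ :=
        norm_sum_le _ _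
    _ ≤ ∑ _m ∈ range M, c := by
        refine sum_le_sum fun m _ => ?_
        rw [coeff_X_pow_mul']
        split_ifs
        · exact hc _
        · rw [norm_zero]
          exact hc0
    _ = M * c := by rw [sum_const, card_range, nsmul_eq_mul]

/-- (D2a) `DM(w) (w - 1) = w^M - 1` (`geom_sum_mul` / `Polynomial.eval_geom_sum`). -/
theorem D2a (M : ℕ) {w : ℂ} (hw : ‖w‖ = 1) : ‖(DM M).eval w‖ * ‖w - 1‖ ≤ 2 := by
  rw [← norm_mul, D2_eval, geom_sum_mul]
  calc ‖w ^ M - 1‖ ≤ ‖w ^ M‖ + ‖(1 : ℂ)‖ := norm_sub_le _ _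
    _ = 2 := by
      rw [norm_pow, hw, one_pow, norm_one]
      norm_num

/-- (D2b) trivial bounds of `DM` and its derivative on the circle. -/
theorem D2b (M : ℕ) {w : ℂ} (hw : ‖w‖ = 1) :
    ‖(DM M).eval w‖ ≤ M ∧ ‖(DM M).derivative.eval w‖ ≤ (M : ℝ) ^ 2 := by
  constructor
  · rw [D2_eval]
    calc ‖∑ m ∈ range M, w ^ m‖ ≤ ∑ m ∈ range M, ‖w ^ m‖ := norm_sum_le _ _
      _ = M := by
        simp only [norm_pow, hw, one_pow, sum_const, card_range, nsmul_eq_mul, mul_one]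
  · rw [DM, derivative_sum, eval_finsetSum]
    calc ‖∑ m ∈ range M, (derivative (X ^ m)).eval w‖
        ≤ ∑ m ∈ range M, ‖(derivative (X ^ m : ℂ[X])).eval w‖ := norm_sum_le _ _
      _ ≤ ∑ _m ∈ range M, (M : ℝ) := by
        refine sum_le_sum fun m hm => ?_
        rw [mem_range] at hm
        rw [derivative_X_pow, eval_mul, eval_C, eval_pow, eval_X, norm_mul, norm_pow, hw, one_pow,
          mul_one]
        have h1 : ‖((m : ℂ))‖ = (m : ℝ) := Complex.norm_natCast m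
        rw [h1]
        exact_mod_cast hm.le
      _ = (M : ℝ) ^ 2 := by rw [sum_const, card_range, nsmul_eq_mul, sq]

private theorem inner_mul_le_norm_mul_norm_aux (s : Finset ℕ) (f : ℕ → ℝ) :
    (∑ k ∈ s, f k) ^ 2 ≤ (s.card : ℝ) * ∑ k ∈ s, f k ^ 2 :=
  sq_sum_le_card_mul_sum_sq

/-- (D2c) Proof. `DM²` has the nonnegative coefficients `d_k` with sum `DM(1)² = M²`, at most `2M` of
them nonzero (degree `≤ 2(M-1)`); Cauchy-Schwarz: `M⁴ ≤ 2M ∑ d_k²`. -/
theorem D2c {M : ℕ} (hM : 0 < M) : (M : ℝ) ^ 3 / 2 ≤ kap M := by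
  have hdeg : ((DM M) ^ 2).natDegree < 2 * M := by
    have h1 := natDegree_pow_le (p := DM M) (n := 2)
    have h2 := D2_natDegree M
    omega
  have h1 : ((DM M) ^ 2).eval 1 = ∑ k ∈ range (2 * M), ((DM M) ^ 2).coeff k := by
    rw [eval_eq_sum_range' hdeg]
    exact sum_congr rfl fun k _ => by rw [one_pow, mul_one]
  have h2 : ((DM M) ^ 2).eval 1 = (M : ℂ) ^ 2 := by
    rw [eval_pow, D2_eval]
    simp only [one_pow, sum_const, card_range, nsmul_eq_mul, mul_one]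
  have h3 : (M : ℝ) ^ 2 ≤ ∑ k ∈ range (2 * M), ‖((DM M) ^ 2).coeff k‖ := by
    have h4 : ‖((DM M) ^ 2).eval 1‖ = (M : ℝ) ^ 2 := by
      rw [h2, norm_pow, Complex.norm_natCast]
    rw [← h4, h1]
    exact norm_sum_le _ _
  have h5 := inner_mul_le_norm_mul_norm_aux (range (2 * M)) (fun k => ‖((DM M) ^ 2).coeff k‖)
  rw [card_range] at h5
  have hM' : (0 : ℝ) < M := by exact_mod_cast hM
  have h6 : ((M : ℝ) ^ 2) ^ 2 ≤ ((2 * M : ℕ) : ℝ) * kap M := by
    refine le_trans ?_ h5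
    exact pow_le_pow_left₀ (by positivity) h3 2
  push_cast at h6
  have h7 : (M : ℝ) * ((M : ℝ) ^ 3 / 2) ≤ (M : ℝ) * kap M := by nlinarith
  exact le_of_mul_le_mul_left h7 hM'

/-- (D2d) Proof. The coefficients of `DM⁴ = DM * DM³` are nonnegative, `DM³` has nonnegative coefficients of
sum `M³`, and each coefficient of `DM * Q` is a sum of some coefficients of `Q`. -/
theorem D2d (M k : ℕ) : ‖((DM M) ^ 4).coeff k‖ ≤ (M : ℝ) ^ 3 := by
  have h1 : ∀ k, ‖(DM M).coeff k‖ ≤ 1 := by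
    intro k
    rw [D2_coeff]
    split_ifs
    · rw [norm_one]
    · rw [norm_zero]
      exact zero_le_one
  have h2 := D2_step M (DM M) 1 h1
  have h3 := D2_step M _ _ h2
  have h4 := D2_step M _ _ h3 k
  have h5 : DM M * (DM M * (DM M * DM M)) = DM M ^ 4 := by ring
  rw [h5] at h4
  refine h4.trans (le_of_eq ?_)
  ring

/-- (D2d') degree -/
theorem D2d' (M : ℕ) : (DM M).natDegree ≤ M - 1 := by
  exact D2_natDegree M

/-- (D2e) Proof. `conj(DM(w)) w^{M-1} = DM(w)` for `‖w‖ = 1` (`conj w = w⁻¹`, reverse the sum), so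
`‖DM(w)‖² w^{M-1} = DM(w)²`; square it. -/
theorem D2e {M : ℕ} (hM : 0 < M) {w : ℂ} (hw : ‖w‖ = 1) :
    ((‖(DM M).eval w‖ ^ 4 : ℝ) : ℂ) * w ^ (2 * (M - 1)) = (DM M).eval w ^ 4 := by
  have hw0 : w ≠ 0 := by
    intro h
    rw [h, norm_zero] at hw
    exact zero_ne_one hw
  have hconj : (starRingEnd ℂ) w = w⁻¹ := by
    rw [Complex.inv_def, Complex.normSq_eq_norm_sq, hw]
    simp
  have h1 : (starRingEnd ℂ) ((DM M).eval w) * w ^ (M - 1) = (DM M).eval w := by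
    rw [D2_eval, map_sum, sum_mul, ← sum_range_reflect (fun m => w ^ m)]
    refine sum_congr rfl fun m hm => ?_
    rw [mem_range] at hm
    rw [map_pow, hconj, inv_pow]
    have h2 : w ^ (M - 1) = w ^ m * w ^ (M - 1 - m) := by
      rw [← pow_add]
      congr 1
      omega
    rw [h2, ← mul_assoc, inv_mul_cancel₀ (pow_ne_zero m hw0), one_mul]
  have h3 : ((‖(DM M).eval w‖ ^ 2 : ℝ) : ℂ) * w ^ (M - 1) = (DM M).eval w ^ 2 := by
    have h4 := Complex.mul_conj' ((DM M).eval w)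
    have h5 : ((‖(DM M).eval w‖ ^ 2 : ℝ) : ℂ) = (DM M).eval w * (starRingEnd ℂ) ((DM M).eval w) := by
      rw [h4]
      push_cast
      ring
    rw [h5, mul_assoc, h1, sq]
  have h6 : ((‖(DM M).eval w‖ ^ 4 : ℝ) : ℂ) = ((‖(DM M).eval w‖ ^ 2 : ℝ) : ℂ) ^ 2 := by
    push_cast
    ring
  have h7 : w ^ (2 * (M - 1)) = (w ^ (M - 1)) ^ 2 := by
    rw [← pow_mul, mul_comm]
  rw [h6, h7, ← mul_pow, h3, ← pow_mul]

end DC8965.BT
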