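import Pool.Agent.Lib.MP_dc8965_an.BT.DDefs

open Finset Polynomial

namespace DC8965.BT

private theorem D3_lip (α β : ℝ) :
    ‖Complex.exp ((α : ℂ) * Complex.I) - Complex.exp ((β : ℂ) * Complex.I)‖ ≤ |α - β| := by
  have h1 : Complex.exp ((α : ℂ) * Complex.I) - Complex.exp ((β : ℂ) * Complex.I) =
      Complex.exp ((β : ℂ) * Complex.I) * (Complex.exp (Complex.I * ((α - β : ℝ) : ℂ)) - 1) := by
    rw [mul_sub, ← Complex.exp_add, mul_one]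
    congr 2
    push_cast
    ring
  rw [h1, norm_mul, Complex.norm_exp_ofReal_mul_I, one_mul]
  have h2 := Real.norm_exp_I_mul_ofReal_sub_one_le (x := α - β)
  rwa [Real.norm_eq_abs] at h2

private theorem D3_low {x : ℝ} (hx : |x| ≤ Real.pi) :
    4 / Real.pi ^ 2 * x ^ 2 ≤ ‖Complex.exp ((x : ℂ) * Complex.I) - 1‖ ^ 2 := by
  have hpi := Real.pi_pos
  have h1 : ‖Complex.exp ((x : ℂ) * Complex.I) - 1‖ = ‖2 * Real.sin (x / 2)‖ := by
    rw [mul_comm]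
    exact Complex.norm_exp_I_mul_ofReal_sub_one x
  have h2 : |x / 2| ≤ Real.pi / 2 := by
    rw [abs_div, abs_of_pos (two_pos : (0 : ℝ) < 2)]
    linarith
  have h3 := Real.mul_abs_le_abs_sin h2
  rw [h1, Real.norm_eq_abs, abs_mul, abs_of_pos (two_pos : (0 : ℝ) < 2)]
  have h4 : 2 / Real.pi * |x| ≤ 2 * |Real.sin (x / 2)| := by
    rw [abs_div, abs_of_pos (two_pos : (0 : ℝ) < 2)] at h3
    have h5 : 2 / Real.pi * (|x| / 2) = (2 / Real.pi * |x|) / 2 := by ring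
    linarith
  calc 4 / Real.pi ^ 2 * x ^ 2 = (2 / Real.pi * |x|) ^ 2 := by
        rw [mul_pow, sq_abs, div_pow]
        ring
    _ ≤ (2 * |Real.sin (x / 2)|) ^ 2 := pow_le_pow_left₀ (by positivity) h4 2

private theorem D3_Ua {R s : ℕ} (t : ℝ) (a : ℤ) :
    Ua R s a (Complex.exp ((t : ℂ) * Complex.I)) =
      Complex.exp (((4 * s * a * t - Real.pi * a ^ 2 / R : ℝ) : ℂ) * Complex.I) := by
  rw [Ua, cc, ← Complex.exp_int_mul, ← Complex.exp_add]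
  congr 1
  push_cast
  ring

private theorem D3_Da {R s : ℕ} (t : ℝ) (a : ℤ) :
    Da R s a (Complex.exp ((t : ℂ) * Complex.I)) =
      Complex.exp (((-(4 * s * a * t - Real.pi * a ^ 2 / R) : ℝ) : ℂ) * Complex.I) := by
  rw [Da, cc, ← Complex.exp_conj, ← Complex.exp_int_mul, ← Complex.exp_add]
  congr 1
  rw [map_mul, Complex.conj_ofReal, Complex.conj_I]
  push_cast
  ring

private theorem D3_om {R s : ℕ} (hR : 0 < R) (hs : 0 < s) (t : ℝ) (a : ℤ) :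
    Complex.exp ((t : ℂ) * Complex.I) * om (4 * (R * s)) (-a) =
      Complex.exp (((t - Real.pi * a / (2 * R * s) : ℝ) : ℂ) * Complex.I) := by
  have hR' : (R : ℂ) ≠ 0 := by exact_mod_cast hR.ne'
  have hs' : (s : ℂ) ≠ 0 := by exact_mod_cast hs.ne'
  rw [om, ← Complex.exp_add]
  congr 1
  push_cast
  field_simp
  ring

private theorem D3_tau {R s : ℕ} (hR : 0 < R) (hs : 0 < s) {a : ℤ} (ha : |a| ≤ (R * s : ℕ)) :
    |Real.pi * a / (2 * R * s)| ≤ Real.pi / 2 := by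
  have hpi := Real.pi_pos
  have hR' : (0 : ℝ) < R := by exact_mod_cast hR
  have hs' : (0 : ℝ) < s := by exact_mod_cast hs
  have h1 : |(a : ℝ)| ≤ R * s := by
    have : ((|a| : ℤ) : ℝ) ≤ ((R * s : ℕ) : ℤ) := by exact_mod_cast ha
    push_cast at this
    exact this
  rw [abs_div, abs_mul, abs_of_pos hpi, abs_of_pos (by positivity : (0 : ℝ) < 2 * R * s),
    div_le_div_iff₀ (by positivity) two_pos]
  nlinarith

/-- (D3a) Proof. Put `λ = 8 R s² / π`, `τ = 2π a / (4 R s) = π a / (2 R s)`, so `|τ| ≤ π/2` and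
`λ τ = 4 s a`, `λ τ² / 2 = π a² / R`. Hence `Ua R s a z = exp(i(-λτ²/2 + λτt)) =
exp(iλt²/2) exp(-iλ(t-τ)²/2)`, so the left side is `|exp(-iλ(t-τ)²/2) - 1| ≤ λ(t-τ)²/2`
(`Real.norm_exp_I_mul_ofReal_sub_one_le` or `Complex.norm_exp_I_mul_ofReal_sub_one`,
`|e^{ix}-1| ≤ |x|`). And `z ω^{-a} = exp(i(t-τ))`, `‖exp(ix) - 1‖ = 2|sin(x/2)| ≥ (2/π)|x|` for `|x| ≤ π`
(`Real.mul_abs_le_abs_sin`), `x = t - τ`: `λx²/2 ≤ (λ/2)(π²/4)‖·‖² = π R s² ‖·‖²`. -/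
theorem D3a {R s : ℕ} (hR : 0 < R) (hs : 0 < s) {t : ℝ} (ht : |t| ≤ Real.pi / 2) (a : ℤ)
    (ha : |a| ≤ (R * s : ℕ)) :
    ‖Ua R s a (Complex.exp ((t : ℂ) * Complex.I))
        - Complex.exp (((4 * R * s ^ 2 * t ^ 2 / Real.pi : ℝ) : ℂ) * Complex.I)‖
      ≤ 3 * Real.pi * R * s ^ 2 *
        ‖Complex.exp ((t : ℂ) * Complex.I) * om (4 * (R * s)) (-a) - 1‖ ^ 2 := by
  have hpi := Real.pi_pos
  have hR' : (0 : ℝ) < R := by exact_mod_cast hR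
  have hs' : (0 : ℝ) < s := by exact_mod_cast hs
  have htau := D3_tau hR hs ha
  rw [D3_Ua, D3_om hR hs]
  obtain ⟨τ, hτ⟩ : ∃ τ : ℝ, τ = Real.pi * a / (2 * R * s) := ⟨_, rfl⟩
  rw [← hτ] at htau ⊢
  refine (D3_lip _ _).trans ?_
  have h1 : 4 * s * a * t - Real.pi * a ^ 2 / R - 4 * R * s ^ 2 * t ^ 2 / Real.pi =
      -(4 * R * s ^ 2 / Real.pi * (t - τ) ^ 2) := by
    rw [hτ]
    field_simp
    ring
  rw [h1, abs_neg, abs_of_nonneg (by positivity)]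
  have h2 : |t - τ| ≤ Real.pi := (abs_sub _ _).trans (by linarith)
  have h3 := D3_low h2
  calc 4 * R * s ^ 2 / Real.pi * (t - τ) ^ 2
      ≤ 3 * Real.pi * R * s ^ 2 * (4 / Real.pi ^ 2 * (t - τ) ^ 2) := by
        have h4 : 3 * Real.pi * R * s ^ 2 * (4 / Real.pi ^ 2 * (t - τ) ^ 2) =
            3 * (4 * R * s ^ 2 / Real.pi * (t - τ) ^ 2) := by
          field_simp
        rw [h4]
        have h5 : 0 ≤ 4 * R * s ^ 2 / Real.pi * (t - τ) ^ 2 := by positivity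
        linarith
    _ ≤ _ := mul_le_mul_of_nonneg_left h3 (by positivity)

/-- (D3b) Proof. Notation of (D3a), `E = exp(iλt²/2)`. Let `σ = 1` if `τ ≤ t` and `σ = -1` if `t < τ`, and
`x = t - τ - σπ`; then `|x| ≤ π` and `|t - σπ/2| ≤ |x|` (`σ = 1`: `x ≤ t - π/2 ≤ 0` since `τ ≥ -π/2`; similarly
for `σ = -1`). Now `Da R s a z = exp(i(λτ²/2 - λτt))` and
`λτ²/2 - λτt = -λ(t-σπ)²/2 + λx²/2 - σ λ π τ` with `λ π τ = 4π s a ∈ 2πℤ` (expand the squares), so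
`Da = exp(-iλ(t-σπ)²/2) exp(iλx²/2)`. Also `(λ/2)(t² + (t-σπ)²) = λπ²/4 + λ(t-σπ/2)²` and
`λπ²/4 = 2π R s² ∈ 2πℤ`, so `|exp(-iλ(t-σπ)²/2) - E| = |exp(iλ(t-σπ/2)²) - 1| ≤ λ(t-σπ/2)² ≤ λx²`.
Together `|Da - E| ≤ λx²/2 + λx² = (3/2)λx²`. Finally `z ω^{-a} + 1 = exp(i(t-τ)) + 1 = 1 - exp(ix)`, of norm
`2|sin(x/2)| ≥ (2/π)|x|`, so `(3/2)λx² ≤ (3/2)λ(π²/4)‖·‖² = 3πRs²‖·‖²`. -/
theorem D3b {R s : ℕ} (hR : 0 < R) (hs : 0 < s) {t : ℝ} (ht : |t| ≤ Real.pi / 2) (a : ℤ)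
    (ha : |a| ≤ (R * s : ℕ)) :
    ‖Da R s a (Complex.exp ((t : ℂ) * Complex.I))
        - Complex.exp (((4 * R * s ^ 2 * t ^ 2 / Real.pi : ℝ) : ℂ) * Complex.I)‖
      ≤ 3 * Real.pi * R * s ^ 2 *
        ‖Complex.exp ((t : ℂ) * Complex.I) * om (4 * (R * s)) (-a) + 1‖ ^ 2 := by
  have hpi := Real.pi_pos
  have hR' : (0 : ℝ) < R := by exact_mod_cast hR
  have hs' : (0 : ℝ) < s := by exact_mod_cast hs
  have htau := abs_le.1 (D3_tau hR hs ha)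
  have ht' := abs_le.1 ht
  rw [D3_Da, D3_om hR hs]
  obtain ⟨τ, hτ⟩ : ∃ τ : ℝ, τ = Real.pi * a / (2 * R * s) := ⟨_, rfl⟩
  rw [← hτ] at htau ⊢
  obtain ⟨μ, hμ⟩ : ∃ μ : ℝ, μ = 4 * R * s ^ 2 / Real.pi := ⟨_, rfl⟩
  have hμ0 : 0 < μ := by
    rw [hμ]
    positivity
  -- the sign
  obtain ⟨σ, hσ, hx1, hx2⟩ : ∃ σ : ℤ, (σ = 1 ∨ σ = -1) ∧ |t - τ - σ * Real.pi| ≤ Real.pi ∧
      |t - σ * Real.pi / 2| ≤ |t - τ - σ * Real.pi| := by
    rcases le_or_gt τ t with h | h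
    · refine ⟨1, Or.inl rfl, ?_, ?_⟩
      · rw [abs_le]
        push_cast
        constructor <;> linarith
      · push_cast
        rw [abs_of_nonpos (by linarith : t - 1 * Real.pi / 2 ≤ 0),
          abs_of_nonpos (by linarith : t - τ - 1 * Real.pi ≤ 0)]
        linarith
    · refine ⟨-1, Or.inr rfl, ?_, ?_⟩
      · rw [abs_le]
        push_cast
        constructor <;> linarith
      · push_cast
        rw [abs_of_nonneg (by linarith : 0 ≤ t - -1 * Real.pi / 2),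
          abs_of_nonneg (by linarith : 0 ≤ t - τ - -1 * Real.pi)]
        linarith
  have hσ2 : (σ : ℝ) ^ 2 = 1 := by
    rcases hσ with rfl | rfl <;> norm_num
  obtain ⟨x, hx⟩ : ∃ x : ℝ, x = t - τ - σ * Real.pi := ⟨_, rfl⟩
  rw [← hx] at hx1 hx2
  -- the phase modulo `2π`
  obtain ⟨n, hn⟩ : ∃ n : ℤ, n = -((R : ℤ) * s ^ 2 + 2 * σ * s * a) := ⟨_, rfl⟩
  have h1 : -(4 * s * a * t - Real.pi * a ^ 2 / R) =
      4 * R * s ^ 2 * t ^ 2 / Real.pi + (μ * x ^ 2 - 2 * μ * (t - σ * Real.pi / 2) ^ 2) +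
        n * (2 * Real.pi) := by
    rw [hn, hx, hμ, hτ]
    push_cast
    field_simp
    ring_nf
    rw [hσ2]
    ring
  have h2 : Complex.exp (((-(4 * s * a * t - Real.pi * a ^ 2 / R) : ℝ) : ℂ) * Complex.I) =
      Complex.exp (((4 * R * s ^ 2 * t ^ 2 / Real.pi +
        (μ * x ^ 2 - 2 * μ * (t - σ * Real.pi / 2) ^ 2) : ℝ) : ℂ) * Complex.I) := by
    rw [h1]
    have h3 : ((4 * R * s ^ 2 * t ^ 2 / Real.pi +
        (μ * x ^ 2 - 2 * μ * (t - σ * Real.pi / 2) ^ 2) + n * (2 * Real.pi) : ℝ) : ℂ) * Complex.I =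
        ((4 * R * s ^ 2 * t ^ 2 / Real.pi +
        (μ * x ^ 2 - 2 * μ * (t - σ * Real.pi / 2) ^ 2) : ℝ) : ℂ) * Complex.I +
          n * (2 * Real.pi * Complex.I) := by
      push_cast
      ring
    rw [h3, Complex.exp_add, Complex.exp_int_mul_two_pi_mul_I, mul_one]
  rw [h2]
  refine (D3_lip _ _).trans ?_
  rw [add_sub_cancel_left]
  have h4 : |μ * x ^ 2 - 2 * μ * (t - σ * Real.pi / 2) ^ 2| ≤ 3 * (μ * x ^ 2) := by
    have h5 : (t - σ * Real.pi / 2) ^ 2 ≤ x ^ 2 := sq_le_sq.2 hx2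
    have h6 : 0 ≤ (t - σ * Real.pi / 2) ^ 2 := sq_nonneg _
    have h7 : 0 ≤ x ^ 2 := sq_nonneg _
    rw [abs_le]
    constructor <;> nlinarith
  refine h4.trans ?_
  have h8 : Complex.exp (((t - τ : ℝ) : ℂ) * Complex.I) =
      -Complex.exp ((x : ℂ) * Complex.I) := by
    have h9 : Complex.exp (((σ * Real.pi : ℝ) : ℂ) * Complex.I) = -1 := by
      rcases hσ with rfl | rfl
      · push_cast
        rw [one_mul, Complex.exp_pi_mul_I]
      · push_cast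
        rw [neg_one_mul, neg_mul, Complex.exp_neg, Complex.exp_pi_mul_I]
        norm_num
    have h10 : ((t - τ : ℝ) : ℂ) * Complex.I =
        (x : ℂ) * Complex.I + ((σ * Real.pi : ℝ) : ℂ) * Complex.I := by
      rw [hx]
      push_cast
      ring
    rw [h10, Complex.exp_add, h9, mul_neg_one]
  have h11 : ‖Complex.exp (((t - τ : ℝ) : ℂ) * Complex.I) + 1‖ =
      ‖Complex.exp ((x : ℂ) * Complex.I) - 1‖ := by
    rw [h8, ← norm_neg]
    congr 1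
    ring
  rw [h11]
  have h12 := D3_low hx1
  calc 3 * (μ * x ^ 2) = 3 * Real.pi * R * s ^ 2 * (4 / Real.pi ^ 2 * x ^ 2) := by
        rw [hμ]
        field_simp
    _ ≤ _ := mul_le_mul_of_nonneg_left h12 (by positivity)

end DC8965.BT
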