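import Pool.Agent.Lib.MP_dc8965_an.BT.D1
import Pool.Agent.Lib.MP_dc8965_an.BT.D2

open Finset Polynomial

namespace DC8965.BT

/-- (D4a) the weights: partition of unity.

Proof. (D1b) with `F w = ‖DM(w)‖⁴` (note `M = 2K`, `J = 4K = 2M`), then (D1) with `Q = (DM M)^2`, of degree
`≤ 2(M-1) < J` (`D2d'`), `‖Q(w)‖² = ‖DM(w)‖⁴`, and `kap M` is the sum of the squares of its coefficients. -/
theorem D4a {K : ℕ} (hK : 0 < K) {z : ℂ} (hz : ‖z‖ = 1) :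
    ∑ i ∈ range (2 * K), (‖(DM (2 * K)).eval (z * om (4 * K) (-((i : ℤ) - (K : ℕ))))‖ ^ 4
        + ‖(DM (2 * K)).eval (-(z * om (4 * K) (-((i : ℤ) - (K : ℕ)))))‖ ^ 4)
      = (4 * K : ℕ) * kap (2 * K) := by
  rw [D1b hK (fun w => ‖(DM (2 * K)).eval w‖ ^ 4) z]
  have hdeg : ((DM (2 * K)) ^ 2).natDegree < 4 * K := by
    have h1 := natDegree_pow_le (p := DM (2 * K)) (n := 2)
    have h2 := D2d' (2 * K)
    omega
  have h3 := D1 (by omega : 0 < 4 * K) ((DM (2 * K)) ^ 2) hdeg hz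
  have h4 : kap (2 * K) = ∑ k ∈ range (4 * K), ‖((DM (2 * K)) ^ 2).coeff k‖ ^ 2 := by
    rw [kap]
    congr 2
    omega
  rw [h4, ← h3]
  refine sum_congr rfl fun j _ => ?_
  rw [eval_pow, norm_pow, ← pow_mul]

/-- (D4b) the second moment of the weights.

Proof. `‖DM(w)‖⁴ ‖w-1‖² ≤ 4 ‖DM(w)‖²` by (D2a); note `‖-w' - 1‖ = ‖w' + 1‖` for `w' = z ω^{-a}`. (D1b) with
`F w = ‖DM(w)‖²` and (D1) with `Q = DM M`: `∑ ‖DM‖² = J ∑ ‖coeff‖² = J M`, `M = 2K`. -/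
theorem D4b {K : ℕ} (hK : 0 < K) {z : ℂ} (hz : ‖z‖ = 1) :
    ∑ i ∈ range (2 * K), (‖(DM (2 * K)).eval (z * om (4 * K) (-((i : ℤ) - (K : ℕ))))‖ ^ 4
          * ‖z * om (4 * K) (-((i : ℤ) - (K : ℕ))) - 1‖ ^ 2
        + ‖(DM (2 * K)).eval (-(z * om (4 * K) (-((i : ℤ) - (K : ℕ)))))‖ ^ 4
          * ‖z * om (4 * K) (-((i : ℤ) - (K : ℕ))) + 1‖ ^ 2)
      ≤ 4 * (4 * K) * (2 * K) := by
  have h1 : ∀ w : ℂ, ‖w‖ = 1 → ‖(DM (2 * K)).eval w‖ ^ 4 * ‖w - 1‖ ^ 2 ≤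
      4 * ‖(DM (2 * K)).eval w‖ ^ 2 := by
    intro w hw
    have h2 := D2a (2 * K) hw
    have h3 : 0 ≤ ‖(DM (2 * K)).eval w‖ * ‖w - 1‖ := by positivity
    have h4 : (‖(DM (2 * K)).eval w‖ * ‖w - 1‖) ^ 2 ≤ 2 ^ 2 := pow_le_pow_left₀ h3 h2 2
    calc ‖(DM (2 * K)).eval w‖ ^ 4 * ‖w - 1‖ ^ 2 =
          (‖(DM (2 * K)).eval w‖ * ‖w - 1‖) ^ 2 * ‖(DM (2 * K)).eval w‖ ^ 2 := by ring
      _ ≤ 2 ^ 2 * ‖(DM (2 * K)).eval w‖ ^ 2 := mul_le_mul_of_nonneg_right h4 (by positivity)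
      _ = 4 * ‖(DM (2 * K)).eval w‖ ^ 2 := by norm_num
  have hom : ∀ b : ℤ, ‖z * om (4 * K) b‖ = 1 := by
    intro b
    rw [norm_mul, hz, one_mul, om, Complex.norm_exp_ofReal_mul_I]
  have h5 := D1b hK (fun w => 4 * ‖(DM (2 * K)).eval w‖ ^ 2) z
  have hdeg : (DM (2 * K)).natDegree < 4 * K := by
    have h2 := D2d' (2 * K)
    omega
  have h6 := D1 (by omega : 0 < 4 * K) (DM (2 * K)) hdeg hz
  have h7 : ∑ k ∈ range (4 * K), ‖(DM (2 * K)).coeff k‖ ^ 2 = 2 * K := by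
    simp only [D2_coeff]
    have h8 : ∀ k ∈ range (4 * K), ‖(if k < 2 * K then (1 : ℂ) else 0)‖ ^ 2 =
        if k < 2 * K then (1 : ℝ) else 0 := by
      intro k _
      split_ifs <;> simp
    rw [sum_congr rfl h8, ← sum_filter, sum_const, nsmul_eq_mul, mul_one]
    have h9 : (range (4 * K)).filter (fun k => k < 2 * K) = range (2 * K) := by
      ext k
      simp only [mem_filter, mem_range]
      omega
    rw [h9, card_range]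
    push_cast
    ring
  calc _ ≤ ∑ i ∈ range (2 * K),
        (4 * ‖(DM (2 * K)).eval (z * om (4 * K) (-((i : ℤ) - (K : ℕ))))‖ ^ 2
          + 4 * ‖(DM (2 * K)).eval (-(z * om (4 * K) (-((i : ℤ) - (K : ℕ)))))‖ ^ 2) := by
        refine sum_le_sum fun i _ => add_le_add (h1 _ (hom _)) ?_
        have h10 := h1 (-(z * om (4 * K) (-((i : ℤ) - (K : ℕ))))) (by rw [norm_neg]; exact hom _)
        have h11 : ‖-(z * om (4 * K) (-((i : ℤ) - (K : ℕ)))) - 1‖ =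
            ‖z * om (4 * K) (-((i : ℤ) - (K : ℕ))) + 1‖ := by
          rw [← norm_neg]
          congr 1
          ring
        rwa [h11] at h10
    _ = ∑ j ∈ range (4 * K), 4 * ‖(DM (2 * K)).eval (z * om (4 * K) (j : ℤ))‖ ^ 2 := h5
    _ = 4 * (4 * K) * (2 * K) := by
        rw [← mul_sum, h6, h7]
        push_cast
        ring
    _ ≤ 4 * (4 * K) * (2 * K) := le_rfl

end DC8965.BT
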