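import Pool.Agent.Lib.MP_dc8965_an.BT.D3
import Pool.Agent.Lib.MP_dc8965_an.BT.D4

open Finset Polynomial

namespace DC8965.BT

private theorem D5_avg (n : ℕ) (A B : ℕ → ℝ) (U D : ℕ → ℂ) (E : ℂ) (α β : ℕ → ℝ) {c T S : ℝ}
    (hA : ∀ i, 0 ≤ A i) (hB : ∀ i, 0 ≤ B i) (hc : 0 ≤ c) (hT : 0 < T)
    (h1 : ∑ i ∈ range n, (A i + B i) = T) (h2 : ∑ i ∈ range n, (A i * α i + B i * β i) ≤ S)
    (hU : ∀ i ∈ range n, ‖U i - E‖ ≤ c * α i) (hD : ∀ i ∈ range n, ‖D i - E‖ ≤ c * β i) :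
    ‖(1 / (T : ℂ)) * ∑ i ∈ range n, ((A i : ℂ) * U i + (B i : ℂ) * D i) - E‖ ≤ c * S / T := by
  have hT' : (T : ℂ) ≠ 0 := by exact_mod_cast hT.ne'
  have h3 : (1 / (T : ℂ)) * ∑ i ∈ range n, ((A i : ℂ) * U i + (B i : ℂ) * D i) - E =
      (1 / (T : ℂ)) * ∑ i ∈ range n, ((A i : ℂ) * (U i - E) + (B i : ℂ) * (D i - E)) := by
    have h4 : ∑ i ∈ range n, ((A i : ℂ) * (U i - E) + (B i : ℂ) * (D i - E)) =
        ∑ i ∈ range n, ((A i : ℂ) * U i + (B i : ℂ) * D i) - (T : ℂ) * E := by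
      rw [← h1]
      push_cast
      rw [Finset.sum_mul, ← Finset.sum_sub_distrib]
      exact Finset.sum_congr rfl fun i _ => by ring
    rw [h4, mul_sub, ← mul_assoc (1 / (T : ℂ)) (T : ℂ) E, one_div, inv_mul_cancel₀ hT', one_mul]
  rw [h3, norm_mul, norm_div, norm_one, Complex.norm_real, Real.norm_eq_abs, abs_of_pos hT]
  have h5 : ‖∑ i ∈ range n, ((A i : ℂ) * (U i - E) + (B i : ℂ) * (D i - E))‖ ≤ c * S := by
    calc ‖∑ i ∈ range n, ((A i : ℂ) * (U i - E) + (B i : ℂ) * (D i - E))‖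
        ≤ ∑ i ∈ range n, (A i * (c * α i) + B i * (c * β i)) := by
          refine norm_sum_le_of_le _ fun i hi => ?_
          refine (norm_add_le _ _).trans (add_le_add ?_ ?_)
          · rw [norm_mul, Complex.norm_real, Real.norm_eq_abs, abs_of_nonneg (hA i)]
            exact mul_le_mul_of_nonneg_left (hU i hi) (hA i)
          · rw [norm_mul, Complex.norm_real, Real.norm_eq_abs, abs_of_nonneg (hB i)]
            exact mul_le_mul_of_nonneg_left (hD i hi) (hB i)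
      _ = c * ∑ i ∈ range n, (A i * α i + B i * β i) := by
          rw [Finset.mul_sum]
          exact Finset.sum_congr rfl fun i _ => by ring
      _ ≤ c * S := mul_le_mul_of_nonneg_left h2 hc
  rw [one_div, inv_mul_eq_div]
  exact div_le_div_of_nonneg_right h5 hT.le

private theorem D5_conj {R s : ℕ} {w : ℂ} (hw : ‖w‖ = 1) (a : ℤ) :
    Ua R s a (-w) = (starRingEnd ℂ) (Da R s a w) ∧
      Da R s a (-w) = (starRingEnd ℂ) (Ua R s a w) := by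
  have hc : (starRingEnd ℂ) w = w⁻¹ := by
    rw [Complex.inv_def, Complex.normSq_eq_norm_sq, hw]
    simp
  have he : Even (((4 * s : ℕ) : ℤ) * a) := by
    rw [Int.even_mul]
    left
    exact ⟨((2 * s : ℕ) : ℤ), by push_cast; ring⟩
  constructor
  · unfold Ua Da
    rw [he.neg_zpow, map_mul, map_zpow₀, hc, Complex.conj_conj, inv_zpow, zpow_neg, inv_inv]
  · unfold Ua Da
    rw [he.neg.neg_zpow, map_mul, map_zpow₀, hc, inv_zpow, zpow_neg]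

private theorem D5_neg {R s : ℕ} {w : ℂ} (hw : ‖w‖ = 1) :
    Wf R s (-w) = (starRingEnd ℂ) (Wf R s w) := by
  unfold Wf
  rw [map_mul, map_sum, map_div₀, map_one, Complex.conj_ofReal]
  congr 1
  refine Finset.sum_congr rfl fun i _ => ?_
  rw [map_add, map_mul, map_mul, Complex.conj_ofReal, Complex.conj_ofReal,
    (D5_conj hw _).1, (D5_conj hw _).2, neg_mul, neg_neg, add_comm]

private theorem D5_main {s : ℕ} (hs : 0 < s) {t : ℝ} (ht : |t| ≤ Real.pi / 2) :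
    1 / 2 ≤ ‖Wf 40 s (Complex.exp ((t : ℂ) * Complex.I))‖ ∧
      ‖Wf 40 s (Complex.exp ((t : ℂ) * Complex.I))‖ ≤ 3 / 2 := by
  obtain ⟨z, hz⟩ : ∃ z, Complex.exp ((t : ℂ) * Complex.I) = z := ⟨_, rfl⟩
  have hz1 : ‖z‖ = 1 := by rw [← hz]; exact Complex.norm_exp_ofReal_mul_I t
  obtain ⟨E, hE⟩ : ∃ E, Complex.exp (((4 * (40 : ℕ) * s ^ 2 * t ^ 2 / Real.pi : ℝ) : ℂ) *
    Complex.I) = E := ⟨_, rfl⟩
  have hE1 : ‖E‖ = 1 := by rw [← hE]; exact Complex.norm_exp_ofReal_mul_I _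
  obtain ⟨K, hK⟩ : ∃ K, 40 * s = K := ⟨_, rfl⟩
  have hK0 : 0 < K := by omega
  have hKr : (0 : ℝ) < K := by exact_mod_cast hK0
  have hKs : (K : ℝ) = 40 * s := by rw [← hK]; push_cast; ring
  have hκ : ((2 * K : ℕ) : ℝ) ^ 3 / 2 ≤ kap (2 * K) := D2c (by omega)
  have hκ' : 4 * (K : ℝ) ^ 3 ≤ kap (2 * K) := by
    have h1 : ((2 * K : ℕ) : ℝ) ^ 3 / 2 = 4 * (K : ℝ) ^ 3 := by push_cast; ring
    linarith
  have hT : 0 < ((4 * K : ℕ) : ℝ) * kap (2 * K) := by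
    have h1 : (0 : ℝ) < 4 * (K : ℝ) ^ 3 := by positivity
    have h2 : (0 : ℝ) < ((4 * K : ℕ) : ℝ) := by exact_mod_cast (by omega : 0 < 4 * K)
    exact mul_pos h2 (by linarith)
  have hTK : 16 * (K : ℝ) ^ 4 ≤ ((4 * K : ℕ) : ℝ) * kap (2 * K) := by
    push_cast
    calc 16 * (K : ℝ) ^ 4 = 4 * K * (4 * (K : ℝ) ^ 3) := by ring
      _ ≤ 4 * K * kap (2 * K) := mul_le_mul_of_nonneg_left hκ' (by positivity)
  have ha : ∀ i ∈ range (2 * K), |((i : ℤ) - (K : ℕ))| ≤ (40 * s : ℕ) := by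
    intro i hi
    rw [Finset.mem_range] at hi
    rw [hK, abs_le]
    omega
  have key := D5_avg (2 * K)
    (fun i => ‖(DM (2 * K)).eval (z * om (4 * K) (-((i : ℤ) - (K : ℕ))))‖ ^ 4)
    (fun i => ‖(DM (2 * K)).eval (-(z * om (4 * K) (-((i : ℤ) - (K : ℕ)))))‖ ^ 4)
    (fun i => Ua 40 s ((i : ℤ) - (K : ℕ)) z) (fun i => Da 40 s ((i : ℤ) - (K : ℕ)) z) E
    (fun i => ‖z * om (4 * K) (-((i : ℤ) - (K : ℕ))) - 1‖ ^ 2)
    (fun i => ‖z * om (4 * K) (-((i : ℤ) - (K : ℕ))) + 1‖ ^ 2)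
    (c := 3 * Real.pi * (40 : ℕ) * s ^ 2)
    (fun i => by positivity) (fun i => by positivity) (by positivity) hT (D4a hK0 hz1)
    (D4b hK0 hz1)
    (fun i hi => by
      have h1 := D3a (R := 40) (s := s) (by norm_num) hs ht ((i : ℤ) - (K : ℕ)) (ha i hi)
      rw [hz, hE, hK] at h1
      exact h1)
    (fun i hi => by
      have h1 := D3b (R := 40) (s := s) (by norm_num) hs ht ((i : ℤ) - (K : ℕ)) (ha i hi)
      rw [hz, hE, hK] at h1
      exact h1)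
  have hW : Wf 40 s z = (1 / ((((4 * K : ℕ) : ℝ) * kap (2 * K) : ℝ) : ℂ)) *
      ∑ i ∈ range (2 * K),
      (((‖(DM (2 * K)).eval (z * om (4 * K) (-((i : ℤ) - (K : ℕ))))‖ ^ 4 : ℝ) : ℂ) *
          Ua 40 s ((i : ℤ) - (K : ℕ)) z +
        ((‖(DM (2 * K)).eval (-(z * om (4 * K) (-((i : ℤ) - (K : ℕ)))))‖ ^ 4 : ℝ) : ℂ) *
          Da 40 s ((i : ℤ) - (K : ℕ)) z) := by
    unfold Wf
    rw [hK]
  rw [hz]
  have hb : ‖Wf 40 s z - E‖ ≤ 1 / 2 := by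
    rw [hW]
    refine key.trans ?_
    rw [div_le_iff₀ hT]
    have hpi : Real.pi ≤ 3.15 := Real.pi_lt_d2.le
    have h1 : 3 * Real.pi * (40 : ℕ) * s ^ 2 * (4 * (4 * K) * (2 * K)) ≤ 8 * (K : ℝ) ^ 4 := by
      have hs2 : (s : ℝ) = K / 40 := by rw [hKs]; ring
      have h2 : 3 * Real.pi * ((40 : ℕ) : ℝ) * (s : ℝ) ^ 2 * (4 * (4 * K) * (2 * K)) =
          Real.pi * (2.4 * (K : ℝ) ^ 4) := by
        rw [hs2]
        push_cast
        ring
      rw [h2]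
      have h3 : (0 : ℝ) ≤ 2.4 * (K : ℝ) ^ 4 := by positivity
      have h4 := mul_le_mul_of_nonneg_right hpi h3
      have h5 : (0 : ℝ) ≤ (K : ℝ) ^ 4 := by positivity
      nlinarith
    calc 3 * Real.pi * (40 : ℕ) * s ^ 2 * (4 * (4 * K) * (2 * K)) ≤ 8 * (K : ℝ) ^ 4 := h1
      _ = 1 / 2 * (16 * (K : ℝ) ^ 4) := by ring
      _ ≤ 1 / 2 * (((4 * K : ℕ) : ℝ) * kap (2 * K)) :=
        mul_le_mul_of_nonneg_left hTK (by norm_num)
  constructor
  · have h1 := norm_sub_norm_le E (Wf 40 s z)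
    rw [norm_sub_rev] at h1
    linarith
  · have h1 := norm_sub_norm_le (Wf 40 s z) E
    linarith

/-- (D5) the flat function has modulus between 1/2 and 3/2 on the circle.

Proof. `R = 40`, `K = R s`, `M = 2K`, `J = 4K`, `κ = kap M ≥ M³/2` (D2c). First let `z = exp(it)`,
`|t| ≤ π/2`, `E = exp(i 4Rs²t²/π)`, `‖E‖ = 1`. By (D4a) the weights divided by `Jκ` have sum one, so
`Wf z - E` is the average of `Ua z - E` and `Da z - E`, and by (D3a), (D3b), (D4b)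
`‖Wf z - E‖ ≤ 3πRs² (4 J M)/(J κ) ≤ 12πRs² M · 2/M³ = 24πRs²/(4R²s²) = 6π/R < 1/2` (`π < 3.15`).
General `z`: `z = exp(it)` with `t = arg z`; if `|t| > π/2` put `z' = -z = exp(it')`, `|t'| ≤ π/2`. The
exponents `4sa` are even, so `Ua (-z') = Ua z' = conj (Da z')`, `Da (-z') = Da z' = conj (Ua z')`
(`conj z' = z'⁻¹`), hence `Wf (-z')` is the average, with weights `‖DM(-z'ω)‖⁴` for `conj (Da z')` and
`‖DM(z'ω)‖⁴` for `conj (Ua z')`, and the same estimate gives `‖Wf(-z') - conj E‖ ≤ 6π/R`. -/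
theorem D5 {s : ℕ} (hs : 0 < s) {z : ℂ} (hz : ‖z‖ = 1) :
    1 / 2 ≤ ‖Wf 40 s z‖ ∧ ‖Wf 40 s z‖ ≤ 3 / 2 := by
  by_cases hre : 0 ≤ z.re
  · have h1 := D5_main hs (Complex.abs_arg_le_pi_div_two_iff.2 hre)
    have h2 := Complex.norm_mul_exp_arg_mul_I z
    rw [hz, Complex.ofReal_one, one_mul] at h2
    rwa [h2] at h1
  · have hz' : ‖-z‖ = 1 := by rw [norm_neg, hz]
    have hre' : 0 ≤ (-z).re := by
      rw [Complex.neg_re]
      push Not at hre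
      linarith
    have h1 := D5_main hs (Complex.abs_arg_le_pi_div_two_iff.2 hre')
    have h2 := Complex.norm_mul_exp_arg_mul_I (-z)
    rw [hz', Complex.ofReal_one, one_mul] at h2
    rw [h2] at h1
    have h3 := D5_neg (R := 40) (s := s) hz'
    rw [neg_neg] at h3
    rw [h3, Complex.norm_conj]
    exact h1

end DC8965.BT
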