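import Pool.Agent.Lib.MP_dc8965_an.BT.D2

open Finset Polynomial

namespace DC8965.BT

private lemma d6_om_norm (J : ℕ) (a : ℤ) : ‖om J a‖ = 1 := by
  unfold om
  exact Complex.norm_exp_ofReal_mul_I _

private lemma d6_cc_norm (R : ℕ) (a : ℤ) : ‖cc R a‖ = 1 := by
  unfold cc
  exact Complex.norm_exp_ofReal_mul_I _

private lemma d6_om_pow (J : ℕ) (a : ℤ) (n : ℕ) : om J (-a) ^ n * om J ((n : ℤ) * a) = 1 := by
  unfold om
  rw [← Complex.exp_nat_mul, ← Complex.exp_add]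
  have h : (n : ℂ) * (((2 * Real.pi * ((-a : ℤ) : ℝ) / J : ℝ) : ℂ) * Complex.I) +
      ((2 * Real.pi * (((n : ℤ) * a : ℤ) : ℝ) / J : ℝ) : ℂ) * Complex.I = 0 := by
    push_cast
    ring
  rw [h, Complex.exp_zero]

private lemma d6_term {z u v c N D A : ℂ} {n e : ℕ} (hu : u ^ n * v = 1)
    (hD : N * (z * u) ^ n = D ^ 4) :
    c * v * (z ^ e * A) * D ^ 4 = z ^ (e + n) * (N * (c * A)) := by
  rw [← hD, mul_pow, pow_add]
  linear_combination (c * z ^ e * A * N * z ^ n) * hu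

private lemma d6_coeff (M n k : ℕ) (c u : ℂ) (hc : ‖c‖ = 1) (hu : ‖u‖ = 1) :
    ‖(C c * X ^ n * ((DM M).comp (C u * X)) ^ 4).coeff k‖ ≤
      if n ≤ k ∧ k ≤ n + 4 * (M - 1) then (M : ℝ) ^ 3 else 0 := by
  have hdeg : ((DM M) ^ 4).natDegree ≤ 4 * (M - 1) :=
    natDegree_pow_le.trans (Nat.mul_le_mul_left 4 (D2d' M))
  rw [← pow_comp, mul_assoc, coeff_C_mul, coeff_X_pow_mul']
  rcases le_or_gt n k with h | h
  · rw [if_pos h, comp_C_mul_X_coeff, norm_mul, norm_mul, norm_pow, hc, hu, one_pow, one_mul,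
      mul_one]
    rcases le_or_gt k (n + 4 * (M - 1)) with h' | h'
    · rw [if_pos ⟨h, h'⟩]
      exact D2d M _
    · rw [if_neg (fun hh => absurd hh.2 (not_le.2 h'))]
      rw [coeff_eq_zero_of_natDegree_lt (lt_of_le_of_lt hdeg (by omega)), norm_zero]
  · rw [if_neg (not_le.2 h), if_neg (fun hh => absurd hh.1 (not_le.2 h)), mul_zero, norm_zero]

private lemma d6_count {R s : ℕ} (hs : 0 < s) (k : ℕ) (ν : ℕ → ℕ)
    (hν : Set.InjOn ν (range (2 * (R * s)))) :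
    ((range (2 * (R * s))).filter (fun i => 4 * s * ν i ≤ k ∧
      k ≤ 4 * s * ν i + 4 * (2 * (R * s) - 1))).card ≤ 2 * R + 1 := by
  have h1 : ((range (2 * (R * s))).filter (fun i => 4 * s * ν i ≤ k ∧
      k ≤ 4 * s * ν i + 4 * (2 * (R * s) - 1))).card ≤
      (Finset.Icc (k / (4 * s) - 2 * R) (k / (4 * s))).card := by
    apply Finset.card_le_card_of_injOn ν
    · intro i hi
      rw [Finset.mem_coe, Finset.mem_filter] at hi
      obtain ⟨_, h2, h3⟩ := hi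
      rw [Finset.mem_coe, Finset.mem_Icc]
      have hs4 : 0 < 4 * s := by omega
      refine ⟨?_, ?_⟩
      · have h4 : k ≤ 4 * s * (ν i + 2 * R) := by
          have h5 : 4 * (2 * (R * s) - 1) ≤ 4 * s * (2 * R) := by
            have h6 : 4 * s * (2 * R) = 4 * (2 * (R * s)) := by ring
            omega
          rw [mul_add]
          omega
        have h5 : k / (4 * s) ≤ ν i + 2 * R := by
          have h6 := Nat.div_le_div_right (c := 4 * s) h4
          rwa [Nat.mul_div_cancel_left _ hs4] at h6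
        omega
      · rw [Nat.le_div_iff_mul_le hs4, mul_comm]
        exact h2
    · exact hν.mono (Finset.coe_subset.2 (Finset.filter_subset _ _))
  refine h1.trans ?_
  rw [Nat.card_Icc]
  omega

/-- (D6a) Proof. Evaluate: `(DM M).comp (C u * X)` at `z` is `DM(u z)`. With `w = z om(-a)`, `‖w‖ = 1`, `M = 2Rs`,
(D2e) gives `DM(w)⁴ = ‖DM(w)‖⁴ w^{2(M-1)}` and `w^{2(M-1)} = z^{2(M-1)} om(-2(M-1)a)`, and the same for `-w`
(`(-1)^{2(M-1)} = 1`). The factor `om(2(M-1)a)` cancels, and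
`z^{4si} = z^{4sK} z^{4sa}`, `z^{4s(2K-i)} = z^{4sK} z^{-4sa}` for `a = i - K`, `K = Rs`. (In the definition the
exponent is `om J ((2 * (2 * (R * s) - 1 : ℕ) : ℤ) * a)`, natural subtraction `2Rs - 1 = M - 1`.) -/
theorem D6a {R s : ℕ} (hR : 0 < R) (hs : 0 < s) {z : ℂ} (hz : ‖z‖ = 1) :
    (Wp R s).eval z = z ^ (4 * s * (R * s) + 2 * (2 * (R * s) - 1)) * Wf R s z := by
  have hz0 : z ≠ 0 := by
    rintro rfl
    simp at hz
  have hM : 0 < 2 * (R * s) := by positivity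
  unfold Wp Wf
  rw [eval_mul, eval_C, eval_finsetSum]
  conv_rhs => rw [mul_left_comm, Finset.mul_sum]
  congr 1
  refine Finset.sum_congr rfl fun i hi => ?_
  rw [Finset.mem_range] at hi
  set a : ℤ := (i : ℤ) - (R * s : ℕ) with ha
  set u := om (4 * (R * s)) (-a) with hu
  have hun : ‖u‖ = 1 := d6_om_norm _ _
  have huv : u ^ (2 * (2 * (R * s) - 1)) *
      om (4 * (R * s)) ((2 * (2 * (R * s) - 1 : ℕ) : ℤ) * a) = 1 := by
    have h := d6_om_pow (4 * (R * s)) a (2 * (2 * (R * s) - 1))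
    rw [Nat.cast_mul] at h
    exact h
  have hw : ‖z * u‖ = 1 := by rw [norm_mul, hz, hun, mul_one]
  have hw' : ‖-(z * u)‖ = 1 := by rw [norm_neg, hw]
  have e1 := D2e hM hw
  have e2 := D2e hM hw'
  have hneg : (-(z * u)) ^ (2 * (2 * (R * s) - 1)) = (z * u) ^ (2 * (2 * (R * s) - 1)) := by
    rw [pow_mul, pow_mul, neg_sq]
  rw [hneg] at e2
  have hz1 : z ^ (4 * s * i) = z ^ (4 * s * (R * s)) * z ^ (((4 * s : ℕ) : ℤ) * a) := by
    rw [← zpow_natCast, ← zpow_natCast, ← zpow_add₀ hz0, ha]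
    congr 1
    push_cast
    ring
  have hz2 : z ^ (4 * s * (2 * (R * s) - i)) =
      z ^ (4 * s * (R * s)) * z ^ (-(((4 * s : ℕ) : ℤ) * a)) := by
    rw [← zpow_natCast, ← zpow_natCast, ← zpow_add₀ hz0, ha, Nat.cast_mul (4 * s),
      Nat.cast_sub hi.le]
    congr 1
    push_cast
    ring
  simp only [eval_add, eval_mul, eval_C, eval_pow, eval_X, eval_comp]
  rw [mul_add]
  congr 1
  · rw [hz1, mul_comm u z]
    unfold Ua
    exact d6_term huv e1
  · rw [hz2, neg_mul, mul_comm u z]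
    unfold Da
    exact d6_term huv e2

/-- (D6b) the coefficients of the flat polynomial.

Proof. `((DM M).comp (C u * X))^4 = ((DM M)^4).comp (C u * X)`, whose `m`-th coefficient is
`u^m ((DM M)^4).coeff m`, of norm `≤ M³` for `‖u‖ = 1` (D2d) and `0` for `m > 4(M-1)` (D2d'). So the `k`-th
coefficient of the `i`-th term of the first kind has norm `≤ M³`, and is `0` unless
`4si ≤ k ≤ 4si + 4(M-1)`; at most `4M/(4s) + 1 = 2R + 1` indices `i` satisfy this (`M = 2Rs`), and the same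
number for the second kind (`4s(2K-i)` in place of `4si`). So
`‖coeff k‖ ≤ 2(2R+1) M³ / (J κ) ≤ 2(2R+1) · 2 / (4Rs) = (2R+1)/(Rs) ≤ 3/s` by (D2c). -/
theorem D6b {R s : ℕ} (hR : 0 < R) (hs : 0 < s) (k : ℕ) : ‖(Wp R s).coeff k‖ ≤ 3 / s := by
  have hM : 0 < 2 * (R * s) := by positivity
  have hkap := D2c hM
  set κ := kap (2 * (R * s)) with hκ
  have hR' : (1 : ℝ) ≤ R := by exact_mod_cast hR
  have hs' : (1 : ℝ) ≤ s := by exact_mod_cast hs
  have hM3 : (0 : ℝ) < ((2 * (R * s) : ℕ) : ℝ) ^ 3 := by positivity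
  have hκ0 : 0 < κ := lt_of_lt_of_le (by positivity) hkap
  have hJ : (0 : ℝ) < ((4 * (R * s) : ℕ) : ℝ) := by positivity
  unfold Wp
  rw [coeff_C_mul, norm_mul, finsetSum_coeff]
  have hnorm : ‖(1 / (((4 * (R * s) : ℕ) * κ : ℝ) : ℂ))‖ = 1 / ((4 * (R * s) : ℕ) * κ : ℝ) := by
    rw [norm_div, norm_one, Complex.norm_real, Real.norm_of_nonneg (by positivity)]
  rw [← hκ, hnorm]
  have hsum : ∀ (f : ℕ → ℂ[X]) (ν : ℕ → ℕ), Set.InjOn ν (range (2 * (R * s))) →
      (∀ i ∈ range (2 * (R * s)), ‖(f i).coeff k‖ ≤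
        if 4 * s * ν i ≤ k ∧ k ≤ 4 * s * ν i + 4 * (2 * (R * s) - 1) then
          ((2 * (R * s) : ℕ) : ℝ) ^ 3 else 0) →
      ∑ i ∈ range (2 * (R * s)), ‖(f i).coeff k‖ ≤
        (2 * R + 1) * ((2 * (R * s) : ℕ) : ℝ) ^ 3 := by
    intro f ν hν hf
    refine (Finset.sum_le_sum hf).trans ?_
    rw [← Finset.sum_filter, Finset.sum_const, nsmul_eq_mul]
    apply mul_le_mul_of_nonneg_right _ hM3.le
    exact_mod_cast d6_count hs k ν hν
  have hinj2 : Set.InjOn (fun i => 2 * (R * s) - i) (range (2 * (R * s))) := by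
    intro i hi j hj hij
    rw [Finset.mem_coe, Finset.mem_range] at hi hj
    simp only at hij
    omega
  have hb1 := hsum (fun i => C (cc R ((i : ℤ) - (R * s : ℕ)) *
            om (4 * (R * s)) ((2 * (2 * (R * s) - 1 : ℕ) : ℤ) * ((i : ℤ) - (R * s : ℕ)))) *
          X ^ (4 * s * i) *
          ((DM (2 * (R * s))).comp (C (om (4 * (R * s)) (-((i : ℤ) - (R * s : ℕ)))) * X)) ^ 4)
    (fun i => i) (fun _ _ _ _ h => h) (fun i _ => d6_coeff _ _ _ _ _
      (by rw [norm_mul, d6_cc_norm, d6_om_norm, mul_one]) (d6_om_norm _ _))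
  have hb2 := hsum (fun i => C ((starRingEnd ℂ) (cc R ((i : ℤ) - (R * s : ℕ))) *
            om (4 * (R * s)) ((2 * (2 * (R * s) - 1 : ℕ) : ℤ) * ((i : ℤ) - (R * s : ℕ)))) *
          X ^ (4 * s * (2 * (R * s) - i)) *
          ((DM (2 * (R * s))).comp (C (-(om (4 * (R * s)) (-((i : ℤ) - (R * s : ℕ))))) * X)) ^ 4)
    (fun i => 2 * (R * s) - i) hinj2 (fun i _ => d6_coeff _ _ _ _ _
      (by rw [norm_mul, RCLike.norm_conj, d6_cc_norm, d6_om_norm, mul_one])
      (by rw [norm_neg, d6_om_norm]))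
  have htot : ‖∑ i ∈ range (2 * (R * s)),
      (C (cc R ((i : ℤ) - (R * s : ℕ)) *
            om (4 * (R * s)) ((2 * (2 * (R * s) - 1 : ℕ) : ℤ) * ((i : ℤ) - (R * s : ℕ)))) *
          X ^ (4 * s * i) *
          ((DM (2 * (R * s))).comp (C (om (4 * (R * s)) (-((i : ℤ) - (R * s : ℕ)))) * X)) ^ 4 +
        C ((starRingEnd ℂ) (cc R ((i : ℤ) - (R * s : ℕ))) *
            om (4 * (R * s)) ((2 * (2 * (R * s) - 1 : ℕ) : ℤ) * ((i : ℤ) - (R * s : ℕ)))) *
          X ^ (4 * s * (2 * (R * s) - i)) *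
          ((DM (2 * (R * s))).comp
            (C (-(om (4 * (R * s)) (-((i : ℤ) - (R * s : ℕ))))) * X)) ^ 4).coeff k‖ ≤
      2 * ((2 * R + 1) * ((2 * (R * s) : ℕ) : ℝ) ^ 3) := by
    refine (norm_sum_le _ _).trans ?_
    have h1 := add_le_add hb1 hb2
    rw [← Finset.sum_add_distrib] at h1
    refine le_trans (Finset.sum_le_sum fun i _ => ?_) (h1.trans (le_of_eq (by ring)))
    rw [coeff_add]
    exact norm_add_le _ _
  have h2 := mul_le_mul_of_nonneg_left htot (a := 1 / ((4 * (R * s) : ℕ) * κ : ℝ)) (by positivity)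
  refine h2.trans ?_
  rw [one_div, inv_mul_le_iff₀ (by positivity)]
  have h3 : (3 : ℝ) / s * (((2 * (R * s) : ℕ) : ℝ) ^ 3 / 2) * ((4 * (R * s) : ℕ) : ℝ) ≤
      (4 * (R * s) : ℕ) * κ * (3 / s) := by
    have h4 : (0 : ℝ) ≤ 3 / s * ((4 * (R * s) : ℕ) : ℝ) := by positivity
    nlinarith [mul_le_mul_of_nonneg_left hkap h4]
  refine le_trans ?_ h3
  have h5 : (3 : ℝ) / s * (((2 * (R * s) : ℕ) : ℝ) ^ 3 / 2) * ((4 * (R * s) : ℕ) : ℝ) =
      6 * R * ((2 * (R * s) : ℕ) : ℝ) ^ 3 := by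
    push_cast
    field_simp
    ring
  rw [h5]
  nlinarith [hM3.le, mul_nonneg (sub_nonneg.2 hR') hM3.le]

/-- (D6c) degree of the flat polynomial: each term has degree at most
`4s · 2K + 4(M-1) ≤ 8Rs² + 8Rs ≤ 16Rs²` (`K = Rs`, `M = 2Rs`; `D2d'`, `natDegree_comp_le`,
`natDegree_mul_le`, `natDegree_sum_le_of_forall_le`). -/
theorem D6c {R s : ℕ} (hR : 0 < R) (hs : 0 < s) :
    (Wp R s).natDegree ≤ 16 * R * s ^ 2 := by
  have hdeg : ∀ (c u : ℂ) (n : ℕ), n ≤ 4 * s * (2 * (R * s)) →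
      (C c * X ^ n * ((DM (2 * (R * s))).comp (C u * X)) ^ 4).natDegree ≤ 16 * R * s ^ 2 := by
    intro c u n hn
    have h1 : ((DM (2 * (R * s))).comp (C u * X)).natDegree ≤ 2 * (R * s) - 1 := by
      refine natDegree_comp_le.trans ?_
      have h2 : (C u * X : ℂ[X]).natDegree ≤ 1 := (natDegree_C_mul_le _ _).trans natDegree_X_le
      calc (DM (2 * (R * s))).natDegree * (C u * X : ℂ[X]).natDegree
          ≤ (2 * (R * s) - 1) * 1 := Nat.mul_le_mul (D2d' _) h2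
        _ = 2 * (R * s) - 1 := mul_one _
    have h3 : (((DM (2 * (R * s))).comp (C u * X)) ^ 4).natDegree ≤ 4 * (2 * (R * s) - 1) :=
      natDegree_pow_le.trans (Nat.mul_le_mul_left 4 h1)
    have h4 : (C c * X ^ n : ℂ[X]).natDegree ≤ n := natDegree_C_mul_X_pow_le c n
    refine natDegree_mul_le.trans ?_
    have h5 : 4 * s * (2 * (R * s)) = 8 * (R * s ^ 2) := by ring
    have h6 : R * s ≤ R * s ^ 2 := by
      rw [pow_two]
      exact Nat.mul_le_mul_left R (Nat.le_mul_of_pos_left s hs)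
    have h7 : 16 * R * s ^ 2 = 16 * (R * s ^ 2) := by ring
    omega
  unfold Wp
  refine (natDegree_C_mul_le _ _).trans ?_
  refine natDegree_sum_le_of_forall_le _ _ fun i hi => ?_
  rw [Finset.mem_range] at hi
  refine natDegree_add_le_of_degree_le (hdeg _ _ _ ?_) (hdeg _ _ _ ?_)
  · exact Nat.mul_le_mul_left _ hi.le
  · exact Nat.mul_le_mul_left _ (Nat.sub_le _ _)

end DC8965.BT
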