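import Pool.Agent.Lib.MP_dc8965_an.BT.D4
import Pool.Agent.Lib.MP_dc8965_an.BT.D6

open Finset Polynomial

namespace DC8965.BT

private theorem D7_om (J : ℕ) (a : ℤ) : ‖om J a‖ = 1 := by
  unfold om
  exact Complex.norm_exp_ofReal_mul_I _

private theorem D7_cc (R : ℕ) (a : ℤ) : ‖cc R a‖ = 1 := by
  unfold cc
  exact Complex.norm_exp_ofReal_mul_I _

private theorem D7_term (M n N : ℕ) (hn : n ≤ N) {c u z : ℂ} (hc : ‖c‖ = 1) (hu : ‖u‖ = 1)
    (hz : ‖z‖ = 1) :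
    ‖(C c * X ^ n * ((DM M).comp (C u * X)) ^ 4).derivative.eval z‖ ≤
      N * ‖(DM M).eval (z * u)‖ ^ 4 + 4 * (M : ℝ) ^ 5 := by
  have hw : ‖z * u‖ = 1 := by rw [norm_mul, hz, hu, one_mul]
  obtain ⟨h1, h2⟩ := D2b M hw
  have hcomm : u * z = z * u := mul_comm _ _
  have hder : (C c * X ^ n * ((DM M).comp (C u * X)) ^ 4).derivative.eval z =
      c * (n * z ^ (n - 1)) * (DM M).eval (z * u) ^ 4 +
        c * z ^ n * (4 * (DM M).eval (z * u) ^ 3 * (u * (DM M).derivative.eval (z * u))) := by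
    simp only [derivative_mul, derivative_C, zero_mul, zero_add,
      derivative_pow, derivative_comp, derivative_X, mul_one, eval_add, eval_mul, eval_C,
      eval_pow, eval_X, eval_comp, hcomm]
    norm_num
  rw [hder]
  have hz1 : ∀ k : ℕ, ‖z ^ k‖ = 1 := fun k => by rw [norm_pow, hz, one_pow]
  refine (norm_add_le _ _).trans (add_le_add ?_ ?_)
  · rw [norm_mul, norm_mul, norm_mul, hc, hz1, norm_pow, Complex.norm_natCast, one_mul, mul_one]
    exact mul_le_mul_of_nonneg_right (by exact_mod_cast hn) (by positivity)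
  · rw [norm_mul, norm_mul, norm_mul, norm_mul, norm_mul, hc, hz1, norm_pow, hu, one_mul, one_mul,
      one_mul]
    have h4 : ‖(4 : ℂ)‖ = 4 := by norm_num
    rw [h4]
    calc 4 * ‖(DM M).eval (z * u)‖ ^ 3 * ‖(DM M).derivative.eval (z * u)‖
        ≤ 4 * (M : ℝ) ^ 3 * (M : ℝ) ^ 2 := by
          apply mul_le_mul _ h2 (norm_nonneg _) (by positivity)
          exact mul_le_mul_of_nonneg_left (pow_le_pow_left₀ (norm_nonneg _) h1 3) (by norm_num)
      _ = 4 * (M : ℝ) ^ 5 := by ring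

/-- (D7) the derivative of the flat polynomial on the circle.

Proof. `K = Rs`, `M = 2K`, `J = 4K`, `κ = kap M ≥ M³/2` (D2c). `Wp` is `1/(Jκ)` times a sum of `J` terms
`C c * X^n * ((DM M).comp (C u * X))^4` with `‖c‖ = ‖u‖ = 1`, `n ≤ 4s · 2K = 8Rs²`. The derivative of such a
term at `z`, `‖z‖ = 1`, has norm `≤ n ‖DM(uz)‖⁴ + 4 ‖DM(uz)‖³ ‖DM'(uz)‖ ≤ 8Rs² ‖DM(uz)‖⁴ + 4 M³ M²` (D2b).
The sum of all `‖DM(uz)‖⁴` is `Jκ` by (D4a), so the derivative of `Wp` has norm at most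
`8Rs² + J · 4M⁵/(Jκ) ≤ 8Rs² + 8M² = 8Rs² + 32R²s² ≤ 40R²s²`. -/
theorem D7 {R s : ℕ} (hR : 0 < R) (hs : 0 < s) {z : ℂ} (hz : ‖z‖ = 1) :
    ‖(Wp R s).derivative.eval z‖ ≤ 40 * R ^ 2 * s ^ 2 := by
  have hK : 0 < R * s := Nat.mul_pos hR hs
  have hKr : (0 : ℝ) < (R * s : ℕ) := by exact_mod_cast hK
  have hM : (0 : ℝ) < ((2 * (R * s) : ℕ) : ℝ) := by
    have : 0 < 2 * (R * s) := by omega
    exact_mod_cast this
  have hκ := D2c (M := 2 * (R * s)) (by omega)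
  have hκ0 : 0 < kap (2 * (R * s)) := lt_of_lt_of_le (by positivity) hκ
  have hpart := D4a hK hz
  have hJκ : 0 < ((4 * (R * s) : ℕ) : ℝ) * kap (2 * (R * s)) := by
    have : (0 : ℝ) < ((4 * (R * s) : ℕ) : ℝ) := by
      have : 0 < 4 * (R * s) := by omega
      exact_mod_cast this
    positivity
  set M := 2 * (R * s) with hMdef
  set B : ℝ := 4 * (M : ℝ) ^ 5 with hB
  have hsum : ‖(∑ i ∈ range M,
      (C (cc R ((i : ℤ) - (R * s : ℕ)) *
            om (4 * (R * s)) ((2 * (M - 1 : ℕ) : ℤ) * ((i : ℤ) - (R * s : ℕ)))) *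
          X ^ (4 * s * i) *
          ((DM M).comp (C (om (4 * (R * s)) (-((i : ℤ) - (R * s : ℕ)))) * X)) ^ 4 +
        C ((starRingEnd ℂ) (cc R ((i : ℤ) - (R * s : ℕ))) *
            om (4 * (R * s)) ((2 * (M - 1 : ℕ) : ℤ) * ((i : ℤ) - (R * s : ℕ)))) *
          X ^ (4 * s * (M - i)) *
          ((DM M).comp (C (-(om (4 * (R * s)) (-((i : ℤ) - (R * s : ℕ))))) * X)) ^
            4)).derivative.eval z‖ ≤
      ((4 * s * M : ℕ) : ℝ) * (((4 * (R * s) : ℕ) : ℝ) * kap M) + M * (2 * B) := by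
    rw [derivative_sum, eval_finsetSum]
    refine (norm_sum_le _ _).trans ?_
    rw [← hpart, mul_sum]
    have hconst : (M : ℝ) * (2 * B) = ∑ i ∈ range M, (2 * B) := by
      rw [sum_const, card_range, nsmul_eq_mul]
    rw [hconst, ← sum_add_distrib]
    apply sum_le_sum
    intro i hi
    have hi' : i < M := mem_range.1 hi
    rw [derivative_add, eval_add]
    refine (norm_add_le _ _).trans ?_
    have e1 := D7_term M (4 * s * i) (4 * s * M) (Nat.mul_le_mul_left _ hi'.le)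
      (c := cc R ((i : ℤ) - (R * s : ℕ)) *
            om (4 * (R * s)) ((2 * (M - 1 : ℕ) : ℤ) * ((i : ℤ) - (R * s : ℕ))))
      (u := om (4 * (R * s)) (-((i : ℤ) - (R * s : ℕ)))) (z := z)
      (by rw [norm_mul, D7_cc, D7_om, one_mul]) (D7_om _ _) hz
    have e2 := D7_term M (4 * s * (M - i)) (4 * s * M) (Nat.mul_le_mul_left _ (Nat.sub_le _ _))
      (c := (starRingEnd ℂ) (cc R ((i : ℤ) - (R * s : ℕ))) *
            om (4 * (R * s)) ((2 * (M - 1 : ℕ) : ℤ) * ((i : ℤ) - (R * s : ℕ))))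
      (u := -(om (4 * (R * s)) (-((i : ℤ) - (R * s : ℕ))))) (z := z)
      (by rw [norm_mul, RCLike.norm_conj, D7_cc, D7_om, one_mul]) (by rw [norm_neg, D7_om]) hz
    rw [mul_neg] at e2
    have := add_le_add e1 e2
    refine this.trans (le_of_eq ?_)
    ring
  have hWp : (Wp R s).derivative.eval z =
      (1 / ((4 * (R * s) : ℕ) * kap M : ℝ) : ℂ) *
      (∑ i ∈ range M,
      (C (cc R ((i : ℤ) - (R * s : ℕ)) *
            om (4 * (R * s)) ((2 * (M - 1 : ℕ) : ℤ) * ((i : ℤ) - (R * s : ℕ)))) *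
          X ^ (4 * s * i) *
          ((DM M).comp (C (om (4 * (R * s)) (-((i : ℤ) - (R * s : ℕ)))) * X)) ^ 4 +
        C ((starRingEnd ℂ) (cc R ((i : ℤ) - (R * s : ℕ))) *
            om (4 * (R * s)) ((2 * (M - 1 : ℕ) : ℤ) * ((i : ℤ) - (R * s : ℕ)))) *
          X ^ (4 * s * (M - i)) *
          ((DM M).comp (C (-(om (4 * (R * s)) (-((i : ℤ) - (R * s : ℕ))))) * X)) ^
            4)).derivative.eval z := by
    unfold Wp
    rw [derivative_C_mul, eval_mul, eval_C]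
  rw [hWp, norm_mul]
  have hn : ‖(1 / ((4 * (R * s) : ℕ) * kap M : ℝ) : ℂ)‖ = 1 / (((4 * (R * s) : ℕ) : ℝ) * kap M) := by
    rw [norm_div, norm_one, Complex.norm_real, Real.norm_of_nonneg hJκ.le]
  rw [hn]
  refine (mul_le_mul_of_nonneg_left hsum (by positivity)).trans ?_
  rw [one_div, inv_mul_le_iff₀ hJκ]
  have hR1 : (1 : ℝ) ≤ R := by exact_mod_cast hR
  have hs1 : (1 : ℝ) ≤ s := by exact_mod_cast hs
  have hMr : (M : ℝ) = 2 * (R * s) := by rw [hMdef]; push_cast; ring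
  have hJr : ((4 * (R * s) : ℕ) : ℝ) = 2 * M := by rw [hMr]; push_cast; ring
  have h5 : (M : ℝ) * (2 * B) ≤ (2 * M * kap M) * (8 * M ^ 2) := by
    rw [hB]
    have : (M : ℝ) ^ 5 ≤ 2 * kap M * M ^ 2 := by nlinarith [sq_nonneg (M : ℝ), hκ]
    nlinarith [hM]
  rw [hJr]
  have h6 : ((4 * s * M : ℕ) : ℝ) + 8 * (M : ℝ) ^ 2 ≤ 40 * R ^ 2 * s ^ 2 := by
    push_cast
    rw [hMr]
    nlinarith [mul_le_mul hR1 (le_refl ((R : ℝ) * s ^ 2)) (by positivity) (by positivity)]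
  have h7 : 0 ≤ 2 * (M : ℝ) * kap M := by positivity
  nlinarith [mul_le_mul_of_nonneg_left h6 h7]

end DC8965.BT
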