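import Pool.Agent.Lib.MP_dc8965_an.BT.D5
import Pool.Agent.Lib.MP_dc8965_an.BT.D7

open Finset Polynomial

namespace DC8965.BT

/-- (D8) flat polynomials with an absolute constant.

Proof. `W = C 2 * Wp 40 s`: (D6a), (D5) give `1 ≤ ‖W(z)‖ ≤ 3`; (D6c), (D7), (D6b) the rest.
`C₀ = 128000` is more than enough. -/
theorem D8 : ∃ C₀ : ℝ, 1 ≤ C₀ ∧ ∀ s : ℕ, 0 < s → ∃ W : ℂ[X],
    (W.natDegree : ℝ) ≤ C₀ * s ^ 2 ∧
    (∀ z : ℂ, ‖z‖ = 1 → 1 ≤ ‖W.eval z‖ ∧ ‖W.eval z‖ ≤ C₀ ∧ ‖W.derivative.eval z‖ ≤ C₀ * s ^ 2) ∧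
    ∀ k, ‖W.coeff k‖ ≤ C₀ / s := by
  refine ⟨128000, by norm_num, fun s hs => ⟨C 2 * Wp 40 s, ?_, ?_, ?_⟩⟩
  · have h1 : (C (2 : ℂ) * Wp 40 s).natDegree ≤ (Wp 40 s).natDegree := natDegree_C_mul_le _ _
    have h2 := D6c (R := 40) (s := s) (by norm_num) hs
    have h3 : (((C (2 : ℂ) * Wp 40 s).natDegree : ℕ) : ℝ) ≤ ((16 * 40 * s ^ 2 : ℕ) : ℝ) := by
      exact_mod_cast h1.trans h2
    refine h3.trans ?_
    push_cast
    have h4 : (0 : ℝ) ≤ (s : ℝ) ^ 2 := by positivity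
    nlinarith
  · intro z hz
    have h1 := D6a (R := 40) (s := s) (by norm_num) hs hz
    obtain ⟨h2, h3⟩ := D5 hs hz
    have h4 := D7 (R := 40) (s := s) (by norm_num) hs hz
    have h5 : ‖(C (2 : ℂ) * Wp 40 s).eval z‖ = 2 * ‖Wf 40 s z‖ := by
      rw [eval_mul, eval_C, h1, norm_mul, norm_mul, norm_pow, hz, one_pow, one_mul]
      norm_num
    have h6 : ‖(C (2 : ℂ) * Wp 40 s).derivative.eval z‖ = 2 * ‖(Wp 40 s).derivative.eval z‖ := by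
      rw [derivative_C_mul, eval_mul, eval_C, norm_mul]
      norm_num
    refine ⟨?_, ?_, ?_⟩
    · rw [h5]; linarith
    · rw [h5]; linarith
    · rw [h6]
      push_cast at h4
      have h7 : (0 : ℝ) ≤ (s : ℝ) ^ 2 := by positivity
      nlinarith
  · intro k
    have h1 := D6b (R := 40) (s := s) (by norm_num) hs k
    have hs' : (0 : ℝ) < s := by exact_mod_cast hs
    rw [coeff_C_mul, norm_mul]
    have h2 : ‖(2 : ℂ)‖ = 2 := by norm_num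
    rw [h2]
    calc 2 * ‖(Wp 40 s).coeff k‖ ≤ 2 * (3 / s) := by linarith
      _ = 6 / s := by ring
      _ ≤ 128000 / s := by
        apply div_le_div_of_nonneg_right (by norm_num) hs'.le

end DC8965.BT
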