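import Pool.Agent.Lib.MP_dc8965_an.BT.Basic

/-!
Flat polynomials. For `s ≥ 1` (and a fixed integer `R`, later `R = 40`): `K = R s`, `J = 4 K` nodes,
`M = 2 K`, frequencies `H a`, `H = 4 s`, `|a| ≤ K`, `N = H K = 4 R s²`.
`DM M = 1 + X + ... + X^{M-1}`, `om J a = exp(2πi a / J)`, `cc R a = exp(-πi a² / R)`.
The weights `‖DM(z ω^{-a})‖⁴ / (J κ)` are a partition of unity on the circle over the `J` nodes `ω^a`, and
`Wf` is the average of the local exponentials `Ua`, `Da` with these weights.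
-/

open Finset Polynomial

namespace DC8965.BT

/-- `1 + X + ... + X^{M-1}` -/
noncomputable def DM (M : ℕ) : ℂ[X] := ∑ m ∈ range M, X ^ m

/-- `exp(2πi a / J)` -/
noncomputable def om (J : ℕ) (a : ℤ) : ℂ :=
  Complex.exp (((2 * Real.pi * (a : ℝ) / J : ℝ) : ℂ) * Complex.I)

/-- `exp(-πi a² / R)` -/
noncomputable def cc (R : ℕ) (a : ℤ) : ℂ :=
  Complex.exp (((-(Real.pi * (a : ℝ) ^ 2 / R) : ℝ) : ℂ) * Complex.I)

/-- the sum of the squares of the coefficients of `DM²` -/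
noncomputable def kap (M : ℕ) : ℝ := ∑ k ∈ range (2 * M), ‖((DM M) ^ 2).coeff k‖ ^ 2

/-- the ascending local exponential `c_a z^{4 s a}` -/
noncomputable def Ua (R s : ℕ) (a : ℤ) (z : ℂ) : ℂ := cc R a * z ^ ((4 * s : ℕ) * a : ℤ)

/-- the descending local exponential `conj(c_a) z^{-4 s a}` -/
noncomputable def Da (R s : ℕ) (a : ℤ) (z : ℂ) : ℂ :=
  (starRingEnd ℂ) (cc R a) * z ^ (-((4 * s : ℕ) * a) : ℤ)

/-- the flat function on the circle: `a = i - K`, `i < 2K`, `K = R s`, `M = 2K`, `J = 4K` -/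
noncomputable def Wf (R s : ℕ) (z : ℂ) : ℂ :=
  (1 / ((4 * (R * s) : ℕ) * kap (2 * (R * s)) : ℝ) : ℂ) *
    ∑ i ∈ range (2 * (R * s)),
      (((‖(DM (2 * (R * s))).eval (z * om (4 * (R * s)) (-((i : ℤ) - (R * s : ℕ))))‖ ^ 4 : ℝ) : ℂ) *
          Ua R s ((i : ℤ) - (R * s : ℕ)) z +
        ((‖(DM (2 * (R * s))).eval (-(z * om (4 * (R * s)) (-((i : ℤ) - (R * s : ℕ)))))‖ ^ 4 : ℝ) : ℂ) *
          Da R s ((i : ℤ) - (R * s : ℕ)) z)

/-- the flat polynomial; on the circle it is `z^{HK + 2(M-1)} Wf z` -/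
noncomputable def Wp (R s : ℕ) : ℂ[X] :=
  C (1 / ((4 * (R * s) : ℕ) * kap (2 * (R * s)) : ℝ) : ℂ) *
    ∑ i ∈ range (2 * (R * s)),
      (C (cc R ((i : ℤ) - (R * s : ℕ)) *
            om (4 * (R * s)) ((2 * (2 * (R * s) - 1 : ℕ) : ℤ) * ((i : ℤ) - (R * s : ℕ)))) *
          X ^ (4 * s * i) *
          ((DM (2 * (R * s))).comp (C (om (4 * (R * s)) (-((i : ℤ) - (R * s : ℕ)))) * X)) ^ 4 +
        C ((starRingEnd ℂ) (cc R ((i : ℤ) - (R * s : ℕ))) *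
            om (4 * (R * s)) ((2 * (2 * (R * s) - 1 : ℕ) : ℤ) * ((i : ℤ) - (R * s : ℕ)))) *
          X ^ (4 * s * (2 * (R * s) - i)) *
          ((DM (2 * (R * s))).comp (C (-(om (4 * (R * s)) (-((i : ℤ) - (R * s : ℕ))))) * X)) ^ 4)

end DC8965.BT
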