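import Pool.Agent.Lib.MP_dc8965_an.BT.EDefs

open Finset Polynomial MeasureTheory

namespace DC8965.BT

private lemma E1_pos : (0 : ℝ) < 2 * Real.pi := by positivity

private lemma E1_fc_eq (F : ℝ → ℂ) (n : ℤ) : fc F n = fourierCoeffOn E1_pos F n := by
  rw [fourierCoeffOn_eq_integral]
  unfold fc
  rw [sub_zero, Complex.real_smul]
  congr 1
  refine intervalIntegral.integral_congr fun t _ => ?_
  beta_reduce
  rw [smul_eq_mul, mul_comm]
  congr 1
  rw [fourier_coe_apply]
  congr 1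
  have h1 : (Real.pi : ℂ) ≠ 0 := by exact_mod_cast Real.pi_ne_zero
  push_cast
  field_simp

private lemma E1_hasSum {F : ℝ → ℂ} (hF : Continuous F) :
    HasSum (fun n : ℤ => ‖fc F n‖ ^ 2)
      ((1 / (2 * Real.pi)) * ∫ t in (0 : ℝ)..(2 * Real.pi), ‖F t‖ ^ 2) := by
  have h1 : MemLp F 2 (volume.restrict (Set.Ioc 0 (2 * Real.pi))) := by
    obtain ⟨M, hM⟩ := (isCompact_Icc (a := (0 : ℝ)) (b := 2 * Real.pi)).exists_bound_of_continuousOn
      hF.continuousOn
    refine MemLp.of_bound hF.aestronglyMeasurable M ?_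
    rw [ae_restrict_iff' measurableSet_Ioc]
    exact Filter.Eventually.of_forall fun t ht => hM t (Set.Ioc_subset_Icc_self ht)
  have h3 := hasSum_sq_fourierCoeffOn E1_pos h1
  rw [sub_zero, smul_eq_mul, ← one_div] at h3
  simpa only [E1_fc_eq] using h3

/-- (E1a) Bessel's inequality.

Proof. Either from Mathlib (`fourierCoeffOn`, `hasSum_sq_fourierCoeff`, `tsum_sq_fourierCoeff`), or
directly: `0 ≤ ∫ ‖F - ∑_{n ∈ s} fc F n e_n‖²`, expand, `∫_0^{2π} e_n conj(e_m) = 2π δ_{nm}`. -/
theorem E1a {F : ℝ → ℂ} (hF : Continuous F) (s : Finset ℤ) :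
    ∑ n ∈ s, ‖fc F n‖ ^ 2 ≤ (1 / (2 * Real.pi)) * ∫ t in (0 : ℝ)..(2 * Real.pi), ‖F t‖ ^ 2 :=
  sum_le_hasSum s (fun _ _ => by positivity) (E1_hasSum hF)

/-- (E1b) the Fourier coefficients of the derivative (integration by parts,
`intervalIntegral.integral_mul_deriv_eq_deriv_mul`; the boundary terms cancel since
`F (2π) = F 0` and `exp(-2πin) = 1`). -/
theorem E1b {F F' : ℝ → ℂ} (hF : ∀ t, HasDerivAt F (F' t) t) (hF' : Continuous F')
    (hper : F (2 * Real.pi) = F 0) (n : ℤ) : fc F' n = Complex.I * n * fc F n := by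
  have hd : ∀ t : ℝ, HasDerivAt (fun t : ℝ => Complex.exp (-((n : ℂ) * t * Complex.I)))
      (Complex.exp (-((n : ℂ) * t * Complex.I)) * (-((n : ℂ) * 1 * Complex.I))) t := by
    intro t
    have h1 : HasDerivAt (fun t : ℝ => (t : ℂ)) 1 t := Complex.ofRealCLM.hasDerivAt
    exact (((h1.const_mul (n : ℂ)).mul_const Complex.I).neg).cexp
  have hc : Continuous fun t : ℝ =>
      Complex.exp (-((n : ℂ) * t * Complex.I)) * (-((n : ℂ) * 1 * Complex.I)) := by
    fun_prop
  have h2 := intervalIntegral.integral_mul_deriv_eq_deriv_mul (a := 0) (b := 2 * Real.pi)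
    (fun t _ => hF t) (fun t _ => hd t) (hF'.intervalIntegrable _ _) (hc.intervalIntegrable _ _)
  have h3 : Complex.exp (-((n : ℂ) * ((2 * Real.pi : ℝ) : ℂ) * Complex.I)) = 1 := by
    rw [Complex.exp_eq_one_iff]
    refine ⟨-n, ?_⟩
    push_cast
    ring
  have h4 : Complex.exp (-((n : ℂ) * ((0 : ℝ) : ℂ) * Complex.I)) = 1 := by simp
  rw [h3, h4, hper, sub_self, zero_sub] at h2
  have h5 : ∫ t in (0 : ℝ)..(2 * Real.pi), F t *
      (Complex.exp (-((n : ℂ) * t * Complex.I)) * (-((n : ℂ) * 1 * Complex.I)))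
      = (-((n : ℂ) * Complex.I)) *
        ∫ t in (0 : ℝ)..(2 * Real.pi), F t * Complex.exp (-((n : ℂ) * t * Complex.I)) := by
    rw [← intervalIntegral.integral_const_mul]
    refine intervalIntegral.integral_congr fun t _ => ?_
    beta_reduce
    ring
  rw [h5] at h2
  unfold fc
  have h6 : ∫ t in (0 : ℝ)..(2 * Real.pi), F' t * Complex.exp (-((n : ℂ) * t * Complex.I))
      = (n : ℂ) * Complex.I *
        ∫ t in (0 : ℝ)..(2 * Real.pi), F t * Complex.exp (-((n : ℂ) * t * Complex.I)) := by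
    linear_combination h2
  rw [h6]
  ring

private lemma E1_exp (k n : ℤ) :
    ∫ t in (0 : ℝ)..(2 * Real.pi), Complex.exp (((k : ℂ) * t * Complex.I))
      * Complex.exp (-((n : ℂ) * t * Complex.I)) = if k = n then ((2 * Real.pi : ℝ) : ℂ) else 0 := by
  have h1 : ∀ t : ℝ, Complex.exp (((k : ℂ) * t * Complex.I))
      * Complex.exp (-((n : ℂ) * t * Complex.I)) = Complex.exp ((((k - n : ℤ) : ℂ) * Complex.I) * t) := by
    intro t
    rw [← Complex.exp_add]
    congr 1
    push_cast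
    ring
  simp only [h1]
  split_ifs with h
  · subst h
    simp
  · have h2 : (((k - n : ℤ) : ℂ) * Complex.I) ≠ 0 := by
      refine mul_ne_zero ?_ Complex.I_ne_zero
      exact_mod_cast sub_ne_zero.mpr h
    rw [integral_exp_mul_complex h2]
    have h3 : Complex.exp ((((k - n : ℤ) : ℂ) * Complex.I) * ((2 * Real.pi : ℝ) : ℂ)) = 1 := by
      rw [Complex.exp_eq_one_iff]
      refine ⟨k - n, ?_⟩
      push_cast
      ring
    rw [h3]
    simp

private lemma E1_poly (b : ℂ[X]) (n : ℤ) :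
    fc (fun t => b.eval (Complex.exp ((t : ℂ) * Complex.I))) n
      = ∑ k ∈ b.support, if (k : ℤ) = n then b.coeff k else 0 := by
  unfold fc
  have h1 : ∀ t : ℝ, b.eval (Complex.exp ((t : ℂ) * Complex.I)) *
      Complex.exp (-((n : ℂ) * t * Complex.I)) = ∑ k ∈ b.support, b.coeff k *
        (Complex.exp ((((k : ℤ) : ℂ) * t * Complex.I)) * Complex.exp (-((n : ℂ) * t * Complex.I))) := by
    intro t
    rw [Polynomial.eval_eq_sum, Polynomial.sum_def, Finset.sum_mul]
    refine Finset.sum_congr rfl fun k _ => ?_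
    rw [← Complex.exp_nat_mul, mul_assoc]
    congr 3
    push_cast
    ring
  simp only [h1]
  rw [intervalIntegral.integral_finsetSum, Finset.mul_sum]
  · refine Finset.sum_congr rfl fun k _ => ?_
    rw [intervalIntegral.integral_const_mul, E1_exp]
    have hpi : ((2 * Real.pi : ℝ) : ℂ) ≠ 0 := by exact_mod_cast E1_pos.ne'
    split_ifs with h
    · rw [Complex.ofReal_div, Complex.ofReal_one]
      field_simp
    · simp
  · intro k _
    apply Continuous.intervalIntegrable
    fun_prop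

/-- (E1c) a polynomial on the circle: its Fourier coefficients and its `L²` norm.

Proof. Linearity and `∫_0^{2π} e^{ikt} e^{-int} dt = 2π` if `k = n`, `0` otherwise
(`integral_exp_mul_complex`). -/
theorem E1c (b : ℂ[X]) (n : ℕ) :
    fc (fun t => b.eval (Complex.exp ((t : ℂ) * Complex.I))) (n : ℤ) = b.coeff n := by
  rw [E1_poly]
  simp only [Nat.cast_inj]
  rw [Finset.sum_ite_eq' b.support n (fun k => b.coeff k)]
  split_ifs with h
  · rfl
  · exact (Polynomial.notMem_support_iff.mp h).symm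

/-- (E1d) -/
theorem E1d (b : ℂ[X]) :
    (1 / (2 * Real.pi)) * ∫ t in (0 : ℝ)..(2 * Real.pi),
      ‖b.eval (Complex.exp ((t : ℂ) * Complex.I))‖ ^ 2 = Sn 2 b := by
  have hc : Continuous fun t : ℝ => b.eval (Complex.exp ((t : ℂ) * Complex.I)) := by
    fun_prop
  have h1 := E1_hasSum hc
  have h2 : HasSum (fun n : ℤ => ‖fc (fun t => b.eval (Complex.exp ((t : ℂ) * Complex.I))) n‖ ^ 2)
      (∑ n ∈ b.support.map Nat.castEmbedding,
        ‖fc (fun t => b.eval (Complex.exp ((t : ℂ) * Complex.I))) n‖ ^ 2) := by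
    refine hasSum_sum_of_ne_finset_zero fun n hn => ?_
    have h3 : fc (fun t => b.eval (Complex.exp ((t : ℂ) * Complex.I))) n = 0 := by
      rw [E1_poly]
      refine Finset.sum_eq_zero fun k hk => ?_
      rw [if_neg]
      rintro rfl
      exact hn (Finset.mem_map.mpr ⟨k, hk, rfl⟩)
    rw [h3]
    simp
  rw [h1.unique h2, Finset.sum_map]
  unfold Sn
  refine Finset.sum_congr rfl fun k _ => ?_
  have h4 := E1c b k
  rw [Nat.castEmbedding_apply, h4]
  norm_cast

end DC8965.BT
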