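import Pool.Agent.Lib.MP_dc8965_an.BT.E1

open Finset Polynomial MeasureTheory

namespace DC8965.BT

private lemma E2_deriv_Sn {N : ℕ} (b : ℂ[X]) (hb : b.natDegree ≤ N) :
    Sn 2 b.derivative ≤ (N : ℝ) ^ 2 * Sn 2 b := by
  have h1 : ∀ k, N ≤ k → b.derivative.coeff k = 0 := fun k hk => by
    rw [Polynomial.coeff_derivative, Polynomial.coeff_eq_zero_of_natDegree_lt (by omega), zero_mul]
  have h2 : ∀ k, N + 1 ≤ k → b.coeff k = 0 := fun k hk =>
    Polynomial.coeff_eq_zero_of_natDegree_lt (by omega)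
  rw [Sn_eq_range (by norm_num) h1, Sn_eq_range (by norm_num) h2, Finset.sum_range_succ', mul_add,
    Finset.mul_sum]
  have h3 : ∀ k ∈ range N, ‖b.derivative.coeff k‖ ^ (2 : ℝ) ≤
      (N : ℝ) ^ 2 * ‖b.coeff (k + 1)‖ ^ (2 : ℝ) := by
    intro k hk
    rw [Finset.mem_range] at hk
    rw [Polynomial.coeff_derivative, norm_mul, Real.rpow_two, Real.rpow_two, mul_pow, mul_comm]
    refine mul_le_mul_of_nonneg_right ?_ (by positivity)
    have h4 : ‖(k : ℂ) + 1‖ = (k : ℝ) + 1 := by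
      have : ((k : ℂ) + 1) = ((k + 1 : ℕ) : ℂ) := by push_cast; ring
      rw [this, Complex.norm_natCast]
      push_cast
      ring
    rw [h4]
    have h5 : (k : ℝ) + 1 ≤ N := by exact_mod_cast hk
    exact pow_le_pow_left₀ (by positivity) h5 2
  have h6 := Finset.sum_le_sum h3
  have h7 : 0 ≤ (N : ℝ) ^ 2 * ‖b.coeff 0‖ ^ (2 : ℝ) := by positivity
  linarith

private lemma E2_nat {F : ℝ → ℂ} (hF : Continuous F) (n : ℕ) :
    ∑ k ∈ range n, ‖fc F (k : ℤ)‖ ^ (2 : ℝ) ≤
      (1 / (2 * Real.pi)) * ∫ t in (0 : ℝ)..(2 * Real.pi), ‖F t‖ ^ 2 := by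
  have h := E1a hF ((range n).map Nat.castEmbedding)
  rw [Finset.sum_map] at h
  refine le_trans (le_of_eq ?_) h
  refine Finset.sum_congr rfl fun k _ => ?_
  rw [Real.rpow_two]
  rfl

private lemma E2_int {f g : ℝ → ℝ} (hf : Continuous f) (hg : Continuous g)
    (h : ∀ t, f t ≤ g t) : (1 / (2 * Real.pi)) * ∫ t in (0 : ℝ)..(2 * Real.pi), f t ≤
      (1 / (2 * Real.pi)) * ∫ t in (0 : ℝ)..(2 * Real.pi), g t := by
  have hpi := Real.pi_pos
  refine mul_le_mul_of_nonneg_left ?_ (by positivity)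
  exact intervalIntegral.integral_mono (by positivity) (hf.intervalIntegrable _ _)
    (hg.intervalIntegrable _ _) h

private lemma E2_real {a c C n : ℝ} (hC : 0 ≤ C) :
    (a + C * n * c) ^ 2 ≤ (1 + C) * (a ^ 2 + C * n ^ 2 * c ^ 2) := by
  nlinarith [mul_nonneg hC (sq_nonneg (a - n * c))]

/-- (E2) solving `T_U y = b`.

Proof. `G t = b(e^{it}) / U(e^{-it})`, `y n = fc G n` (n ≥ 0). `G` is smooth and `2π`-periodic.
Equation: `∑_k U_k y_{j+k} = fc (t ↦ U(e^{-it}) G t) j = fc (b(e^{it})) j = b_j` by (E1c)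
(`e^{-i(j+k)t} = e^{-ijt} (e^{-it})^k`, `Polynomial.eval_eq_sum`).
First bound: (E1a) for the image of `range n`, `‖G t‖ ≤ ‖b(e^{it})‖/A`, (E1d).
Second bound: `G' t = i e^{it} b'(e^{it})/U(e^{-it}) + i e^{-it} b(e^{it}) U'(e^{-it})/U(e^{-it})²`,
`‖G' t‖ ≤ (‖b'(e^{it})‖ + C₁ N ‖b(e^{it})‖)/A`, so
`‖G' t‖² ≤ (1 + C₁) (‖b'‖² + C₁ N² ‖b‖²)/A²`, and
`(1/2π)∫‖G'‖² ≤ (1+C₁)(N² + C₁N²) Sn 2 b / A² = ((1+C₁)N/A)² Sn 2 b` by (E1d) for `b` and `b.derivative`
(`Sn 2 b' = ∑ k² ‖b_k‖² ≤ N² Sn 2 b`). By (E1b) `‖fc G' n‖ = n ‖y n‖`; use (E1a) for `G'`. -/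
theorem E2 {N : ℕ} {A C₁ : ℝ} (hA : 0 < A) (hC₁ : 0 ≤ C₁) (U b : ℂ[X])
    (hU1 : ∀ z : ℂ, ‖z‖ = 1 → A ≤ ‖U.eval z‖)
    (hU2 : ∀ z : ℂ, ‖z‖ = 1 → ‖U.derivative.eval z‖ ≤ C₁ * N * A) (hb : b.natDegree ≤ N) :
    ∃ y : ℕ → ℂ, (Tp U y = fun j => b.coeff j) ∧ Sle 2 y (Sn 2 b / A ^ 2) ∧
      Sle 2 (fun n => (n : ℂ) * y n) (((1 + C₁) * N / A) ^ 2 * Sn 2 b) := by
  have hpi := Real.pi_pos
  obtain ⟨e, he⟩ : ∃ e : ℝ → ℂ, e = fun t : ℝ => Complex.exp ((t : ℂ) * Complex.I) := ⟨_, rfl⟩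
  obtain ⟨e', he'⟩ : ∃ e' : ℝ → ℂ, e' = fun t : ℝ => Complex.exp (-((t : ℂ) * Complex.I)) := ⟨_, rfl⟩
  have hec : Continuous e := by rw [he]; fun_prop
  have hec' : Continuous e' := by rw [he']; fun_prop
  have hen : ∀ t, ‖e t‖ = 1 := fun t => by rw [he]; exact Complex.norm_exp_ofReal_mul_I t
  have hen' : ∀ t, ‖e' t‖ = 1 := fun t => by
    rw [he']
    simp only
    rw [Complex.norm_exp]
    simp
  have hlin : ∀ t : ℝ, HasDerivAt (fun t : ℝ => (t : ℂ) * Complex.I) Complex.I t := fun t => by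
    have h1 := ((hasDerivAt_id t).ofReal_comp).mul_const Complex.I
    simpa using h1
  have hed : ∀ t, HasDerivAt e (e t * Complex.I) t := fun t => by
    rw [he]
    exact (hlin t).cexp
  have hed' : ∀ t, HasDerivAt e' (e' t * -Complex.I) t := fun t => by
    rw [he']
    exact (hlin t).neg.cexp
  have hUA : ∀ t, A ≤ ‖U.eval (e' t)‖ := fun t => hU1 _ (hen' t)
  have hUne : ∀ t, U.eval (e' t) ≠ 0 := fun t h0 => by
    have := hUA t
    rw [h0, norm_zero] at this
    linarith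
  have hbc : Continuous fun t => b.eval (e t) := b.continuous.comp hec
  have hbc' : Continuous fun t => b.derivative.eval (e t) := b.derivative.continuous.comp hec
  have hUc : Continuous fun t => U.eval (e' t) := U.continuous.comp hec'
  have hUc' : Continuous fun t => U.derivative.eval (e' t) := U.derivative.continuous.comp hec'
  obtain ⟨G, hG⟩ : ∃ G : ℝ → ℂ, G = fun t => b.eval (e t) / U.eval (e' t) := ⟨_, rfl⟩
  obtain ⟨G', hG'⟩ : ∃ G' : ℝ → ℂ, G' = fun t =>
      (b.derivative.eval (e t) * (e t * Complex.I) * U.eval (e' t) -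
        b.eval (e t) * (U.derivative.eval (e' t) * (e' t * -Complex.I))) / U.eval (e' t) ^ 2 :=
    ⟨_, rfl⟩
  have hGc : Continuous G := by
    rw [hG]
    exact hbc.div hUc hUne
  have hGc' : Continuous G' := by
    rw [hG']
    refine Continuous.div ?_ (hUc.pow 2) fun t => pow_ne_zero 2 (hUne t)
    exact ((hbc'.mul (hec.mul continuous_const)).mul hUc).sub
      (hbc.mul (hUc'.mul (hec'.mul continuous_const)))
  have hGd : ∀ t, HasDerivAt G (G' t) t := fun t => by
    rw [hG, hG']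
    have h1 : HasDerivAt (fun t => b.eval (e t)) (b.derivative.eval (e t) * (e t * Complex.I)) t :=
      (b.hasDerivAt (e t)).comp t (hed t)
    have h2 : HasDerivAt (fun t => U.eval (e' t))
        (U.derivative.eval (e' t) * (e' t * -Complex.I)) t :=
      (U.hasDerivAt (e' t)).comp t (hed' t)
    exact h1.div h2 (hUne t)
  have hper : G (2 * Real.pi) = G 0 := by
    have h1 : e (2 * Real.pi) = e 0 := by
      rw [he]
      simp only
      push_cast
      rw [Complex.exp_two_pi_mul_I, zero_mul, Complex.exp_zero]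
    have h2 : e' (2 * Real.pi) = e' 0 := by
      rw [he']
      simp only
      push_cast
      rw [Complex.exp_neg, Complex.exp_two_pi_mul_I, zero_mul, neg_zero, Complex.exp_zero, inv_one]
    rw [hG]
    simp only
    rw [h1, h2]
  have hb1 : (1 / (2 * Real.pi)) * ∫ t in (0 : ℝ)..(2 * Real.pi), ‖b.eval (e t)‖ ^ 2 =
      Sn 2 b := by
    rw [he]
    exact E1d b
  refine ⟨fun n => fc G (n : ℤ), ?_, ?_, ?_⟩
  · -- the equation
    funext j
    have h0 := E1c b j
    rw [← h0]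
    have h1 : ∀ k ∈ U.support, U.coeff k * fc G ((j + k : ℕ) : ℤ) =
        (1 / (2 * Real.pi) : ℝ) * ∫ t in (0 : ℝ)..(2 * Real.pi),
          U.coeff k * e' t ^ k * G t * Complex.exp (-(((j : ℤ) : ℂ) * t * Complex.I)) := by
      intro k _
      have h2 : (∫ t in (0 : ℝ)..(2 * Real.pi),
          U.coeff k * e' t ^ k * G t * Complex.exp (-(((j : ℤ) : ℂ) * t * Complex.I))) =
          U.coeff k * ∫ t in (0 : ℝ)..(2 * Real.pi),
            G t * Complex.exp (-((((j + k : ℕ) : ℤ) : ℂ) * t * Complex.I)) := by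
        rw [← intervalIntegral.integral_const_mul]
        refine intervalIntegral.integral_congr fun t _ => ?_
        have h3 : e' t ^ k * Complex.exp (-(((j : ℤ) : ℂ) * t * Complex.I)) =
            Complex.exp (-((((j + k : ℕ) : ℤ) : ℂ) * t * Complex.I)) := by
          rw [he']
          rw [← Complex.exp_nat_mul, ← Complex.exp_add]
          congr 1
          push_cast
          ring
        rw [← h3]
        ring
      rw [h2, fc]
      ring
    show ∑ k ∈ U.support, U.coeff k * fc G ((j + k : ℕ) : ℤ) = _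
    rw [Finset.sum_congr rfl h1, ← Finset.mul_sum, ← intervalIntegral.integral_finsetSum]
    · rw [fc]
      congr 1
      refine intervalIntegral.integral_congr fun t _ => ?_
      have h4 : ∑ k ∈ U.support, U.coeff k * e' t ^ k = U.eval (e' t) := by
        rw [Polynomial.eval_eq_sum, Polynomial.sum_def]
      have h5 : b.eval (Complex.exp ((t : ℂ) * Complex.I)) = U.eval (e' t) * G t := by
        rw [hG, he]
        exact (mul_div_cancel₀ _ (hUne t)).symm
      rw [← Finset.sum_mul, ← Finset.sum_mul, h4, h5]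
    · intro k _
      refine Continuous.intervalIntegrable ?_ _ _
      exact ((continuous_const.mul (hec'.pow k)).mul hGc).mul (by fun_prop)
  · -- the first bound
    intro n
    refine (E2_nat hGc n).trans ?_
    have h1 : ∀ t, ‖G t‖ ^ 2 ≤ ‖b.eval (e t)‖ ^ 2 / A ^ 2 := fun t => by
      rw [hG]
      simp only
      rw [norm_div, div_pow]
      exact div_le_div_of_nonneg_left (by positivity) (by positivity)
        (pow_le_pow_left₀ hA.le (hUA t) 2)
    refine (E2_int (f := fun t => ‖G t‖ ^ 2) (g := fun t => ‖b.eval (e t)‖ ^ 2 / A ^ 2)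
      (hGc.norm.pow 2) ((hbc.norm.pow 2).div_const _) h1).trans (le_of_eq ?_)
    rw [intervalIntegral.integral_div, ← hb1]
    ring
  · -- the second bound
    intro n
    have h0 : ∀ k ∈ range n, ‖(k : ℂ) * fc G (k : ℤ)‖ ^ (2 : ℝ) = ‖fc G' (k : ℤ)‖ ^ (2 : ℝ) := by
      intro k _
      rw [E1b hGd hGc' hper]
      congr 1
      rw [norm_mul, norm_mul, norm_mul, Complex.norm_I, one_mul]
      simp
    rw [Finset.sum_congr rfl h0]
    refine (E2_nat hGc' n).trans ?_
    have h1 : ∀ t, ‖G' t‖ ^ 2 ≤ (1 + C₁) * (‖b.derivative.eval (e t)‖ ^ 2 +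
        C₁ * (N : ℝ) ^ 2 * ‖b.eval (e t)‖ ^ 2) / A ^ 2 := fun t => by
      have hu := hUA t
      have hu0 : 0 < ‖U.eval (e' t)‖ := lt_of_lt_of_le hA hu
      have h2 : ‖G' t‖ ≤ (‖b.derivative.eval (e t)‖ + C₁ * N * ‖b.eval (e t)‖) / A := by
        have h3 : G' t = b.derivative.eval (e t) * (e t * Complex.I) / U.eval (e' t) -
            b.eval (e t) * (U.derivative.eval (e' t) * (e' t * -Complex.I)) / U.eval (e' t) ^ 2 := by
          rw [hG']
          simp only
          have := hUne t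
          field_simp
        rw [h3]
        refine (norm_sub_le _ _).trans ?_
        rw [add_div]
        refine add_le_add ?_ ?_
        · rw [norm_div, norm_mul, norm_mul, hen, Complex.norm_I, mul_one, mul_one]
          exact div_le_div_of_nonneg_left (norm_nonneg _) hA hu
        · rw [norm_div, norm_mul, norm_mul, norm_mul, hen', norm_neg, Complex.norm_I, mul_one,
            mul_one, norm_pow]
          have h4 := hU2 _ (hen' t)
          calc ‖b.eval (e t)‖ * ‖U.derivative.eval (e' t)‖ / ‖U.eval (e' t)‖ ^ 2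
              ≤ ‖b.eval (e t)‖ * (C₁ * N * A) / A ^ 2 := by
                refine div_le_div₀ (by positivity)
                  (mul_le_mul_of_nonneg_left h4 (norm_nonneg _)) (by positivity)
                  (pow_le_pow_left₀ hA.le hu 2)
            _ = C₁ * N * ‖b.eval (e t)‖ / A := by
                field_simp
      calc ‖G' t‖ ^ 2 ≤ ((‖b.derivative.eval (e t)‖ + C₁ * N * ‖b.eval (e t)‖) / A) ^ 2 :=
            pow_le_pow_left₀ (norm_nonneg _) h2 2
        _ = (‖b.derivative.eval (e t)‖ + C₁ * N * ‖b.eval (e t)‖) ^ 2 / A ^ 2 := by rw [div_pow]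
        _ ≤ _ := div_le_div_of_nonneg_right (E2_real hC₁) (by positivity)
    have hcont : Continuous fun t => (1 + C₁) * (‖b.derivative.eval (e t)‖ ^ 2 +
        C₁ * (N : ℝ) ^ 2 * ‖b.eval (e t)‖ ^ 2) / A ^ 2 :=
      (continuous_const.mul ((hbc'.norm.pow 2).add
        (continuous_const.mul (hbc.norm.pow 2)))).div_const _
    refine (E2_int (hGc'.norm.pow 2) hcont h1).trans ?_
    have hI1 : Continuous fun t => ‖b.derivative.eval (e t)‖ ^ 2 := hbc'.norm.pow 2
    have hI2 : Continuous fun t => C₁ * (N : ℝ) ^ 2 * ‖b.eval (e t)‖ ^ 2 :=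
      continuous_const.mul (hbc.norm.pow 2)
    rw [intervalIntegral.integral_div, intervalIntegral.integral_const_mul,
      intervalIntegral.integral_add (hI1.intervalIntegrable _ _) (hI2.intervalIntegrable _ _),
      intervalIntegral.integral_const_mul]
    have hb2 : (1 / (2 * Real.pi)) * ∫ t in (0 : ℝ)..(2 * Real.pi),
        ‖b.derivative.eval (e t)‖ ^ 2 = Sn 2 b.derivative := by
      rw [he]
      exact E1d b.derivative
    have hS := E2_deriv_Sn b hb
    have hS0 := Sn_nonneg 2 b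
    calc (1 / (2 * Real.pi)) * ((1 + C₁) * ((∫ t in (0 : ℝ)..(2 * Real.pi),
          ‖b.derivative.eval (e t)‖ ^ 2) + C₁ * (N : ℝ) ^ 2 *
            ∫ t in (0 : ℝ)..(2 * Real.pi), ‖b.eval (e t)‖ ^ 2) / A ^ 2)
        = (1 + C₁) * ((1 / (2 * Real.pi)) * (∫ t in (0 : ℝ)..(2 * Real.pi),
          ‖b.derivative.eval (e t)‖ ^ 2) + C₁ * (N : ℝ) ^ 2 *
            ((1 / (2 * Real.pi)) * ∫ t in (0 : ℝ)..(2 * Real.pi), ‖b.eval (e t)‖ ^ 2)) / A ^ 2 := by
          ring
      _ = (1 + C₁) * (Sn 2 b.derivative + C₁ * (N : ℝ) ^ 2 * Sn 2 b) / A ^ 2 := by rw [hb1, hb2]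
      _ ≤ (1 + C₁) * ((N : ℝ) ^ 2 * Sn 2 b + C₁ * (N : ℝ) ^ 2 * Sn 2 b) / A ^ 2 := by
          gcongr
      _ = ((1 + C₁) * N / A) ^ 2 * Sn 2 b := by
          field_simp

end DC8965.BT
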