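import Pool.Agent.Lib.MP_dc8965_an.BT.Basic

open Finset Polynomial

namespace DC8965.BT

private theorem E3_w {N : ℕ} (hN : 0 < N) (m : ℕ) :
    ∑ n ∈ range m, (1 + (n : ℝ) ^ 2 / (N : ℝ) ^ 2)⁻¹ ≤ 3 * (N : ℝ) := by
  have hN' : (0 : ℝ) < N := by exact_mod_cast hN
  have hsub : range m ⊆ range N ∪ Ioo (N - 1) m := by
    intro n hn
    rw [mem_range] at hn
    rw [mem_union, mem_range, mem_Ioo]
    omega
  have hpos : ∀ n : ℕ, (0 : ℝ) < 1 + (n : ℝ) ^ 2 / (N : ℝ) ^ 2 := fun n => by positivity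
  have hdisj : Disjoint (range N) (Ioo (N - 1) m) := by
    rw [Finset.disjoint_left]
    intro n hn hn2
    rw [mem_range] at hn
    rw [mem_Ioo] at hn2
    omega
  calc ∑ n ∈ range m, (1 + (n : ℝ) ^ 2 / (N : ℝ) ^ 2)⁻¹
      ≤ ∑ n ∈ range N ∪ Ioo (N - 1) m, (1 + (n : ℝ) ^ 2 / (N : ℝ) ^ 2)⁻¹ :=
        sum_le_sum_of_subset_of_nonneg hsub fun n _ _ => (inv_pos.mpr (hpos n)).le
    _ = ∑ n ∈ range N, (1 + (n : ℝ) ^ 2 / (N : ℝ) ^ 2)⁻¹ +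
        ∑ n ∈ Ioo (N - 1) m, (1 + (n : ℝ) ^ 2 / (N : ℝ) ^ 2)⁻¹ := sum_union hdisj
    _ ≤ ∑ _n ∈ range N, (1 : ℝ) + ∑ n ∈ Ioo (N - 1) m, (N : ℝ) ^ 2 * ((n : ℝ) ^ 2)⁻¹ := by
        apply add_le_add
        · refine sum_le_sum fun n _ => ?_
          apply inv_le_one_of_one_le₀
          have : (0 : ℝ) ≤ (n : ℝ) ^ 2 / (N : ℝ) ^ 2 := by positivity
          linarith
        · refine sum_le_sum fun n hn => ?_
          rw [mem_Ioo] at hn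
          have hn0 : (0 : ℝ) < n := by
            have : 0 < n := by omega
            exact_mod_cast this
          have h1 : (N : ℝ) ^ 2 * ((n : ℝ) ^ 2)⁻¹ = ((n : ℝ) ^ 2 / (N : ℝ) ^ 2)⁻¹ := by
            rw [inv_div, div_eq_mul_inv]
          rw [h1]
          apply inv_anti₀ (by positivity)
          linarith
    _ = N + (N : ℝ) ^ 2 * ∑ n ∈ Ioo (N - 1) m, ((n : ℝ) ^ 2)⁻¹ := by
        rw [sum_const, card_range, nsmul_eq_mul, mul_one, mul_sum]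
    _ ≤ N + (N : ℝ) ^ 2 * (2 / N) := by
        have h1 := sum_Ioo_inv_sq_le (α := ℝ) (N - 1) m
        have h2 : ((N - 1 : ℕ) : ℝ) + 1 = N := by
          have : N - 1 + 1 = N := by omega
          exact_mod_cast this
        rw [h2] at h1
        have h3 : (0 : ℝ) ≤ (N : ℝ) ^ 2 := by positivity
        have h4 := mul_le_mul_of_nonneg_left h1 h3
        linarith
    _ = 3 * N := by
        field_simp
        ring

/-- (E3) Hoelder with a weight.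

Proof. Let `w_n = 1 + n²/N²`. `∑_{n<m} w_n ‖y_n‖² ≤ 2D²`. Hoelder with exponents `2/p` and `2/(2-p)`
(`Real.inner_le_Lp_mul_Lq`): `∑_{n<m} ‖y_n‖^p = ∑ (w_n ‖y_n‖²)^{p/2} w_n^{-p/2}
≤ (2D²)^{p/2} (∑ w_n^{-p/(2-p)})^{(2-p)/2} ≤ (2D²)^{p/2} (∑ 1/w_n)^{(2-p)/2}` as `p/(2-p) ≥ 1`, `w_n ≥ 1`.
`∑_n 1/w_n ≤ N + ∑_{n ≥ N} N²/n² ≤ 3N` (for `n ≥ N`: `1/w_n ≤ N²/n²`, `∑_{n≥N} 1/n² ≤ 2/N`). So the sum is at
most `2^{p/2} 3^{(2-p)/2} N^{(2-p)/2} D^p ≤ (3 N^{1/p-1/2} D)^p` (`(2-p)/2 = p (1/p - 1/2)`).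
Summability: `2‖y_n‖ ≤ (1+n²)‖y_n‖² + 1/(1+n²)` and both are summable. -/
theorem E3 {p : ℝ} (hp1 : 1 < p) (hp2 : p < 2) {N : ℕ} (hN : 0 < N) (y : ℕ → ℂ) {D : ℝ}
    (hD : 0 ≤ D) (h1 : Sle 2 y (D ^ 2)) (h2 : Sle 2 (fun n => (n : ℂ) * y n) ((N * D) ^ 2)) :
    (Summable fun n => ‖y n‖) ∧ Sle p y ((3 * (N : ℝ) ^ (1 / p - 1 / 2) * D) ^ p) := by
  have hN' : (0 : ℝ) < N := by exact_mod_cast hN
  have hp0 : (0 : ℝ) < p := by linarith
  have hq0 : (0 : ℝ) < 2 - p := by linarith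
  have e1 : ∀ m : ℕ, ∑ n ∈ range m, ‖y n‖ ^ 2 ≤ D ^ 2 := by
    intro m
    have h := h1 m
    simpa only [Real.rpow_two] using h
  have e2 : ∀ m : ℕ, ∑ n ∈ range m, (n : ℝ) ^ 2 * ‖y n‖ ^ 2 ≤ (N * D) ^ 2 := by
    intro m
    have h := h2 m
    simpa only [Real.rpow_two, norm_mul, Complex.norm_natCast, mul_pow] using h
  constructor
  · have s1 : Summable fun n => ‖y n‖ ^ 2 :=
      summable_of_sum_range_le (fun _ => by positivity) e1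
    have s2 : Summable fun n : ℕ => (n : ℝ) ^ 2 * ‖y n‖ ^ 2 :=
      summable_of_sum_range_le (fun _ => by positivity) e2
    have s3 : Summable fun n : ℕ => 2 * (1 / ((n + 1 : ℕ) : ℝ) ^ 2) :=
      ((summable_nat_add_iff 1).mpr (Real.summable_one_div_nat_pow.mpr one_lt_two)).mul_left 2
    refine Summable.of_nonneg_of_le (fun _ => norm_nonneg _) (fun n => ?_) ((s1.add s2).add s3)
    have h3 : (0 : ℝ) < 1 + (n : ℝ) ^ 2 := by positivity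
    have h4 : 1 / (1 + (n : ℝ) ^ 2) ≤ 2 * (1 / ((n + 1 : ℕ) : ℝ) ^ 2) := by
      push_cast
      rw [mul_one_div, div_le_div_iff₀ h3 (by positivity)]
      nlinarith [sq_nonneg ((n : ℝ) - 1)]
    have h5 : ‖y n‖ ≤ (1 + (n : ℝ) ^ 2) * ‖y n‖ ^ 2 + 1 / (1 + (n : ℝ) ^ 2) := by
      have h6 : 0 ≤ ((1 + (n : ℝ) ^ 2) * ‖y n‖ - 1) ^ 2 / (1 + (n : ℝ) ^ 2) := by positivity
      have h7 : ((1 + (n : ℝ) ^ 2) * ‖y n‖ - 1) ^ 2 / (1 + (n : ℝ) ^ 2) =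
          (1 + (n : ℝ) ^ 2) * ‖y n‖ ^ 2 - 2 * ‖y n‖ + 1 / (1 + (n : ℝ) ^ 2) := by
        field_simp
        ring
      rw [h7] at h6
      have h8 := norm_nonneg (y n)
      linarith
    calc ‖y n‖ ≤ (1 + (n : ℝ) ^ 2) * ‖y n‖ ^ 2 + 1 / (1 + (n : ℝ) ^ 2) := h5
      _ = ‖y n‖ ^ 2 + (n : ℝ) ^ 2 * ‖y n‖ ^ 2 + 1 / (1 + (n : ℝ) ^ 2) := by ring
      _ ≤ ‖y n‖ ^ 2 + (n : ℝ) ^ 2 * ‖y n‖ ^ 2 + 2 * (1 / ((n + 1 : ℕ) : ℝ) ^ 2) := by linarith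
  · intro m
    have hw1 : ∀ n : ℕ, (1 : ℝ) ≤ 1 + (n : ℝ) ^ 2 / (N : ℝ) ^ 2 := fun n => by
      have : (0 : ℝ) ≤ (n : ℝ) ^ 2 / (N : ℝ) ^ 2 := by positivity
      linarith
    have hw0 : ∀ n : ℕ, (0 : ℝ) < 1 + (n : ℝ) ^ 2 / (N : ℝ) ^ 2 := fun n => by positivity
    have e3 : ∑ n ∈ range m, (1 + (n : ℝ) ^ 2 / (N : ℝ) ^ 2) * ‖y n‖ ^ 2 ≤ 2 * D ^ 2 := by
      have h3 : ∑ n ∈ range m, (1 + (n : ℝ) ^ 2 / (N : ℝ) ^ 2) * ‖y n‖ ^ 2 =
          ∑ n ∈ range m, ‖y n‖ ^ 2 + (∑ n ∈ range m, (n : ℝ) ^ 2 * ‖y n‖ ^ 2) / (N : ℝ) ^ 2 := by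
        rw [sum_div, ← sum_add_distrib]
        exact sum_congr rfl fun n _ => by ring
      rw [h3]
      have h4 : (∑ n ∈ range m, (n : ℝ) ^ 2 * ‖y n‖ ^ 2) / (N : ℝ) ^ 2 ≤ D ^ 2 := by
        rw [div_le_iff₀ (by positivity)]
        have h5 := e2 m
        rw [mul_pow] at h5
        linarith
      have h6 := e1 m
      linarith
    have hpq : (2 / p).HolderConjugate (2 / (2 - p)) := by
      rw [Real.holderConjugate_iff]
      constructor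
      · rw [lt_div_iff₀ hp0]
        linarith
      · rw [inv_div, inv_div]
        ring
    have h3 := Real.inner_le_Lp_mul_Lq_of_nonneg (range m) hpq
      (f := fun n => ((1 + (n : ℝ) ^ 2 / (N : ℝ) ^ 2) * ‖y n‖ ^ 2) ^ (p / 2))
      (g := fun n => (1 + (n : ℝ) ^ 2 / (N : ℝ) ^ 2) ^ (-(p / 2)))
      (fun n _ => by positivity) (fun n _ => by positivity)
    have h4 : ∀ n : ℕ, ((1 + (n : ℝ) ^ 2 / (N : ℝ) ^ 2) * ‖y n‖ ^ 2) ^ (p / 2) *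
        (1 + (n : ℝ) ^ 2 / (N : ℝ) ^ 2) ^ (-(p / 2)) = ‖y n‖ ^ p := by
      intro n
      rw [Real.mul_rpow (hw0 n).le (by positivity), mul_right_comm, ← Real.rpow_add (hw0 n),
        add_neg_cancel, Real.rpow_zero, one_mul, ← Real.rpow_natCast, ← Real.rpow_mul (norm_nonneg _)]
      congr 1
      push_cast
      ring
    have h5 : ∀ n : ℕ, (((1 + (n : ℝ) ^ 2 / (N : ℝ) ^ 2) * ‖y n‖ ^ 2) ^ (p / 2)) ^ (2 / p) =
        (1 + (n : ℝ) ^ 2 / (N : ℝ) ^ 2) * ‖y n‖ ^ 2 := by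
      intro n
      rw [← Real.rpow_mul (by positivity)]
      have : p / 2 * (2 / p) = 1 := by field_simp
      rw [this, Real.rpow_one]
    have h6 : ∀ n : ℕ, ((1 + (n : ℝ) ^ 2 / (N : ℝ) ^ 2) ^ (-(p / 2))) ^ (2 / (2 - p)) ≤
        (1 + (n : ℝ) ^ 2 / (N : ℝ) ^ 2)⁻¹ := by
      intro n
      rw [← Real.rpow_mul (hw0 n).le, ← Real.rpow_neg_one]
      apply Real.rpow_le_rpow_of_exponent_le (hw1 n)
      have h7 : -(p / 2) * (2 / (2 - p)) = -(p / (2 - p)) := by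
        field_simp
      rw [h7, neg_le_neg_iff, le_div_iff₀ hq0]
      linarith
    have h7 : 1 / (2 / p) = p / 2 := by rw [one_div, inv_div]
    have h8 : 1 / (2 / (2 - p)) = (2 - p) / 2 := by rw [one_div, inv_div]
    rw [sum_congr rfl (fun n _ => h4 n), sum_congr rfl (fun n _ => h5 n), h7, h8] at h3
    have h9 : (∑ n ∈ range m, (1 + (n : ℝ) ^ 2 / (N : ℝ) ^ 2) * ‖y n‖ ^ 2) ^ (p / 2) ≤
        (2 * D ^ 2) ^ (p / 2) :=
      Real.rpow_le_rpow (sum_nonneg fun n _ => by positivity) e3 (by positivity)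
    have h10 : (∑ n ∈ range m, ((1 + (n : ℝ) ^ 2 / (N : ℝ) ^ 2) ^ (-(p / 2))) ^ (2 / (2 - p))) ^
        ((2 - p) / 2) ≤ (3 * (N : ℝ)) ^ ((2 - p) / 2) :=
      Real.rpow_le_rpow (sum_nonneg fun n _ => by positivity)
        ((sum_le_sum fun n _ => h6 n).trans (E3_w hN m)) (by linarith)
    have h11 : (D ^ 2 : ℝ) ^ (p / 2) = D ^ p := by
      rw [← Real.rpow_natCast, ← Real.rpow_mul hD]
      congr 1
      push_cast
      ring
    have h12 : ((N : ℝ) ^ (1 / p - 1 / 2)) ^ p = (N : ℝ) ^ ((2 - p) / 2) := by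
      rw [← Real.rpow_mul hN'.le]
      congr 1
      field_simp
    calc ∑ n ∈ range m, ‖y n‖ ^ p ≤ _ := h3
      _ ≤ (2 * D ^ 2) ^ (p / 2) * (3 * (N : ℝ)) ^ ((2 - p) / 2) :=
          mul_le_mul h9 h10 (by positivity) (by positivity)
      _ = (2 : ℝ) ^ (p / 2) * (3 : ℝ) ^ ((2 - p) / 2) * ((N : ℝ) ^ ((2 - p) / 2) * D ^ p) := by
          rw [Real.mul_rpow (by norm_num) (by positivity), Real.mul_rpow (by norm_num) hN'.le, h11]
          ring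
      _ ≤ (3 : ℝ) ^ p * ((N : ℝ) ^ ((2 - p) / 2) * D ^ p) := by
          apply mul_le_mul_of_nonneg_right _ (by positivity)
          calc (2 : ℝ) ^ (p / 2) * (3 : ℝ) ^ ((2 - p) / 2)
              ≤ (3 : ℝ) ^ (p / 2) * (3 : ℝ) ^ ((2 - p) / 2) := by
                apply mul_le_mul_of_nonneg_right _ (by positivity)
                exact Real.rpow_le_rpow (by norm_num) (by norm_num) (by positivity)
            _ = (3 : ℝ) ^ (1 : ℝ) := by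
                rw [← Real.rpow_add (by norm_num)]
                congr 1
                ring
            _ ≤ (3 : ℝ) ^ p := Real.rpow_le_rpow_of_exponent_le (by norm_num) hp1.le
      _ = (3 * (N : ℝ) ^ (1 / p - 1 / 2) * D) ^ p := by
          rw [Real.mul_rpow (by positivity) hD, Real.mul_rpow (by norm_num) (by positivity), h12]
          ring

end DC8965.BT
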