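import Pool.Agent.Lib.MP_dc8965_an.BT.E2
import Pool.Agent.Lib.MP_dc8965_an.BT.E3

open Finset Polynomial

namespace DC8965.BT

/-- (E4) (E2) and (E3) with `D = (1 + C₁) √(Sn 2 b) / A`. -/
theorem E4 {p : ℝ} (hp1 : 1 < p) (hp2 : p < 2) {N : ℕ} (hN : 0 < N) {A C₁ : ℝ} (hA : 0 < A)
    (hC₁ : 0 ≤ C₁) (U b : ℂ[X])
    (hU1 : ∀ z : ℂ, ‖z‖ = 1 → A ≤ ‖U.eval z‖)
    (hU2 : ∀ z : ℂ, ‖z‖ = 1 → ‖U.derivative.eval z‖ ≤ C₁ * N * A) (hb : b.natDegree ≤ N) :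
    ∃ y : ℕ → ℂ, (Tp U y = fun j => b.coeff j) ∧ (Summable fun n => ‖y n‖) ∧
      Sle p y ((3 * (N : ℝ) ^ (1 / p - 1 / 2) * ((1 + C₁) * √(Sn 2 b) / A)) ^ p) := by
  obtain ⟨y, hy, h1, h2⟩ := E2 hA hC₁ U b hU1 hU2 hb
  have hN' : (0 : ℝ) < N := by exact_mod_cast hN
  have hS := Sn_nonneg 2 b
  set S := Sn 2 b with hSdef
  have hsq : √S ^ 2 = S := Real.sq_sqrt hS
  have hD : 0 ≤ (1 + C₁) * √S / A := by positivity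
  obtain ⟨h3, h4⟩ := E3 hp1 hp2 hN y hD
    (h1.mono (by
      rw [div_pow, mul_pow, hsq]
      apply div_le_div_of_nonneg_right _ (by positivity)
      nlinarith [mul_nonneg hC₁ hS, mul_nonneg (mul_nonneg hC₁ hC₁) hS]))
    (h2.mono (by
      have e : (N * ((1 + C₁) * √S / A)) ^ 2 = ((1 + C₁) * N / A) ^ 2 * (√S ^ 2) := by
        field_simp
      rw [e, hsq]))
  exact ⟨y, hy, h3, h4⟩

end DC8965.BT
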