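import Pool.Agent.Lib.MP_dc8965_an.BT.BDefs
import Pool.Agent.Lib.MP_dc8965_an.BT.D8
import Pool.Agent.Lib.MP_dc8965_an.Abs3

open Finset Polynomial

namespace DC8965.BT

private theorem E5_eval (V : ℂ[X]) {z : ℂ} (hz : ‖z‖ = 1) : ‖V.eval z‖ ≤ N1 V := by
  rw [eval_eq_sum, Polynomial.sum, N1]
  refine (norm_sum_le _ _).trans (sum_le_sum fun k _ => ?_)
  rw [norm_mul, norm_pow, hz, one_pow, mul_one]

private theorem E5_exists_s {p : ℝ} (hp0 : 0 < p) (hp2 : p < 2) {w : ℝ} (hw : 0 < w) (K : ℝ)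
    (M : ℕ) : ∃ s : ℕ, 0 < s ∧ M ≤ s ∧ K ≤ 2 * w * (s : ℝ) ^ (2 / p - 1) := by
  have he : 0 < 2 / p - 1 := by
    have : 1 < 2 / p := by rw [lt_div_iff₀ hp0]; linarith
    linarith
  have h1 : Filter.Tendsto (fun s : ℕ => 2 * w * (s : ℝ) ^ (2 / p - 1)) Filter.atTop
      Filter.atTop :=
    Filter.Tendsto.const_mul_atTop (by positivity)
      ((tendsto_rpow_atTop he).comp tendsto_natCast_atTop_atTop)
  have h2 := (h1.eventually_ge_atTop K).and
    ((Filter.eventually_ge_atTop M).and (Filter.eventually_ge_atTop 1))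
  obtain ⟨s, hs1, hs2, hs3⟩ := h2.exists
  exact ⟨s, hs3, hs2, hs1⟩

private theorem E5_Sn {q C₀ : ℝ} (hq0 : 0 < q) (hC₀ : 1 ≤ C₀) {s : ℕ} (hs : 0 < s) (W : ℂ[X])
    (hW1 : (W.natDegree : ℝ) ≤ C₀ * (s : ℝ) ^ 2) (hW3 : ∀ k, ‖W.coeff k‖ ≤ C₀ / s) :
    Sn q W ≤ (2 * C₀ * (s : ℝ) ^ 2) * (C₀ / s) ^ q := by
  have hs' : (1 : ℝ) ≤ s := by exact_mod_cast hs
  rw [Sn_eq_range hq0 (n := W.natDegree + 1)
    (fun k hk => coeff_eq_zero_of_natDegree_lt (by omega))]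
  calc ∑ k ∈ range (W.natDegree + 1), ‖W.coeff k‖ ^ q
      ≤ ∑ _k ∈ range (W.natDegree + 1), (C₀ / s) ^ q :=
        sum_le_sum fun k _ => Real.rpow_le_rpow (norm_nonneg _) (hW3 k) hq0.le
    _ = ((W.natDegree : ℝ) + 1) * (C₀ / s) ^ q := by
        rw [sum_const, card_range, nsmul_eq_mul]
        push_cast
        ring
    _ ≤ (2 * C₀ * (s : ℝ) ^ 2) * (C₀ / s) ^ q := by
        apply mul_le_mul_of_nonneg_right _ (by positivity)
        have h1 : (1 : ℝ) ≤ C₀ * (s : ℝ) ^ 2 := by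
          have h2 : (1 : ℝ) ≤ (s : ℝ) ^ 2 := one_le_pow₀ hs'
          nlinarith
        linarith

/-- (E5) adding a far flat polynomial of small `ℓ^q` norm and large modulus on the circle.

Proof. `C₀` from (D8); `C₁ = 6 C₀ + 2^{q+1} C₀^{q+1}`. Given `w, V, m, N₀, η₀`, take `s` large, `N = s²`,
`W` from (D8), `A' = 2 w s^{2/p-1}`, `Q = C A' * W`, `A = A'/2 = w s^{2/p-1} = w N^{1/p-1/2}`. Let
`s₀ = V + X^m Q`; it has degree `≥ m ≥ 1` (`V` has degree `< m`, `Q ≠ 0`), so its derivative is not zero and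
`DC8965.exists_generic s₀ _ {0}` (with `δ = min η₀ 1`) gives `η` with `U = s₀ + C η` not zero at `0`, with
simple roots, `U ≠ 0`. On the circle `‖U‖ ≥ A' - N1 V - 1 ≥ A'/2` as soon as `A' ≥ 2 N1 V + 2`
(`A' → ∞` since `p < 2`), `‖U'‖ ≤ N1 V' + A' (m C₀ + C₀ s²) ≤ A' (1 + 2 C₀ s²) ≤ 6 C₀ N A` when
`A' ≥ N1 V'`, `s² ≥ m` (derivative of `X^m W`: `m z^{m-1} W + z^m W'`).
`Sn q (X^m Q) = A'^q Sn q W ≤ (2w)^q s^{(2/p-1)q} (C₀ s² + 1) (C₀/s)^q ≤ 2^{q+1} C₀^{q+1} w^q`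
because `(2/p - 1) q + 2 - q = 2(q/p) - 2q + 2 = 0` (`q/p = q - 1`). -/
theorem E5 {p q : ℝ} (hpq : p.HolderConjugate q) (hp2 : p < 2) :
    ∃ C₁ : ℝ, 1 ≤ C₁ ∧ ∀ (w : ℝ), 0 < w → ∀ (V : ℂ[X]) (m N₀ : ℕ) (η₀ : ℝ), 0 < η₀ →
      V.natDegree < m → ∃ (N : ℕ) (A : ℝ) (η : ℂ) (Q : ℂ[X]), N₀ ≤ N ∧ 0 < N ∧ 0 < A ∧
        w * (N : ℝ) ^ (1 / p - 1 / 2) ≤ A ∧ ‖η‖ < η₀ ∧ Sn q (X ^ m * Q) ≤ C₁ * w ^ q ∧
        (V + X ^ m * Q + C η ≠ 0) ∧ (V + X ^ m * Q + C η).roots.Nodup ∧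
        (V + X ^ m * Q + C η).eval 0 ≠ 0 ∧
        ∀ z : ℂ, ‖z‖ = 1 → A ≤ ‖(V + X ^ m * Q + C η).eval z‖ ∧
          ‖(V + X ^ m * Q + C η).derivative.eval z‖ ≤ C₁ * N * A := by
  obtain ⟨C₀, hC₀, hD8⟩ := D8
  have hp1 : 1 < p := hpq.lt
  have hp0 : 0 < p := by linarith
  have hq1 : 1 < q := hpq.symm.lt
  have hq0 : 0 < q := by linarith
  have hmul : (p - 1) * q = p := hpq.sub_one_mul_conj
  refine ⟨6 * C₀ + 2 ^ (q + 1) * C₀ ^ (q + 1), ?_, ?_⟩
  · have : (0 : ℝ) ≤ 2 ^ (q + 1) * C₀ ^ (q + 1) := by positivity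
    linarith
  intro w hw V m N₀ η₀ hη₀ hVm
  obtain ⟨s, hs, hsM, hsK⟩ := E5_exists_s hp0 hp2 hw (2 * N1 V + 2 + N1 V.derivative) (N₀ + m)
  obtain ⟨W, hW1, hW2, hW3⟩ := hD8 s hs
  have hs' : (1 : ℝ) ≤ s := by exact_mod_cast hs
  have hs0 : (0 : ℝ) < s := by linarith
  have hN1 := N1_nonneg V
  have hN1' := N1_nonneg V.derivative
  set A' : ℝ := 2 * w * (s : ℝ) ^ (2 / p - 1) with hA'
  have hA'0 : 0 < A' := by positivity
  have hA'ne : (A' : ℂ) ≠ 0 := by exact_mod_cast hA'0.ne'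
  have hnA' : ‖(A' : ℂ)‖ = A' := by
    rw [Complex.norm_real, Real.norm_eq_abs, abs_of_pos hA'0]
  have hWne : W ≠ 0 := by
    intro h
    have h1 := (hW2 1 norm_one).1
    rw [h, eval_zero, norm_zero] at h1
    linarith
  set Q : ℂ[X] := C (A' : ℂ) * W with hQ
  have hQne : Q ≠ 0 := mul_ne_zero (C_ne_zero.mpr hA'ne) hWne
  have hder : (V + X ^ m * Q).derivative ≠ 0 := by
    intro h
    have h1 := Polynomial.derivative_eq_zero.mp h
    have h2 : (V + X ^ m * Q).coeff (m + Q.natDegree) = Q.leadingCoeff := by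
      rw [coeff_add, coeff_eq_zero_of_natDegree_lt (by omega), zero_add, coeff_X_pow_mul',
        if_pos (Nat.le_add_right _ _), Nat.add_sub_cancel_left, leadingCoeff]
    have h3 : (V + X ^ m * Q).coeff (m + Q.natDegree) = 0 :=
      coeff_eq_zero_of_natDegree_lt (by omega)
    rw [h3] at h2
    exact leadingCoeff_ne_zero.mpr hQne h2.symm
  obtain ⟨η, hη1, hη2, hη3, hη4⟩ := DC8965.exists_generic (V + X ^ m * Q) hder {0}
    (lt_min hη₀ one_pos)
  have hms : (m : ℝ) ≤ (s : ℝ) ^ 2 := by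
    have h1 : (m : ℝ) ≤ s := by
      have : m ≤ s := by omega
      exact_mod_cast this
    nlinarith
  refine ⟨s ^ 2, A' / 2, η, Q, ?_, by positivity, by positivity, ?_,
    hη1.trans_le (min_le_left _ _), ?_, hη4, hη3, hη2 0 (mem_singleton_self _), ?_⟩
  · nlinarith
  · have h1 : (((s ^ 2 : ℕ) : ℝ)) ^ (1 / p - 1 / 2) = (s : ℝ) ^ (2 / p - 1) := by
      push_cast
      rw [← Real.rpow_natCast, ← Real.rpow_mul hs0.le]
      congr 1
      push_cast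
      ring
    rw [h1, hA']
    apply le_of_eq
    ring
  · rw [Sn_X_pow_mul, hQ, Sn_C_mul hq0, hnA']
    have h1 : (s : ℝ) ^ ((2 / p - 1) * q) * (s : ℝ) ^ 2 = (s : ℝ) ^ q := by
      rw [← Real.rpow_natCast, ← Real.rpow_add hs0]
      congr 1
      push_cast
      field_simp
      linear_combination (-2) * hmul
    have h2 : A' ^ q = 2 ^ q * w ^ q * (s : ℝ) ^ ((2 / p - 1) * q) := by
      rw [hA', Real.mul_rpow (by positivity) (by positivity), Real.mul_rpow (by norm_num) hw.le,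
        ← Real.rpow_mul hs0.le]
    have h3 : (s : ℝ) ^ q ≠ 0 := (Real.rpow_pos_of_pos hs0 q).ne'
    calc A' ^ q * Sn q W ≤ A' ^ q * ((2 * C₀ * (s : ℝ) ^ 2) * (C₀ / s) ^ q) :=
          mul_le_mul_of_nonneg_left (E5_Sn hq0 hC₀ hs W hW1 hW3) (by positivity)
      _ = (2 ^ q * 2) * (C₀ ^ q * C₀) * w ^ q *
          (((s : ℝ) ^ ((2 / p - 1) * q) * (s : ℝ) ^ 2) / (s : ℝ) ^ q) := by
          rw [h2, Real.div_rpow (by linarith) hs0.le]
          ring
      _ = 2 ^ (q + 1) * C₀ ^ (q + 1) * w ^ q := by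
          rw [h1, div_self h3, mul_one, Real.rpow_add (by norm_num) q 1,
            Real.rpow_add (by linarith) q 1, Real.rpow_one, Real.rpow_one]
      _ ≤ (6 * C₀ + 2 ^ (q + 1) * C₀ ^ (q + 1)) * w ^ q := by
          apply mul_le_mul_of_nonneg_right _ (by positivity)
          linarith
  · intro z hz
    obtain ⟨hz1, hz2, hz3⟩ := hW2 z hz
    have hη5 : ‖η‖ ≤ 1 := (hη1.trans_le (min_le_right _ _)).le
    constructor
    · have h1 : (V + X ^ m * Q + C η).eval z = z ^ m * (A' * W.eval z) + (V.eval z + η) := by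
        simp only [eval_add, eval_mul, eval_pow, eval_X, eval_C, hQ]
        ring
      have h2 : ‖z ^ m * (A' * W.eval z)‖ = A' * ‖W.eval z‖ := by
        rw [norm_mul, norm_mul, norm_pow, hz, one_pow, one_mul, hnA']
      have h3 : ‖V.eval z + η‖ ≤ N1 V + 1 := (norm_add_le _ _).trans (add_le_add (E5_eval V hz) hη5)
      have h4 : ‖z ^ m * (A' * W.eval z)‖ - ‖V.eval z + η‖ ≤
          ‖z ^ m * (A' * W.eval z) + (V.eval z + η)‖ := by
        have := norm_sub_norm_le (z ^ m * (A' * W.eval z)) (-(V.eval z + η))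
        rwa [norm_neg, sub_neg_eq_add] at this
      rw [h1]
      rw [h2] at h4
      have h5 : A' ≤ A' * ‖W.eval z‖ := le_mul_of_one_le_right hA'0.le hz1
      linarith
    · have h1 : (V + X ^ m * Q + C η).derivative.eval z =
          V.derivative.eval z + (m * z ^ (m - 1) * (A' * W.eval z) +
            z ^ m * (A' * W.derivative.eval z)) := by
        simp only [hQ, derivative_add, derivative_mul, derivative_C, derivative_X_pow, eval_add,
          eval_mul, eval_pow, eval_X, eval_C, eval_natCast, zero_mul, add_zero, zero_add, map_natCast]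
      have h2 : ‖(m : ℂ) * z ^ (m - 1) * (A' * W.eval z)‖ ≤ m * (A' * C₀) := by
        rw [norm_mul, norm_mul, norm_mul, norm_pow, hz, one_pow, mul_one, hnA',
          Complex.norm_natCast]
        gcongr
      have h3 : ‖z ^ m * (A' * W.derivative.eval z)‖ ≤ A' * (C₀ * (s : ℝ) ^ 2) := by
        rw [norm_mul, norm_mul, norm_pow, hz, one_pow, one_mul, hnA']
        gcongr
      have h4 := E5_eval V.derivative hz
      have h5 : (1 : ℝ) ≤ (s : ℝ) ^ 2 := one_le_pow₀ hs'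
      rw [h1]
      calc ‖V.derivative.eval z + ((m : ℂ) * z ^ (m - 1) * (A' * W.eval z) +
            z ^ m * (A' * W.derivative.eval z))‖
          ≤ N1 V.derivative + (m * (A' * C₀) + A' * (C₀ * (s : ℝ) ^ 2)) :=
            (norm_add_le _ _).trans (add_le_add h4 ((norm_add_le _ _).trans (add_le_add h2 h3)))
        _ ≤ A' + ((s : ℝ) ^ 2 * (A' * C₀) + A' * (C₀ * (s : ℝ) ^ 2)) := by
            gcongr
            linarith
        _ ≤ A' * (C₀ * (s : ℝ) ^ 2) + ((s : ℝ) ^ 2 * (A' * C₀) + A' * (C₀ * (s : ℝ) ^ 2)) := by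
            gcongr
            have h6 : (1 : ℝ) ≤ C₀ * (s : ℝ) ^ 2 := by nlinarith
            exact le_mul_of_one_le_right hA'0.le h6
        _ = 6 * C₀ * ((s ^ 2 : ℕ) : ℝ) * (A' / 2) := by
            push_cast
            ring
        _ ≤ (6 * C₀ + 2 ^ (q + 1) * C₀ ^ (q + 1)) * ((s ^ 2 : ℕ) : ℝ) * (A' / 2) := by
            gcongr
            have : (0 : ℝ) ≤ 2 ^ (q + 1) * C₀ ^ (q + 1) := by positivity
            linarith

end DC8965.BT
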