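import Pool.Agent.Lib.MP_dc8965_an.BT.E4
import Pool.Agent.Lib.MP_dc8965_an.BT.E5

open Finset Polynomial

namespace DC8965.BT

/-- (E6) an approximate solution becomes an exact one.

Proof. `C₁` from (E5). Choose `w > 0` with `C₁ w^q ≤ ε/2` and then `δ > 0` with
`(6 (1 + C₁) √δ / w)^p ≤ ε`. Given `V, g`: choose `m` larger than the degrees of `V` and of all `g i`
(and `m ≥ 1`), `N₀ = m`, `η₀ > 0` with `η₀^q ≤ ε/2` and `η₀² Sn 2 (g i) ≤ δ` for all `i`; take `N, A, η, Q`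
from (E5), `U = V + X^m Q + C η`. `Sn q (U - V) ≤ ‖η‖^q + Sn q (X^m Q) ≤ ε` (disjoint supports).
Let `b i = ∑_{j<m} monomial j (Tp (V + C η) (g i).coeff j)` (degree `≤ N`), so `(b i).coeff =
Tp (V + C η) (g i).coeff` (`Tp_eq_zero_of_ge`) and, by Minkowski (`Sle.add`, `r = 2`, `Tp_C`),
`Sn 2 (b i) ≤ (√δ + η₀ √(Sn 2 (g i)))² ≤ 4δ`. (E4) gives `y i` with `Tp U (y i) = (b i).coeff` and
`Sle p (y i) ((3 N^{1/p-1/2} (1+C₁) 2√δ/A)^p)`, at most `(6(1+C₁)√δ/w)^p ≤ ε` since `w N^{1/p-1/2} ≤ A`.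
Put `x i = g i - y i`: `Tp U (g i) = Tp (V + C η) (g i) + Tp (X^m Q) (g i)` and the last term is `0`
(`Tp_eq_zero_of_disjoint`), so `Tp U (x i) = 0`. `x i - g i = - y i`; `x i` is summable. -/
theorem E6 {p q : ℝ} (hpq : p.HolderConjugate q) (hp2 : p < 2) (k : ℕ) {ε : ℝ} (hε : 0 < ε) :
    ∃ δ : ℝ, 0 < δ ∧ ∀ (V : ℂ[X]) (g : Fin k → ℂ[X]),
      (∀ i, Sle 2 (Tp V (fun n => (g i).coeff n)) δ) →
      ∃ (U : ℂ[X]) (x : Fin k → ℕ → ℂ), U ≠ 0 ∧ U.roots.Nodup ∧ U.eval 0 ≠ 0 ∧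
        (∀ i, Tp U (x i) = 0) ∧ Sn q (U - V) ≤ ε ∧
        ∀ i, (Summable fun n => ‖x i n‖) ∧ Sle p (fun n => x i n - (g i).coeff n) ε := by
  classical
  have hp0 : 0 < p := hpq.pos
  have hq0 : 0 < q := hpq.symm.pos
  have hp1 : 1 < p := hpq.lt
  obtain ⟨C₁, hC₁, hE5⟩ := E5 hpq hp2
  have hC₁0 : 0 < C₁ := by linarith
  set w : ℝ := (ε / (2 * C₁)) ^ (1 / q) with hw
  have hw0 : 0 < w := by positivity
  have hwq : C₁ * w ^ q = ε / 2 := by
    rw [hw, ← Real.rpow_mul (by positivity), one_div_mul_cancel hq0.ne', Real.rpow_one]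
    field_simp
  set sd : ℝ := w * ε ^ (1 / p) / (6 * (1 + C₁)) with hsd
  have hsd0 : 0 < sd := by positivity
  have hsdp : (6 * (1 + C₁) * sd / w) ^ p = ε := by
    have h1 : 6 * (1 + C₁) * sd / w = ε ^ (1 / p) := by
      rw [hsd]
      field_simp
    rw [h1, ← Real.rpow_mul hε.le, one_div_mul_cancel hp0.ne', Real.rpow_one]
  refine ⟨sd ^ 2, by positivity, fun V g hg => ?_⟩
  obtain ⟨m, hm1, hmV, hmg⟩ : ∃ m : ℕ, 1 ≤ m ∧ V.natDegree < m ∧ ∀ i, (g i).natDegree < m := by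
    refine ⟨1 + V.natDegree + ∑ i, (g i).natDegree, by omega, by omega, fun i => ?_⟩
    have := Finset.single_le_sum (f := fun i => (g i).natDegree) (fun _ _ => Nat.zero_le _)
      (Finset.mem_univ i)
    omega
  set G : ℝ := 1 + ∑ i, Sn 2 (g i) with hG
  have hG0 : 0 < G := by
    have : 0 ≤ ∑ i, Sn 2 (g i) := Finset.sum_nonneg fun i _ => Sn_nonneg _ _
    linarith
  have hGi : ∀ i, Sn 2 (g i) ≤ G := by
    intro i
    have := Finset.single_le_sum (f := fun i => Sn 2 (g i)) (fun i _ => Sn_nonneg _ _)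
      (Finset.mem_univ i)
    linarith
  set η₀ : ℝ := min ((ε / 2) ^ (1 / q)) (sd / √G) with hη₀
  have hsG : 0 < √G := Real.sqrt_pos.mpr hG0
  have hη₀0 : 0 < η₀ := lt_min (by positivity) (by positivity)
  have hη₀q : η₀ ^ q ≤ ε / 2 := by
    calc η₀ ^ q ≤ ((ε / 2) ^ (1 / q)) ^ q :=
          Real.rpow_le_rpow hη₀0.le (min_le_left _ _) hq0.le
      _ = ε / 2 := by
        rw [← Real.rpow_mul (by positivity), one_div_mul_cancel hq0.ne', Real.rpow_one]
  have hη₀2 : ∀ i, η₀ ^ 2 * Sn 2 (g i) ≤ sd ^ 2 := by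
    intro i
    calc η₀ ^ 2 * Sn 2 (g i) ≤ (sd / √G) ^ 2 * G :=
          mul_le_mul (pow_le_pow_left₀ hη₀0.le (min_le_right _ _) 2) (hGi i) (Sn_nonneg _ _)
            (by positivity)
      _ = sd ^ 2 := by
        rw [div_pow, Real.sq_sqrt hG0.le]
        field_simp
  obtain ⟨N, A, η, Q, hN₀, hN, hA, hwA, hη, hSQ, hU0, hUr, hUe, hUc⟩ :=
    hE5 w hw0 V m m η₀ hη₀0 hmV
  have hXQ : ∀ j < m, (X ^ m * Q).coeff j = 0 := by
    intro j hj
    rw [Polynomial.coeff_X_pow_mul', if_neg (by omega)]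
  have hgc : ∀ i j, m ≤ j → (g i).coeff j = 0 := fun i j hj =>
    Polynomial.coeff_eq_zero_of_natDegree_lt ((hmg i).trans_le hj)
  -- the right hand sides
  set b : Fin k → ℂ[X] := fun i =>
    ∑ j ∈ range m, monomial j (Tp (V + C η) (fun n => (g i).coeff n) j) with hb
  have hbc : ∀ i j, (b i).coeff j = Tp (V + C η) (fun n => (g i).coeff n) j := by
    intro i j
    simp only [hb, Polynomial.finsetSum_coeff, Polynomial.coeff_monomial]
    rw [Finset.sum_ite_eq' (range m) j]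
    split_ifs with h
    · rfl
    · rw [Tp_eq_zero_of_ge _ (fun k hk => hgc i k hk) (by simpa using h)]
  have hbN : ∀ i, (b i).natDegree ≤ N := by
    intro i
    rw [Polynomial.natDegree_le_iff_coeff_eq_zero]
    intro j hj
    rw [hbc]
    exact Tp_eq_zero_of_ge _ (fun k hk => hgc i k hk) (by omega)
  have hbS : ∀ i, Sn 2 (b i) ≤ (2 * sd) ^ 2 := by
    intro i
    rw [← Sle_coeff_iff (by norm_num)]
    have h1 : (fun n => (b i).coeff n) =
        fun n => Tp V (fun n => (g i).coeff n) n + (C η * g i).coeff n := by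
      funext n
      rw [hbc, Tp_add_left, Pi.add_apply, Tp_C, Pi.smul_apply, Polynomial.coeff_C_mul, smul_eq_mul]
    rw [h1]
    have h2 : Sle 2 (fun n => (C η * g i).coeff n) (sd ^ (2 : ℝ)) := by
      rw [Sle_coeff_iff (by norm_num), Sn_C_mul (by norm_num), Real.rpow_two, Real.rpow_two]
      refine le_trans ?_ (hη₀2 i)
      exact mul_le_mul_of_nonneg_right (pow_le_pow_left₀ (norm_nonneg _) hη.le 2) (Sn_nonneg _ _)
    have h3 : Sle 2 (Tp V (fun n => (g i).coeff n)) (sd ^ (2 : ℝ)) := by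
      rw [Real.rpow_two]
      exact hg i
    have h4 := Sle.add (r := 2) (by norm_num) hsd0.le hsd0.le h3 h2
    have h5 : (sd + sd) ^ (2 : ℝ) = (2 * sd) ^ 2 := by
      rw [Real.rpow_two]
      ring
    rw [h5] at h4
    exact h4
  -- solve
  have hE4 : ∀ i, ∃ y : ℕ → ℂ, (Tp (V + X ^ m * Q + C η) y = fun j => (b i).coeff j) ∧
      (Summable fun n => ‖y n‖) ∧ Sle p y ε := by
    intro i
    obtain ⟨y, h1, h2, h3⟩ := E4 hp1 hp2 hN hA hC₁0.le (V + X ^ m * Q + C η) (b i)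
      (fun z hz => (hUc z hz).1) (fun z hz => (hUc z hz).2) (hbN i)
    refine ⟨y, h1, h2, h3.mono ?_⟩
    rw [← hsdp]
    have hNp : 0 < (N : ℝ) ^ (1 / p - 1 / 2) := Real.rpow_pos_of_pos (by exact_mod_cast hN) _
    have h4 : √(Sn 2 (b i)) ≤ 2 * sd := by
      rw [← Real.sqrt_sq (show 0 ≤ 2 * sd by positivity)]
      exact Real.sqrt_le_sqrt (hbS i)
    refine Real.rpow_le_rpow (by positivity) ?_ hp0.le
    have h5 : (N : ℝ) ^ (1 / p - 1 / 2) / A ≤ 1 / w := by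
      rw [div_le_div_iff₀ hA hw0]
      linarith
    calc 3 * (N : ℝ) ^ (1 / p - 1 / 2) * ((1 + C₁) * √(Sn 2 (b i)) / A)
        = 3 * (1 + C₁) * √(Sn 2 (b i)) * ((N : ℝ) ^ (1 / p - 1 / 2) / A) := by ring
      _ ≤ 3 * (1 + C₁) * (2 * sd) * (1 / w) := by
        refine mul_le_mul ?_ h5 (by positivity) (by positivity)
        exact mul_le_mul_of_nonneg_left h4 (by positivity)
      _ = 6 * (1 + C₁) * sd / w := by ring
  choose y hy1 hy2 hy3 using hE4
  refine ⟨V + X ^ m * Q + C η, fun i n => (g i).coeff n - y i n, hU0, hUr, hUe, fun i => ?_, ?_,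
    fun i => ⟨?_, ?_⟩⟩
  · have h1 : Tp (V + X ^ m * Q + C η) (fun n => (g i).coeff n - y i n) =
        Tp (V + X ^ m * Q + C η) (fun n => (g i).coeff n) - Tp (V + X ^ m * Q + C η) (y i) :=
      Tp_sub_right _ (fun n => (g i).coeff n) (y i)
    refine h1.trans ?_
    rw [hy1 i]
    have h2 : V + X ^ m * Q + C η = (V + C η) + X ^ m * Q := by ring
    rw [h2, Tp_add_left, Tp_eq_zero_of_disjoint hXQ (fun k hk => hgc i k hk), add_zero]
    funext j
    rw [Pi.sub_apply, hbc, sub_self, Pi.zero_apply]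
  · have h1 : V + X ^ m * Q + C η - V = C η + X ^ m * Q := by ring
    rw [h1]
    have h2 : ∀ j, m ≤ j → (C η : ℂ[X]).coeff j = 0 := by
      intro j hj
      rw [Polynomial.coeff_C, if_neg (by omega)]
    refine (Sn_add_le_of_disjoint hq0 h2 hXQ).trans ?_
    have h3 : Sn q (C η) ≤ ε / 2 := by
      rw [Sn_eq_range hq0 (n := 1) (fun j hj => by rw [Polynomial.coeff_C, if_neg (by omega)]),
        Finset.sum_range_one, Polynomial.coeff_C_zero]
      exact (Real.rpow_le_rpow (norm_nonneg _) hη.le hq0.le).trans hη₀q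
    linarith
  · have h1 : Summable fun n => ‖(g i).coeff n‖ := by
      refine summable_of_ne_finset_zero (s := range m) fun n hn => ?_
      rw [hgc i n (by simpa using hn), norm_zero]
    refine Summable.of_nonneg_of_le (fun _ => norm_nonneg _) (fun n => norm_sub_le _ _)
      (h1.add (hy2 i))
  · refine Sle_of_pointwise hp0.le (hy3 i) fun n => ?_
    have h1 : (g i).coeff n - y i n - (g i).coeff n = -y i n := by ring
    rw [h1, norm_neg]

end DC8965.BT
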