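import Pool.Agent.Lib.MP_dc8965_an.BT.Basic

open Finset Polynomial MeasureTheory

namespace DC8965.BT

/-- Fourier coefficient of a function on `[0, 2π]` -/
noncomputable def fc (F : ℝ → ℂ) (n : ℤ) : ℂ :=
  (1 / (2 * Real.pi) : ℝ) * ∫ t in (0 : ℝ)..(2 * Real.pi), F t * Complex.exp (-((n : ℂ) * t * Complex.I))

end DC8965.BT
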