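import Pool.Agent.Lib.MP_dc8965_an.BT.A5
import Pool.Agent.Lib.MP_dc8965_an.BT.C2
import Pool.Agent.Lib.MP_dc8965_an.BT.E6

open Finset Polynomial

namespace DC8965.BT

/-- (F1) the theorem on sequences.

Proof. `ε₁ = min (ε/2^q) (ε/2^p)`, `δ` from (E6) for `ε₁`, `κ = ε₁ / (2 (k+1))`. Given `c, a`: for each `i`
apply (A5) with `b = Tp c (a i).coeff`, `n = (a i).natDegree + 1` (`Tp_eq_zero_of_ge`; the sum over
`range n` equals the sum over `v.support` since both are the sum over all `j` with both factors nonzero), `κ`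
and `δ' = κ`: families `ψ_i, φ_i : Fin (R i) → ℂ[X]` of costs `≤ 2κ`. Put them together
(`finSigmaFinEquiv : (Σ i, Fin (R i)) ≃ Fin (∑ R i)`, `Fintype.sum_equiv`, `Fintype.sum_sigma`), `ι = ` first component; total
costs `≤ 2κk ≤ ε₁`. (C2) with `δ` gives `V, g` with `Sn q (V - c) ≤ ε₁`, `Sn p (g i - a i) ≤ ε₁`, and since
`Tp c (a i) j = ∑ α with ι α = i, ...`, `Sle 2 (Tp V (g i)) δ`. (E6) gives `U, x`. Finally
`U - c = (U - V) + (V - c)` and `x i - a i = (x i - g i) + (g i - a i)`: Minkowski (`Sle.add`,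
`Sle_coeff_iff`) with `A = B = ε^{1/q}/2`, `A^q = ε/2^q` (and the same with `p`). -/
theorem F1 {p q : ℝ} (hpq : p.HolderConjugate q) (hp2 : p < 2) (k : ℕ) {ε : ℝ} (hε : 0 < ε) :
    ∃ κ : ℝ, 0 < κ ∧ ∀ (c : ℂ[X]) (a : Fin k → ℂ[X]),
      (∀ i, ∀ (v : ℂ[X]) (B : ℝ), 0 ≤ B → MB p v B →
        ‖∑ j ∈ v.support, v.coeff j * Tp c (fun n => (a i).coeff n) j‖ ≤ κ * B) →
      ∃ (U : ℂ[X]) (x : Fin k → ℕ → ℂ), U ≠ 0 ∧ U.roots.Nodup ∧ U.eval 0 ≠ 0 ∧
        (∀ i, Tp U (x i) = 0) ∧ Sn q (U - c) ≤ ε ∧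
        ∀ i, (Summable fun n => ‖x i n‖) ∧ Sle p (fun n => x i n - (a i).coeff n) ε := by
  classical
  have hp0 : 0 < p := hpq.pos
  have hq0 : 0 < q := hpq.symm.pos
  have hp1 : 1 ≤ p := hpq.lt.le
  have hq1 : 1 ≤ q := hpq.symm.lt.le
  set ε₁ : ℝ := min (ε / 2 ^ q) (ε / 2 ^ p) with hε₁
  have hε₁0 : 0 < ε₁ := lt_min (by positivity) (by positivity)
  obtain ⟨δ, hδ, hE6⟩ := E6 hpq hp2 k hε₁0
  set κ : ℝ := ε₁ / (2 * (k + 1)) with hκ
  have hκ0 : 0 < κ := by positivity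
  have hκk : (k : ℝ) * (κ + κ) ≤ ε₁ := by
    have h1 : (k : ℝ) * (κ + κ) = ε₁ * (k / (k + 1)) := by
      rw [hκ]
      field_simp
      ring
    rw [h1]
    have h2 : (k : ℝ) / (k + 1) ≤ 1 := by
      rw [div_le_one (by positivity)]
      linarith
    calc ε₁ * ((k : ℝ) / (k + 1)) ≤ ε₁ * 1 := mul_le_mul_of_nonneg_left h2 hε₁0.le
      _ = ε₁ := mul_one _
  refine ⟨κ, hκ0, fun c a h => ?_⟩
  -- factorisations
  have hA5 : ∀ i : Fin k, ∃ (R : ℕ) (ψ φ : Fin R → ℂ[X]),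
      (∀ j, Tp c (fun n => (a i).coeff n) j = ∑ α, Tp (ψ α) (fun n => (φ α).coeff n) j) ∧
      ∑ α, Sn q (ψ α) ≤ κ + κ ∧ ∑ α, Sn p (φ α) ≤ κ + κ := by
    intro i
    have hz : ∀ j, (a i).natDegree + 1 ≤ j → Tp c (fun n => (a i).coeff n) j = 0 := by
      intro j hj
      refine Tp_eq_zero_of_ge c (n := (a i).natDegree + 1) (fun k hk => ?_) hj
      exact Polynomial.coeff_eq_zero_of_natDegree_lt (by omega)
    refine A5 hpq (n := (a i).natDegree + 1) _ hz hκ0 (fun v B hB hv => ?_) hκ0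
    have h1 : ∑ j ∈ range ((a i).natDegree + 1), v.coeff j * Tp c (fun n => (a i).coeff n) j =
        ∑ j ∈ v.support, v.coeff j * Tp c (fun n => (a i).coeff n) j := by
      have h2 : ∑ j ∈ range ((a i).natDegree + 1), v.coeff j * Tp c (fun n => (a i).coeff n) j =
          ∑ j ∈ range ((a i).natDegree + 1) ∪ v.support,
            v.coeff j * Tp c (fun n => (a i).coeff n) j := by
        refine Finset.sum_subset subset_union_left fun j _ hj => ?_
        rw [hz j (by simpa using hj), mul_zero]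
      have h3 : ∑ j ∈ v.support, v.coeff j * Tp c (fun n => (a i).coeff n) j =
          ∑ j ∈ range ((a i).natDegree + 1) ∪ v.support,
            v.coeff j * Tp c (fun n => (a i).coeff n) j := by
        refine Finset.sum_subset subset_union_right fun j _ hj => ?_
        rw [Polynomial.notMem_support_iff.mp hj, zero_mul]
      rw [h2, h3]
    rw [h1]
    exact h i v B hB hv
  choose R ψ φ hψφ hSψ hSφ using hA5
  set e : ((i : Fin k) × Fin (R i)) ≃ Fin (∑ i, R i) := finSigmaFinEquiv with he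
  have htr : ∀ {M : Type} [AddCommMonoid M] (F : (i : Fin k) → Fin (R i) → M),
      ∑ α : Fin (∑ i, R i), F (e.symm α).1 (e.symm α).2 = ∑ i, ∑ β, F i β := by
    intro M _ F
    rw [← Fintype.sum_sigma' (f := F)]
    exact Fintype.sum_equiv e.symm _ _ fun α => rfl
  have hψt : ∑ α : Fin (∑ i, R i), Sn q (ψ (e.symm α).1 (e.symm α).2) ≤ ε₁ := by
    rw [htr (fun i β => Sn q (ψ i β))]
    calc ∑ i, ∑ β, Sn q (ψ i β) ≤ ∑ _i : Fin k, (κ + κ) := Finset.sum_le_sum fun i _ => hSψ i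
      _ = (k : ℝ) * (κ + κ) := by
        rw [Finset.sum_const, Finset.card_univ, Fintype.card_fin, nsmul_eq_mul]
      _ ≤ ε₁ := hκk
  have hφt : ∑ α : Fin (∑ i, R i), Sn p (φ (e.symm α).1 (e.symm α).2) ≤ ε₁ := by
    rw [htr (fun i β => Sn p (φ i β))]
    calc ∑ i, ∑ β, Sn p (φ i β) ≤ ∑ _i : Fin k, (κ + κ) := Finset.sum_le_sum fun i _ => hSφ i
      _ = (k : ℝ) * (κ + κ) := by
        rw [Finset.sum_const, Finset.card_univ, Fintype.card_fin, nsmul_eq_mul]
      _ ≤ ε₁ := hκk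
  obtain ⟨V, g, hV, hg, hS⟩ := C2 hpq hp2 c a (∑ i, R i) (fun α => (e.symm α).1)
    (fun α => ψ (e.symm α).1 (e.symm α).2) (fun α => φ (e.symm α).1 (e.symm α).2) hδ
  have hS' : ∀ i, Sle 2 (Tp V (fun n => (g i).coeff n)) δ := by
    intro i
    have h1 := hS i
    have h2 : (fun j => Tp V (fun n => (g i).coeff n) j - Tp c (fun n => (a i).coeff n) j
        + ∑ α, if (e.symm α).1 = i then Tp (ψ (e.symm α).1 (e.symm α).2)
          (fun n => (φ (e.symm α).1 (e.symm α).2).coeff n) j else 0) =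
        Tp V (fun n => (g i).coeff n) := by
      funext j
      have h3 := htr (fun i' β => if i' = i then Tp (ψ i' β) (fun n => (φ i' β).coeff n) j else 0)
      have h4 : (∑ i', ∑ β, if i' = i then Tp (ψ i' β) (fun n => (φ i' β).coeff n) j else 0) =
          Tp c (fun n => (a i).coeff n) j := by
        rw [Finset.sum_eq_single i]
        · rw [hψφ i j]
          exact Finset.sum_congr rfl fun β _ => if_pos rfl
        · intro i' _ hi'
          exact Finset.sum_eq_zero fun β _ => if_neg hi'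
        · intro h; exact absurd (Finset.mem_univ i) h
      rw [h3, h4]
      ring
    rw [h2] at h1
    exact h1
  obtain ⟨U, x, hU0, hUr, hUe, hT, hUV, hx⟩ := hE6 V g hS'
  have hmink : ∀ {r : ℝ}, 1 ≤ r → ε₁ ≤ ε / 2 ^ r → ∀ {f f' : ℕ → ℂ}, Sle r f ε₁ → Sle r f' ε₁ →
      Sle r (fun n => f n + f' n) ε := by
    intro r hr hεr f f' hf hf'
    have hr0 : 0 < r := by linarith
    have h1 : (ε ^ (1 / r) / 2) ^ r = ε / 2 ^ r := by
      rw [Real.div_rpow (by positivity) (by norm_num), ← Real.rpow_mul hε.le,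
        one_div_mul_cancel hr0.ne', Real.rpow_one]
    have h2 : (ε ^ (1 / r) / 2 + ε ^ (1 / r) / 2) ^ r = ε := by
      rw [add_halves, ← Real.rpow_mul hε.le, one_div_mul_cancel hr0.ne', Real.rpow_one]
    have h3 := Sle.add hr (A := ε ^ (1 / r) / 2) (B := ε ^ (1 / r) / 2) (by positivity)
      (by positivity) (f := f) (g := f') (by rw [h1]; exact hf.mono hεr)
      (by rw [h1]; exact hf'.mono hεr)
    rw [h2] at h3
    exact h3
  refine ⟨U, x, hU0, hUr, hUe, hT, ?_, fun i => ⟨(hx i).1, ?_⟩⟩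
  · rw [← Sle_coeff_iff hq0]
    have h1 := hmink hq1 (min_le_left _ _) ((Sle_coeff_iff hq0 (U - V)).mpr hUV)
      ((Sle_coeff_iff hq0 (V - c)).mpr (hV.trans hψt))
    convert h1 using 1
    funext n
    simp only [Polynomial.coeff_sub]
    ring
  · have h1 := hmink hp1 (min_le_right _ _) (hx i).2
      ((Sle_coeff_iff hp0 (g i - a i)).mpr ((hg i).trans hφt))
    convert h1 using 1
    funext n
    simp only [Polynomial.coeff_sub]
    ring

end DC8965.BT
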