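import Pool.Agent.Lib.MP_dc8965_an.BT.F1
import Pool.Agent.Lib.MP_dc8965_an.HSDefs

open Finset Polynomial
open scoped ENNReal NNReal

namespace DC8965.BT

/-- `Sle` gives a bound of the `ℝ≥0∞` sum -/
lemma G1_tsum_le {r : ℝ} (hr : 0 < r) {f : ℕ → ℂ} {C : ℝ} (h : Sle r f C) :
    ∑' n, ‖f n‖ₑ ^ r ≤ ENNReal.ofReal C := by
  refine ENNReal.tsum_le_of_sum_range_le fun n => ?_
  have h1 : ∑ k ∈ range n, ‖f k‖ₑ ^ r = ENNReal.ofReal (∑ k ∈ range n, ‖f k‖ ^ r) := by
    rw [ENNReal.ofReal_sum_of_nonneg fun _ _ => by positivity]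
    refine Finset.sum_congr rfl fun k _ => ?_
    rw [← ENNReal.ofReal_rpow_of_nonneg (norm_nonneg _) hr.le, ofReal_norm]
  rw [h1]
  exact ENNReal.ofReal_le_ofReal (h n)

/-- and conversely -/
lemma G1_Sle_of {r : ℝ} (hr : 0 < r) {f : ℕ → ℂ} {C : ℝ} (hC : 0 ≤ C)
    (h : ∑' n, ‖f n‖ₑ ^ r ≤ ENNReal.ofReal C) : Sle r f C := by
  intro n
  have h1 : ENNReal.ofReal (∑ k ∈ range n, ‖f k‖ ^ r) ≤ ENNReal.ofReal C := by
    rw [ENNReal.ofReal_sum_of_nonneg fun _ _ => by positivity]
    refine le_trans ?_ ((ENNReal.sum_le_tsum (range n)).trans h)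
    refine Finset.sum_le_sum fun k _ => ?_
    rw [← ENNReal.ofReal_rpow_of_nonneg (norm_nonneg _) hr.le, ofReal_norm]
  exact (ENNReal.ofReal_le_ofReal_iff hC).mp h1

/-- the multiplier bounds agree -/
lemma G1_MB {p : ℝ} (hp : 0 < p) {N : ℕ} {v : ℕ → ℂ} {B : ℝ} (hB : 0 ≤ B)
    {V : ℂ[X]} (hV : V = ∑ j ∈ range N, monomial j (v j)) (h : DC8965.MB p N v B) : MB p V B := by
  intro y C hy
  have hC : 0 ≤ C := hy.nonneg
  have hco : ∀ k, V.coeff k = if k < N then v k else 0 := by
    intro k
    rw [hV, Polynomial.finsetSum_coeff]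
    simp only [Polynomial.coeff_monomial]
    rw [Finset.sum_ite_eq' (range N) k v]
    simp
  have h1 : Tp V y = fun i => ∑ j ∈ range N, v j * y (i + j) := by
    ext i
    rw [Tp_range (n := N) (fun k hk => by rw [hco, if_neg (not_lt.mpr hk)])]
    refine Finset.sum_congr rfl fun k hk => ?_
    rw [hco, if_pos (Finset.mem_range.mp hk)]
  rw [h1]
  refine G1_Sle_of hp (by positivity) ((h y).trans ?_)
  rw [ENNReal.ofReal_mul (by positivity), ← ENNReal.ofReal_rpow_of_nonneg hB hp.le]
  gcongr
  exact G1_tsum_le hp hy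

/-- the sequence theorem in the form of `HSDefs.lean` -/
theorem theoremS {p q : ℝ} (hp2 : p < 2) (hpq : p.HolderConjugate q) : TheoremS p q := by
  intro ε hε k
  have hp0 : 0 < p := hpq.pos
  have hq0 : 0 < q := hpq.symm.pos
  obtain ⟨κ, hκ, H⟩ := F1 hpq hp2 k hε
  refine ⟨κ, hκ, fun I c a hc ha hpair => ?_⟩
  let c' : ℂ[X] := ∑ j ∈ range I, monomial j (c j)
  let a' : Fin k → ℂ[X] := fun i => ∑ j ∈ range I, monomial j (a i j)
  have hco : ∀ (b : ℕ → ℂ) (M : ℕ), ∀ n, (∑ j ∈ range M, monomial j (b j) : ℂ[X]).coeff n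
      = if n < M then b n else 0 := by
    intro b M n
    rw [Polynomial.finsetSum_coeff]
    simp only [Polynomial.coeff_monomial]
    rw [Finset.sum_ite_eq' (range M) n b]
    simp
  have hc' : ∀ n, c'.coeff n = c n := by
    intro n
    rw [hco c I n]
    split_ifs with h
    · rfl
    · exact (hc n (not_lt.mp h)).symm
  have ha' : ∀ i n, (a' i).coeff n = a i n := by
    intro i n
    rw [hco (a i) I n]
    split_ifs with h
    · rfl
    · exact (ha i n (not_lt.mp h)).symm
  have hTc : ∀ i j, Tp c' (fun n => (a' i).coeff n) j = ∑ m ∈ range I, c m * a i (j + m) := by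
    intro i j
    rw [Tp_range (n := I) (fun n hn => by rw [hc', hc n hn])]
    refine Finset.sum_congr rfl fun m _ => ?_
    rw [hc', ha']
  have hhyp : ∀ i, ∀ (v : ℂ[X]) (B : ℝ), 0 ≤ B → MB p v B →
      ‖∑ j ∈ v.support, v.coeff j * Tp c' (fun n => (a' i).coeff n) j‖ ≤ κ * B := by
    intro i v B hB hv
    have h1 := hpair i (v.natDegree + 1) (fun n => v.coeff n) B hB ?_
    · convert h1 using 2
      rw [Finset.sum_subset (support_subset_range (V := v) (n := v.natDegree + 1)
        (fun k hk => Polynomial.coeff_eq_zero_of_natDegree_lt (by omega)))]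
      · refine Finset.sum_congr rfl fun j _ => ?_
        rw [hTc]
      · intro j _ hj
        rw [Polynomial.notMem_support_iff.mp hj, zero_mul]
    · -- `MB` in the other direction
      intro y
      by_cases hy : ∑' i : ℕ, ‖y i‖ₑ ^ p = ∞
      · rcases hB.lt_or_eq with hB' | hB'
        · rw [hy, ENNReal.mul_top]
          · exact le_top
          · exact (ENNReal.rpow_pos (ENNReal.ofReal_pos.mpr hB') ENNReal.ofReal_ne_top).ne'
        · -- `B = 0`, so `v = 0`
          have hv0 : ∀ j, v.coeff j = 0 := by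
            intro j
            have h2 : Sle p (Pi.single j (1 : ℂ)) 1 := by
              intro n
              calc ∑ k ∈ range n, ‖(Pi.single j (1 : ℂ) : ℕ → ℂ) k‖ ^ p
                  ≤ ∑ k ∈ range n, if k = j then (1 : ℝ) else 0 := by
                    refine Finset.sum_le_sum fun k _ => ?_
                    by_cases hk : k = j
                    · subst hk; simp
                    · simp [Pi.single_eq_of_ne hk, hk, Real.zero_rpow hp0.ne']
                _ ≤ 1 := by
                    rw [Finset.sum_ite_eq']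
                    split_ifs <;> norm_num
            have h3 := (hv _ _ h2).apply_le 0
            rw [← hB', Real.zero_rpow hp0.ne', zero_mul] at h3
            have h4 : Tp v (Pi.single j (1 : ℂ)) 0 = v.coeff j := by
              rw [Tp_sum_of_support_subset v _ 0 (insert j v.support) (Finset.subset_insert _ _),
                Finset.sum_eq_single_of_mem j (Finset.mem_insert_self _ _)]
              · simp
              · intro b _ hb
                rw [zero_add, Pi.single_eq_of_ne hb, mul_zero]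
            rw [h4] at h3
            have h5 : ‖v.coeff j‖ ^ p = 0 := le_antisymm h3 (by positivity)
            rw [Real.rpow_eq_zero (norm_nonneg _) hp0.ne'] at h5
            exact norm_eq_zero.mp h5
          have h6 : ∀ i, ∑ j ∈ range (v.natDegree + 1), v.coeff j * y (i + j) = 0 := by
            intro i
            exact Finset.sum_eq_zero fun j _ => by rw [hv0, zero_mul]
          have h7 : ∑' i : ℕ, ‖∑ j ∈ range (v.natDegree + 1), v.coeff j * y (i + j)‖ₑ ^ p = 0 := by
            rw [ENNReal.tsum_eq_zero]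
            intro i
            rw [h6, enorm_zero, ENNReal.zero_rpow_of_pos hp0]
          rw [h7]
          exact bot_le
      · have h2 : Sle p y (∑' i : ℕ, ‖y i‖ₑ ^ p).toReal := by
          refine G1_Sle_of hp0 ENNReal.toReal_nonneg ?_
          rw [ENNReal.ofReal_toReal hy]
        have h3 := G1_tsum_le hp0 (hv y _ h2)
        have h4 : ∀ i, Tp v y i = ∑ j ∈ range (v.natDegree + 1), v.coeff j * y (i + j) :=
          fun i => Tp_range' (Nat.lt_succ_self _) y i
        simp only [h4] at h3
        refine h3.trans (le_of_eq ?_)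
        rw [ENNReal.ofReal_mul (by positivity), ← ENNReal.ofReal_rpow_of_nonneg hB hp0.le,
          ENNReal.ofReal_toReal hy]
  obtain ⟨U, x, hU0, hnd, hev, hTU, hSU, hx⟩ := H c' a' hhyp
  refine ⟨U, x, hnd, hev, fun i => (hx i).1, fun i j => ?_, ?_, fun i => ?_⟩
  · rw [← Tp_range' (Nat.lt_succ_self _) (x i) j, hTU i]
    rfl
  · have h1 := G1_tsum_le hq0 ((Sle_coeff_iff hq0 (U - c')).mpr hSU)
    simpa only [Polynomial.coeff_sub, hc'] using h1
  · have h1 := G1_tsum_le hp0 (hx i).2
    simpa only [ha'] using h1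

end DC8965.BT
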