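import Pool.Agent.Lib.MP_dc8965_an.BT.HDefs

open Finset Polynomial MeasureTheory Filter Topology
open scoped ENNReal NNReal

namespace DC8965.BT

variable {p : ℝ≥0∞} [Fact (1 ≤ p)]

theorem H1_norm_bx (hp : p ≠ ∞) {l : ℝ} (hl : 0 < l) (k : ℕ) :
    ‖bx p l k‖ = l ^ (1 / p.toReal) := by
  have hp0 : p ≠ 0 := by
    have : (1 : ℝ≥0∞) ≤ p := Fact.out
    exact (zero_lt_one.trans_le this).ne'
  rw [bx, norm_indicatorConstLp hp0 hp, norm_one, one_mul, Measure.real, nu_box hl,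
    ENNReal.toReal_ofReal hl.le]

/-- (H1a) `‖x k • bx p l k‖ = ‖x k‖ l^{1/p}` (`enorm_step` with one term, or `norm_indicatorConstLp`). -/
theorem H1a (hp : p ≠ ∞) {l : ℝ} (hl : 0 < l) {x : ℕ → ℂ} (hx : Summable fun n => ‖x n‖) :
    Summable fun k => x k • bx p l k := by
  refine Summable.of_norm ?_
  simp only [norm_smul, H1_norm_bx hp hl]
  exact hx.mul_right _

theorem H1_step_norm (hp : p ≠ ∞) {l : ℝ} (hl : 0 < l) (I : ℕ) (y : ℕ → ℂ) :
    ‖∑ i ∈ range I, y i • bx p l i‖ ^ p.toReal = l * ∑ i ∈ range I, ‖y i‖ ^ p.toReal := by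
  have h := congrArg ENNReal.toReal (enorm_step hp hl I y)
  have hq : 0 < p.toReal := toReal_pos' hp
  rw [← ENNReal.toReal_rpow, toReal_enorm, ENNReal.toReal_mul, ENNReal.toReal_ofReal hl.le,
    ENNReal.toReal_sum (fun i _ => ENNReal.rpow_ne_top_of_nonneg hq.le enorm_ne_top)] at h
  rw [h]
  congr 1
  refine Finset.sum_congr rfl fun i _ => ?_
  rw [← ENNReal.toReal_rpow, toReal_enorm]

/-- (H1b) Proof. The partial sums over `range n` satisfy `‖·‖^p ≤ l C` by `enorm_step`; take the limit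
(`HasSum.tendsto_sum_nat`, `le_of_tendsto`). -/
theorem H1b (hp : p ≠ ∞) {l : ℝ} (hl : 0 < l) {x : ℕ → ℂ} (hx : Summable fun n => ‖x n‖)
    {C : ℝ} (h : Sle p.toReal x C) : ‖stp p l x‖ ^ p.toReal ≤ l * C := by
  have hq : 0 < p.toReal := toReal_pos' hp
  have ht := (H1a hp hl hx).hasSum.tendsto_sum_nat
  refine le_of_tendsto ((ht.norm).rpow_const (Or.inr hq.le)) (Eventually.of_forall fun I => ?_)
  rw [H1_step_norm hp hl]
  exact mul_le_mul_of_nonneg_left (h I) hl.le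

theorem H1_V_stp (hp : p ≠ ∞) {l : ℝ} (hl : 0 < l) {x : ℕ → ℂ} (hx : Summable fun n => ‖x n‖)
    (k : ℕ) : V p (k * l) (stp p l x) = ∑' i, x (i + k) • bx p l i := by
  have hs := H1a hp hl hx
  have h1 : Summable fun i => V p (k * l) (x i • bx p l i) := hs.mapL (V p (k * l))
  rw [stp, (V p (k * l)).map_tsum hs, ← h1.sum_add_tsum_nat_add k]
  have h2 : ∑ i ∈ range k, V p (k * l) (x i • bx p l i) = 0 := by
    refine Finset.sum_eq_zero fun i hi => ?_
    rw [map_smul, V_bx hl, if_neg (by simpa using hi), smul_zero]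
  rw [h2, zero_add]
  refine tsum_congr fun i => ?_
  rw [map_smul, V_bx hl, if_pos (Nat.le_add_left _ _), Nat.add_sub_cancel]

/-- (H1c) Proof. `aeval (V p l) U = ∑_k U_k V p (k l)` (`V_pow`, compare `transf_eq` in Transf.lean). `V p (k l)` is
continuous, so `V p (kl) (stp x) = ∑' i, x i • V p (kl) (bx p l i) = ∑' i, x (i + k) • bx p l i` by `V_bx`
(`V p (kl) (bx l i) = bx l (i-k)` if `k ≤ i`, else `0`; `Summable.sum_add_tsum_nat_add`). Sum over `k`
(`Summable.tsum_finsetSum` or linearity of `stp` on summable sequences). -/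
theorem H1c (hp : p ≠ ∞) {l : ℝ} (hl : 0 < l) {x : ℕ → ℂ} (hx : Summable fun n => ‖x n‖)
    (U : ℂ[X]) : aeval (V p l) U (stp p l x) = stp p l (Tp U x) := by
  have hsh : ∀ k : ℕ, Summable fun i => ‖x (i + k)‖ := fun k =>
    (summable_nat_add_iff (f := fun n => ‖x n‖) k).2 hx
  have h1 : aeval (V p l) U (stp p l x)
      = ∑ k ∈ range (U.natDegree + 1), U.coeff k • ∑' i, x (i + k) • bx p l i := by
    rw [aeval_eq_sum_range]
    rw [_root_.sum_apply]
    refine Finset.sum_congr rfl fun k _ => ?_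
    rw [smul_apply, V_pow hl.le, H1_V_stp hp hl hx]
  rw [h1, stp]
  have h2 : ∀ j, Tp U x j • bx p l j
      = ∑ k ∈ range (U.natDegree + 1), U.coeff k • (x (j + k) • bx p l j) := by
    intro j
    rw [Tp_range' (Nat.lt_succ_self _), Finset.sum_smul]
    exact Finset.sum_congr rfl fun k _ => mul_smul _ _ _
  rw [tsum_congr h2, Summable.tsum_finsetSum]
  · refine Finset.sum_congr rfl fun k _ => ?_
    rw [Summable.tsum_const_smul _ (H1a hp hl (hsh k))]
  · intro k _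
    exact (H1a hp hl (hsh k)).const_smul _

/-- (H1d) -/
theorem H1d (l : ℝ) {x : ℕ → ℂ} {I : ℕ} (hx : ∀ k, I ≤ k → x k = 0) :
    stp p l x = ∑ k ∈ range I, x k • bx p l k := by
  refine tsum_eq_sum fun k hk => ?_
  rw [hx k (by simpa using hk), zero_smul]

/-- (H1e) -/
theorem H1e (hp : p ≠ ∞) {l : ℝ} (hl : 0 < l) {x y : ℕ → ℂ} (hx : Summable fun n => ‖x n‖)
    (hy : Summable fun n => ‖y n‖) : stp p l (fun n => x n - y n) = stp p l x - stp p l y := by
  rw [stp, stp, stp, ← (H1a hp hl hx).tsum_sub (H1a hp hl hy)]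
  exact tsum_congr fun k => sub_smul _ _ _

end DC8965.BT
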