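import Pool.Agent.Lib.MP_dc8965_an.BT.Basic
import Pool.Agent.Lib.MP_dc8965_an.Defs
import Pool.Agent.Lib.MP_dc8965_an.Abs1
import Pool.Agent.Lib.MP_dc8965_an.HSAll

open Finset Polynomial MeasureTheory Filter Topology
open scoped ENNReal NNReal

namespace DC8965.BT

/-- (H9) from finite approximation to a limit space that separates.

Proof. The subspace topology of the set `M₀` is separable; let `d : ℕ → X` be a sequence in `M₀` with
`M₀ ⊆ closure (range d)` (if `M₀` is empty take `N` from the constant sequence; or assume `0 ∈ M₀` as here).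
For each `n` the hypothesis for `d 0, ..., d n` and `ε = 1/(n+1)` gives `S n`. Let `N` be the set of `h` with
`infDist h (fsp e (S n)) → 0`. It is a submodule: `infDist` to a subspace `W` satisfies
`infDist (h + h') W ≤ infDist h W + infDist h' W`, `infDist (c • h) W ≤ ‖c‖ infDist h W`,
`infDist 0 W = 0` (compare `Abs1.lean`, which you may import). `IsLim e N` by definition. Each `d i ∈ N`, since
`infDist (d i) ≤ 1/(n+1)` for `n ≥ i`; and `N` is closed
(`|infDist h W - infDist h' W| ≤ dist h h'`), so `M₀ ⊆ N`. `f ∉ N` because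
`infDist f (fsp e (S n)) ≥ c₀ > 0` for all `n`. -/
theorem H9 {X ι : Type*} [NormedAddCommGroup X] [NormedSpace ℂ X]
    [TopologicalSpace.SeparableSpace X] (e : ι → X) (M₀ : Set X) (h0 : (0 : X) ∈ M₀) (f : X)
    {c₀ : ℝ} (hc₀ : 0 < c₀)
    (hE : ∀ (k : ℕ) (g : Fin k → X), (∀ i, g i ∈ M₀) → ∀ ε : ℝ, 0 < ε →
      ∃ E : Finset ι, (∀ i, Metric.infDist (g i) (fsp e E : Set X) < ε) ∧
        c₀ ≤ Metric.infDist f (fsp e E : Set X)) :
    ∃ N : Submodule ℂ X, IsLim e N ∧ (∀ g ∈ M₀, g ∈ N) ∧ f ∉ N := by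
  classical
  have hsepM : TopologicalSpace.IsSeparable M₀ := TopologicalSpace.IsSeparable.of_separableSpace _
  obtain ⟨c, hcM, hcc, hcd⟩ := hsepM.exists_countable_dense_subset
  have hne : c.Nonempty := by
    by_contra hc
    rw [Set.not_nonempty_iff_eq_empty] at hc
    rw [hc] at hcd
    have : (0 : X) ∈ closure (∅ : Set X) := hcd h0
    simp at this
  obtain ⟨d, hd⟩ := hcc.exists_eq_range hne
  have hdM : ∀ j, d j ∈ M₀ := fun j => hcM (hd ▸ Set.mem_range_self j)
  have hE' : ∀ n : ℕ, ∃ E : Finset ι, (∀ i : Fin (n + 1), Metric.infDist (d i) (fsp e E : Set X)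
      < 1 / ((n : ℝ) + 1)) ∧ c₀ ≤ Metric.infDist f (fsp e E : Set X) := fun n =>
    hE (n + 1) (fun i : Fin (n + 1) => d i) (fun i => hdM i) _ (by positivity)
  choose E hE1 hE2 using hE'
  refine ⟨limSub fun n => fsp e (E n), isLim_limSub _ _, ?_, ?_⟩
  · intro g hg
    rw [mem_limSub, Metric.tendsto_atTop]
    intro ε hε
    obtain ⟨y, hy, hyd⟩ := Metric.mem_closure_iff.mp (hcd hg) (ε / 2) (half_pos hε)
    rw [hd] at hy
    obtain ⟨j, rfl⟩ := hy
    obtain ⟨n₀, hn₀⟩ := exists_nat_one_div_lt (half_pos hε)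
    refine ⟨max j n₀, fun n hn => ?_⟩
    have hjn : j < n + 1 := Nat.lt_succ_of_le ((le_max_left _ _).trans hn)
    have h1 := hE1 n ⟨j, hjn⟩
    rw [Real.dist_eq, sub_zero, abs_of_nonneg Metric.infDist_nonneg]
    have h2 := infDist_triangle (fsp e (E n)) g (d j)
    rw [dist_eq_norm] at hyd
    have h5 : (1 : ℝ) / (n + 1) ≤ 1 / (n₀ + 1) := by
      have : (n₀ : ℝ) ≤ n := by exact_mod_cast (le_max_right _ _).trans hn
      gcongr
    linarith
  · intro hfN
    rw [mem_limSub] at hfN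
    have h2 := hfN.eventually (gt_mem_nhds hc₀)
    obtain ⟨n, hn⟩ := h2.exists
    exact absurd hn (not_lt.mpr (hE2 n))

end DC8965.BT
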