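import Pool.Agent.Lib.MP_dc8965_an.BT.H8
import Pool.Agent.Lib.MP_dc8965_an.BT.H9
import Pool.Agent.Lib.MP_dc8965_an.Half

open Finset Polynomial MeasureTheory Filter Topology
open scoped ENNReal NNReal

namespace DC8965.BT

variable {p : ℝ≥0∞} [Fact (1 ≤ p)]

/-- (H10) the half line theorem.

Proof. `F` = set of all `K` with `IsLim (ex p) K` and `M ≤ K`. It is enough that `M = sInf F`
(`half_sInf`). `M ≤ sInf F` is clear. Let `f ∉ M`. Hahn-Banach: `lam : Y p →L[ℂ] ℂ` with `lam = 0` on `M`,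
`lam f ≠ 0` (`M` closed; e.g. `RCLike.geometric_hahn_banach_closed_point`/`geometric_hahn_banach_closed_point` or
`Submodule.exists_dual_map_eq_bot...`, or the quotient norm and `exists_dual_vector`). Put
`M₀ = {g | ∀ u ≥ 0, lam (V p u g) = 0}`; `M ⊆ M₀` by `hV`. (H9) with `c₀ = ‖lam f‖/(2(‖lam‖+1))`, (H8) and
`separable_Y` gives `N` with `IsLim (ex p) N`, `M₀ ⊆ N`, `f ∉ N`. So `N ∈ F` and `f ∉ sInf F`. -/
theorem H10 (hp1 : 1 < p) (hp2 : p < 2) (M : Submodule ℂ (Y p)) (hM : IsClosed (M : Set (Y p)))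
    (hV : ∀ u : ℝ, 0 ≤ u → ∀ g ∈ M, V p u g ∈ M) : IsLim (ex p) M := by
  have hp : p ≠ ∞ := (hp2.trans_le le_top).ne
  have key : ∀ f : Y p, f ∉ M → ∃ N : Submodule ℂ (Y p), IsLim (ex p) N ∧ M ≤ N ∧ f ∉ N := by
    intro f hfM
    obtain ⟨φ, hφM, hφf⟩ := hs_hahn_banach M hM f hfM
    have hφf' : 0 < ‖φ f‖ := norm_pos_iff.mpr hφf
    have hsep := separable_Y (p := p) hp
    obtain ⟨N, hN1, hN2, hN3⟩ := H9 (ex p) {g : Y p | ∀ u : ℝ, 0 ≤ u → φ (V p u g) = 0}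
      (fun u _ => by rw [map_zero, map_zero]) f (c₀ := ‖φ f‖ / (2 * (‖φ‖ + 1))) (by positivity)
      (fun k g hg ε hε => H8 hp1 hp2 φ f hφf k g hg hε)
    exact ⟨N, hN1, fun g hg => hN2 g (fun u hu => hφM _ (hV u hu g hg)), hN3⟩
  have hMeq : M = sInf {N : Submodule ℂ (Y p) | IsLim (ex p) N ∧ M ≤ N} := by
    apply le_antisymm
    · exact le_sInf fun N hN => hN.2
    · intro f hf
      by_contra hfM
      obtain ⟨N, hN1, hN2, hN3⟩ := key f hfM
      exact hN3 ((Submodule.mem_sInf.mp hf) N ⟨hN1, hN2⟩)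
  rw [hMeq]
  exact half_sInf hp _ fun N hN => hN.1

end DC8965.BT
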