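import Pool.Agent.Lib.MP_dc8965_an.BT.H10
import Pool.Agent.Lib.MP_dc8965_an.Main

open Finset Polynomial MeasureTheory Filter Topology
open scoped ENNReal NNReal

namespace DC8965.BT

/-- (H11) the theorem on `L^p[0,1]`.

Proof. As in `part_weight` (Main.lean): `exists_Phi`, `isMonomialSpace_iff`; `tr Φ M` is closed (preimage of
`M` under the isometry `Φ.symm`), invariant for `Hop p (1 - 1/p)` (`hardy_iff`), hence for all `V p u`
(`V_mem_of_Hop`), so (H10) applies. -/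
theorem H11 (p : ℝ≥0∞) [Fact (1 ≤ p)] (hp1 : 1 < p) (hp2 : p < 2) (M : Submodule ℂ (L p))
    (hMc : IsClosed (M : Set (L p))) (hM : ∀ f ∈ M, ∀ g : L p, IsHardy f g → g ∈ M) :
    IsMonomialSpace M := by
  have hp : p ≠ ∞ := (hp2.trans_le le_top).ne
  obtain ⟨Φ, hΦ⟩ := exists_Phi p hp
  rw [isMonomialSpace_iff hp hΦ]
  have hclosed : IsClosed (tr Φ M : Set (Y p)) := by
    have h1 : (tr Φ M : Set (Y p)) = Φ.symm ⁻¹' (M : Set (L p)) := by
      ext y
      exact mem_tr Φ M y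
    rw [h1]
    exact hMc.preimage Φ.symm.continuous
  have hH : ∀ g ∈ tr Φ M, Hop p (1 - 1 / p.toReal) g ∈ tr Φ M := by
    intro g hg
    rw [mem_tr] at hg ⊢
    refine hM _ hg _ ?_
    refine (hardy_iff hp1 hp Φ hΦ _ _).mpr ?_
    rw [Φ.apply_symm_apply, Φ.apply_symm_apply]
  exact H10 hp1 hp2 (tr Φ M) hclosed
    (fun u hu g hg => V_mem_of_Hop hp (one_sub_pos hp1 hp) (tr Φ M) hclosed hH hu hg)

end DC8965.BT
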