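import Pool.Agent.Lib.MP_dc8965_an.BT.HDefs
import Pool.Agent.Lib.MP_dc8965_an.Transf

open Finset Polynomial MeasureTheory Filter Topology
open scoped ENNReal NNReal

namespace DC8965.BT

variable {p : ℝ≥0∞} [Fact (1 ≤ p)]

private lemma H2_term {r : ℝ} (hr : 0 ≤ r) (z : ℂ) : ‖z‖ₑ ^ r = ENNReal.ofReal (‖z‖ ^ r) := by
  rw [← ofReal_norm_eq_enorm, ENNReal.ofReal_rpow_of_nonneg (norm_nonneg _) hr]

private lemma H2_conv {r : ℝ} (hr : 0 ≤ r) (z : ℕ → ℂ) (hz : Summable fun i => ‖z i‖ ^ r) :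
    ∑' i, ‖z i‖ₑ ^ r = ENNReal.ofReal (∑' i, ‖z i‖ ^ r) := by
  rw [ENNReal.ofReal_tsum_of_nonneg (fun _ => by positivity) hz]
  exact tsum_congr fun i => H2_term hr (z i)

private lemma H2_top {r : ℝ} (hr : 0 ≤ r) (z : ℕ → ℂ) (hz : ¬ Summable fun i => ‖z i‖ ^ r) :
    ∑' i, ‖z i‖ₑ ^ r = ∞ := by
  by_contra h
  apply hz
  have h1 : ∑' i, ENNReal.ofReal (‖z i‖ ^ r) ≠ ∞ := by
    rwa [← tsum_congr fun i => H2_term hr (z i)]
  have h2 := ENNReal.summable_toReal h1
  refine h2.congr fun i => ?_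
  rw [ENNReal.toReal_ofReal (by positivity)]

private lemma H2_single (v : ℂ[X]) (j : ℕ) : Tp v (Pi.single j (1:ℂ)) 0 = v.coeff j := by
  rw [Tp_sum_of_support_subset v _ 0 (v.support ∪ {j}) subset_union_left, Finset.sum_eq_single j]
  · simp
  · intro b _ hb; simp [Pi.single_apply, hb]
  · intro hb; simp at hb

/-- (H2) transference.

Proof. `transf` (Transf.lean) with `N = v.natDegree + 1`, `b = v.coeff` (`Polynomial.as_sum_range`,
`Tp_range'`), `K = B`. Its hypothesis for a sequence `y`: if `∑' ‖y i‖ₑ^p < ∞` translate `MB` with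
`C = ∑' ‖y i‖^p` (`Sle_iff_tsum`, `ENNReal.ofReal_tsum_of_nonneg`). If `∑' ‖y i‖ₑ^p = ∞`, the right side is `∞` if
`B > 0`; if `B = 0` then `v = 0` (`MB` for `y = Pi.single j 1` gives `v_j = 0`: `Tp v y 0 = v_j`). -/
theorem H2 (hp : p ≠ ∞) {l : ℝ} (hl : 0 < l) {v : ℂ[X]} {B : ℝ} (hB : 0 ≤ B)
    (h : MB p.toReal v B) : ‖aeval (V p l) v‖ ≤ B := by
  have hpr : 0 < p.toReal := toReal_pos' hp
  have key : ‖aeval (V p l) (∑ j ∈ range (v.natDegree + 1), monomial j (v.coeff j))‖ ≤ B := by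
    refine transf hp hl B hB (v.natDegree + 1) v.coeff fun y => ?_
    have e1 : ∀ i, ∑ j ∈ range (v.natDegree + 1), v.coeff j * y (i + j) = Tp v y i :=
      fun i => (Tp_range' (Nat.lt_succ_self _) y i).symm
    simp only [e1]
    by_cases hy : Summable (fun i => ‖y i‖ ^ p.toReal)
    · have h1 : Sle p.toReal y (∑' i, ‖y i‖ ^ p.toReal) := Sle_iff_tsum.mpr ⟨hy, le_rfl⟩
      have h2 := Sle_iff_tsum.mp (h y _ h1)
      rw [H2_conv hpr.le _ h2.1, H2_conv hpr.le _ hy, ENNReal.ofReal_rpow_of_nonneg hB hpr.le,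
        ← ENNReal.ofReal_mul (by positivity)]
      exact ENNReal.ofReal_le_ofReal h2.2
    · rcases hB.eq_or_lt with hB0 | hBpos
      · have hv : v = 0 := by
          ext j
          have hs : Sle p.toReal (Pi.single j (1:ℂ)) 1 := by
            intro n
            calc ∑ k ∈ range n, ‖(Pi.single j (1:ℂ) : ℕ → ℂ) k‖ ^ p.toReal
                ≤ ∑ k ∈ range n, (if k = j then (1:ℝ) else 0) := by
                  refine Finset.sum_le_sum fun k _ => ?_
                  by_cases hk : k = j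
                  · subst hk; simp
                  · simp [Pi.single_apply, hk, Real.zero_rpow hpr.ne']
              _ ≤ 1 := by
                  rw [Finset.sum_ite_eq']; split_ifs <;> norm_num
          have h2 := (h _ _ hs).apply_le 0
          rw [← hB0, Real.zero_rpow hpr.ne', zero_mul, H2_single] at h2
          rw [coeff_zero, ← norm_eq_zero]
          by_contra h4
          have : 0 < ‖v.coeff j‖ := lt_of_le_of_ne (norm_nonneg _) (Ne.symm h4)
          have := Real.rpow_pos_of_pos this p.toReal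
          linarith
        subst hv
        simp [hpr]
      · rw [H2_top hpr.le y hy, ENNReal.mul_top]
        · exact le_top
        · exact (ENNReal.rpow_pos (by simpa using hBpos) ENNReal.ofReal_ne_top).ne'
  rwa [← v.as_sum_range] at key

end DC8965.BT
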