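import Pool.Agent.Lib.MP_dc8965_an.BT.HDefs

open Finset Polynomial MeasureTheory Filter Topology
open scoped ENNReal NNReal

namespace DC8965.BT

variable {p : ℝ≥0∞} [Fact (1 ≤ p)]

private lemma H3_term {r : ℝ} (hr : 0 ≤ r) (z : ℂ) : ‖z‖ₑ ^ r = ENNReal.ofReal (‖z‖ ^ r) := by
  rw [← ofReal_norm, ENNReal.ofReal_rpow_of_nonneg (norm_nonneg _) hr]

private lemma H3_step (hp : p ≠ ∞) {l : ℝ} (hl : 0 < l) (I : ℕ) (y : ℕ → ℂ) :
    ‖∑ i ∈ Finset.range I, y i • bx p l i‖ ^ p.toReal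
      = l * ∑ i ∈ Finset.range I, ‖y i‖ ^ p.toReal := by
  have hpr : 0 < p.toReal := toReal_pos' hp
  have h := enorm_step (p := p) hp hl I y
  have h1 : ‖∑ i ∈ Finset.range I, y i • bx p l i‖ₑ ^ p.toReal
      = ENNReal.ofReal (‖∑ i ∈ Finset.range I, y i • bx p l i‖ ^ p.toReal) := by
    rw [← ofReal_norm, ENNReal.ofReal_rpow_of_nonneg (norm_nonneg _) hpr.le]
  rw [h1, Finset.sum_congr rfl fun i _ => H3_term hpr.le (y i),
    ← ENNReal.ofReal_sum_of_nonneg (fun _ _ => by positivity), ← ENNReal.ofReal_mul hl.le] at h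
  exact (ENNReal.ofReal_eq_ofReal_iff (by positivity) (by positivity)).mp h

/-- (H3) the discretised functional is bounded in `ℓ^q`.

Proof. `c_k = l^{-1/p} lam (bx p l k)`, `z_k = conj(c_k) ‖c_k‖^{q-2}` (`0` if `c_k = 0`), `S = ∑_{k<I} ‖c_k‖^q`
`= ∑ c_k z_k = lam (∑_{k<I} (l^{-1/p} z_k) • bx p l k)`. By `enorm_step` (as real norms) the vector has
`‖·‖^p = l ∑ ‖l^{-1/p} z_k‖^p = ∑ ‖z_k‖^p = ∑ ‖c_k‖^{(q-1)p} = S`. So `S ≤ ‖lam‖ S^{1/p}`, hence
`S^{1/q} ≤ ‖lam‖` (if `S = 0` trivial), i.e. `S ≤ ‖lam‖^q`. -/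
theorem H3 (hp : p ≠ ∞) {q : ℝ} (hpq : p.toReal.HolderConjugate q) (lam : Y p →L[ℂ] ℂ) {l : ℝ}
    (hl : 0 < l) (I : ℕ) : Sn q (cpol p lam l I) ≤ ‖lam‖ ^ q := by
  have hpr : 0 < p.toReal := toReal_pos' hp
  have hq : 0 < q := hpq.symm.pos
  have hq1 : 1 < q := hpq.symm.lt
  set s : ℝ := l ^ (-(1 / p.toReal)) with hs
  have hs0 : 0 < s := Real.rpow_pos_of_pos hl _
  set c : ℕ → ℂ := fun k => (s : ℂ) * lam (bx p l k) with hc
  -- coefficients
  have hcoeff : ∀ k, (cpol p lam l I).coeff k = if k < I then c k else 0 := by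
    intro k
    rw [cpol, finsetSum_coeff]
    simp only [coeff_monomial]
    rw [Finset.sum_ite_eq']
    simp [hc, hs]
  have hS : Sn q (cpol p lam l I) = ∑ k ∈ range I, ‖c k‖ ^ q := by
    rw [Sn_eq_range hq (n := I) (fun k hk => by rw [hcoeff, if_neg (not_lt.mpr hk)])]
    refine Finset.sum_congr rfl fun k hk => ?_
    rw [hcoeff, if_pos (Finset.mem_range.mp hk)]
  rw [hS]
  set S : ℝ := ∑ k ∈ range I, ‖c k‖ ^ q with hSdef
  have hS0 : 0 ≤ S := Finset.sum_nonneg fun _ _ => by positivity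
  set z : ℕ → ℂ := fun k => (starRingEnd ℂ) (c k) * ((‖c k‖ ^ (q - 2) : ℝ) : ℂ) with hz
  have hcz : ∀ k, c k * z k = ((‖c k‖ ^ q : ℝ) : ℂ) := by
    intro k
    rcases eq_or_ne (c k) 0 with h0 | h0
    · rw [h0, zero_mul, norm_zero, Real.zero_rpow hq.ne']; simp
    · rw [hz]
      simp only
      rw [← mul_assoc, Complex.mul_conj, Complex.normSq_eq_norm_sq]
      rw [← Complex.ofReal_mul]
      congr 1
      have hn : 0 < ‖c k‖ := norm_pos_iff.mpr h0
      rw [← Real.rpow_natCast, ← Real.rpow_add hn]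
      congr 1; push_cast; ring
  have hzn : ∀ k, ‖z k‖ ^ p.toReal = ‖c k‖ ^ q := by
    intro k
    rcases eq_or_ne (c k) 0 with h0 | h0
    · rw [hz]; simp only [h0]
      simp [Real.zero_rpow hq.ne', Real.zero_rpow hpr.ne']
    · have hn : 0 < ‖c k‖ := norm_pos_iff.mpr h0
      rw [hz]
      simp only
      rw [norm_mul, RCLike.norm_conj, Complex.norm_real, Real.norm_of_nonneg (by positivity)]
      have : ‖c k‖ * ‖c k‖ ^ (q - 2) = ‖c k‖ ^ (q - 1) := by
        nth_rewrite 1 [← Real.rpow_one ‖c k‖]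
        rw [← Real.rpow_add hn]; congr 1; ring
      rw [this, ← Real.rpow_mul hn.le]
      congr 1
      have := hpq.symm.sub_one_mul_conj
      exact this
  have h1 : lam (∑ k ∈ range I, ((s : ℂ) * z k) • bx p l k) = (S : ℂ) := by
    rw [map_sum, hSdef, Complex.ofReal_sum]
    refine Finset.sum_congr rfl fun k _ => ?_
    rw [map_smul, smul_eq_mul, ← hcz k, hc]
    simp only
    ring
  have h2 : ‖∑ k ∈ range I, ((s : ℂ) * z k) • bx p l k‖ ^ p.toReal = S := by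
    rw [H3_step hp hl I fun k => (s : ℂ) * z k, hSdef, Finset.mul_sum]
    refine Finset.sum_congr rfl fun k _ => ?_
    rw [norm_mul, Complex.norm_real, Real.norm_of_nonneg hs0.le, Real.mul_rpow hs0.le (norm_nonneg _),
      hzn k, hs, ← Real.rpow_mul hl.le, ← mul_assoc]
    have : -(1 / p.toReal) * p.toReal = -1 := by field_simp
    rw [this, Real.rpow_neg_one, mul_inv_cancel₀ hl.ne', one_mul]
  have h3 : ‖∑ k ∈ range I, ((s : ℂ) * z k) • bx p l k‖ = S ^ (1 / p.toReal) := by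
    rw [← h2, ← Real.rpow_mul (norm_nonneg _), mul_one_div_cancel hpr.ne', Real.rpow_one]
  have h4 : S ≤ ‖lam‖ * S ^ (1 / p.toReal) := by
    have := lam.le_opNorm (∑ k ∈ range I, ((s : ℂ) * z k) • bx p l k)
    rwa [h1, h3, Complex.norm_real, Real.norm_of_nonneg hS0] at this
  rcases hS0.eq_or_lt with h0 | hpos
  · rw [← h0]; positivity
  · have h5 : S ^ (1 / q) ≤ ‖lam‖ := by
      have h6 : S = S ^ (1 / q) * S ^ (1 / p.toReal) := by
        rw [← Real.rpow_add hpos]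
        have : 1 / q + 1 / p.toReal = 1 := by
          have := hpq.inv_add_inv_eq_one
          rw [one_div, one_div]; linarith
        rw [this, Real.rpow_one]
      have h7 : 0 < S ^ (1 / p.toReal) := Real.rpow_pos_of_pos hpos _
      exact le_of_mul_le_mul_right (h6.symm.le.trans h4) h7
    calc S = (S ^ (1 / q)) ^ q := by
          rw [← Real.rpow_mul hS0, one_div_mul_cancel hq.ne', Real.rpow_one]
      _ ≤ ‖lam‖ ^ q := Real.rpow_le_rpow (by positivity) h5 hq.le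

end DC8965.BT
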