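import Pool.Agent.Lib.MP_dc8965_an.BT.HDefs

open Finset Polynomial MeasureTheory Filter Topology
open scoped ENNReal NNReal

namespace DC8965.BT

variable {p : ℝ≥0∞} [Fact (1 ≤ p)]

private lemma H4_step (hp : p ≠ ∞) {l : ℝ} (hl : 0 < l) (I : ℕ) (y : ℕ → ℂ) :
    l * ∑ i ∈ range I, ‖y i‖ ^ p.toReal = ‖∑ i ∈ range I, y i • bx p l i‖ ^ p.toReal := by
  have hr : 0 ≤ p.toReal := ENNReal.toReal_nonneg
  have h := enorm_step hp hl I y
  rw [← ofReal_norm, ENNReal.ofReal_rpow_of_nonneg (norm_nonneg _) hr] at h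
  have h1 : ∑ i ∈ range I, ‖y i‖ₑ ^ p.toReal =
      ENNReal.ofReal (∑ i ∈ range I, ‖y i‖ ^ p.toReal) := by
    rw [ENNReal.ofReal_sum_of_nonneg fun i _ => by positivity]
    refine Finset.sum_congr rfl fun i _ => ?_
    rw [← ofReal_norm, ENNReal.ofReal_rpow_of_nonneg (norm_nonneg _) hr]
  rw [h1, ← ENNReal.ofReal_mul hl.le, ENNReal.ofReal_eq_ofReal_iff (by positivity)
    (mul_nonneg hl.le (Finset.sum_nonneg fun i _ => by positivity))] at h
  exact h.symm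

/-- (H4) the functional of a polynomial.

Proof. `ψ h = ∑_{k} U_k l^{1/p} avg l k h` is linear. Hoelder (`Real.inner_le_Lp_mul_Lq` on
`range I`, `I = U.natDegree + 1`): `|ψ h| ≤ (Sn q U)^{1/q} (∑_{k<I} l ‖avg l k h‖^p)^{1/p}`, and the last
factor is `‖∑_{k<I} avg l k h • bx p l k‖ ≤ ‖h‖` by `enorm_step`, `enorm_avg_le`. So `‖ψ‖ ≤ K`
(`LinearMap.mkContinuous`). If `aeval (V p l) U e = 0`: by `avg_V` and `V_pow`
`avg l k e = avg l 0 (V p (k l) e)`, so `ψ e = l^{1/p} avg l 0 (∑ U_k V p (k l) e) =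
l^{1/p} avg l 0 (aeval (V p l) U e) = 0`. -/
theorem H4 (hp : p ≠ ∞) {q : ℝ} (hpq : p.toReal.HolderConjugate q) {l : ℝ} (hl : 0 < l)
    (U : ℂ[X]) {K : ℝ} (hK : 0 ≤ K) (hU : Sn q U ≤ K ^ q) :
    ∃ ψ : Y p →L[ℂ] ℂ, ‖ψ‖ ≤ K ∧
      (∀ h, ψ h = ∑ k ∈ U.support, U.coeff k * ((l ^ (1 / p.toReal) : ℝ) : ℂ) * avg l k h) ∧
      ∀ e, aeval (V p l) U e = 0 → ψ e = 0 := by
  have hr : 0 < p.toReal := hpq.pos
  have hq : 0 < q := hpq.symm.pos
  obtain ⟨r, hrd⟩ : ∃ r : ℝ, r = p.toReal := ⟨_, rfl⟩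
  obtain ⟨ψ0, hψ0⟩ : ∃ ψ0 : Y p →ₗ[ℂ] ℂ, ψ0 = ∑ k ∈ U.support,
      (U.coeff k * ((l ^ (1 / p.toReal) : ℝ) : ℂ)) • avg l k := ⟨_, rfl⟩
  have happ : ∀ h, ψ0 h = ∑ k ∈ U.support, U.coeff k * ((l ^ (1 / p.toReal) : ℝ) : ℂ) * avg l k h := by
    intro h
    rw [hψ0, LinearMap.sum_apply]
    rfl
  have hsub : U.support ⊆ range (U.natDegree + 1) := support_subset_range fun k hk =>
    Polynomial.coeff_eq_zero_of_natDegree_lt (by omega)
  have hbound : ∀ h, ‖ψ0 h‖ ≤ K * ‖h‖ := by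
    intro h
    have h1 : ‖ψ0 h‖ ≤ ∑ k ∈ range (U.natDegree + 1),
        (l ^ (1 / p.toReal) * ‖avg l k h‖) * ‖U.coeff k‖ := by
      rw [happ]
      refine (norm_sum_le _ _).trans ?_
      refine (Finset.sum_le_sum_of_subset_of_nonneg hsub fun _ _ _ => norm_nonneg _).trans ?_
      refine Finset.sum_le_sum fun k _ => le_of_eq ?_
      rw [norm_mul, norm_mul, Complex.norm_real, Real.norm_of_nonneg (by positivity)]
      ring
    have h2 := Real.inner_le_Lp_mul_Lq_of_nonneg (range (U.natDegree + 1))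
      (f := fun k => l ^ (1 / p.toReal) * ‖avg l k h‖) (g := fun k => ‖U.coeff k‖) hpq
      (fun k _ => by positivity) (fun k _ => norm_nonneg _)
    have h3 : (∑ k ∈ range (U.natDegree + 1), (l ^ (1 / p.toReal) * ‖avg l k h‖) ^ p.toReal) ^
        (1 / p.toReal) ≤ ‖h‖ := by
      have h4 : ∑ k ∈ range (U.natDegree + 1), (l ^ (1 / p.toReal) * ‖avg l k h‖) ^ p.toReal =
          ‖∑ i ∈ range (U.natDegree + 1), avg l i h • bx p l i‖ ^ p.toReal := by
        rw [← H4_step hp hl, Finset.mul_sum]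
        refine Finset.sum_congr rfl fun k _ => ?_
        rw [Real.mul_rpow (by positivity) (norm_nonneg _), ← Real.rpow_mul hl.le,
          one_div_mul_cancel hr.ne', Real.rpow_one]
      rw [h4, ← Real.rpow_mul (norm_nonneg _), mul_one_div_cancel hr.ne', Real.rpow_one]
      exact enorm_avg_le hp hl _ h
    have h5 : (∑ k ∈ range (U.natDegree + 1), ‖U.coeff k‖ ^ q) ^ (1 / q) ≤ K := by
      rw [← Sn_eq_sum hq U _ hsub]
      calc Sn q U ^ (1 / q) ≤ (K ^ q) ^ (1 / q) :=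
            Real.rpow_le_rpow (Sn_nonneg q U) hU (by positivity)
        _ = K := by rw [← Real.rpow_mul hK, mul_one_div_cancel hq.ne', Real.rpow_one]
    calc ‖ψ0 h‖ ≤ _ := h1
      _ ≤ _ := h2
      _ ≤ ‖h‖ * K := mul_le_mul h3 h5 (Real.rpow_nonneg
          (Finset.sum_nonneg fun _ _ => by positivity) _) (norm_nonneg _)
      _ = K * ‖h‖ := mul_comm _ _
  refine ⟨ψ0.mkContinuous K hbound, LinearMap.mkContinuous_norm_le _ hK _, fun h => happ h, ?_⟩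
  intro e he
  show ψ0 e = 0
  rw [happ]
  have h1 : ∀ k ∈ U.support, U.coeff k * ((l ^ (1 / p.toReal) : ℝ) : ℂ) * avg l k e =
      ((l ^ (1 / p.toReal) : ℝ) : ℂ) * avg l 0 (U.coeff k • ((V p l) ^ k) e) := by
    intro k _
    rw [avg_V hl k e, V_pow hl.le, map_smul, smul_eq_mul]
    ring
  rw [Finset.sum_congr rfl h1, ← Finset.mul_sum, ← map_sum]
  have h2 : ∑ k ∈ U.support, U.coeff k • ((V p l) ^ k) e = aeval (V p l) U e := by
    rw [Polynomial.aeval_eq_sum_range, ContinuousLinearMap.sum_apply]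
    refine Finset.sum_subset hsub fun k _ hk => ?_
    rw [Polynomial.notMem_support_iff.mp hk, zero_smul]
  rw [h2, he, map_zero, mul_zero]

end DC8965.BT
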