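import Pool.Agent.Lib.MP_dc8965_an.BT.HDefs
import Pool.Agent.Lib.MP_dc8965_an.HSClaim

open Finset Polynomial MeasureTheory Filter Topology
open scoped ENNReal NNReal

namespace DC8965.BT

variable {p : ℝ≥0∞} [Fact (1 ≤ p)]

/-- (H5) common step functions (`hs_common_step`). -/
theorem H5 (hp : p ≠ ∞) (m : ℕ) (h : Fin m → Y p) {δ : ℝ} (hδ : 0 < δ) :
    ∃ (l : ℝ) (I : ℕ) (a : Fin m → ℂ[X]), 0 < l ∧ (∀ i k, I ≤ k → (a i).coeff k = 0) ∧
      ∀ i, ‖h i - ∑ k ∈ range I,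
        (((l ^ (-(1 / p.toReal)) : ℝ) : ℂ) * (a i).coeff k) • bx p l k‖ < δ := by
  obtain ⟨l, I, y, hl, hy0, hy⟩ := hs_common_step hp h hδ
  have hc : ∀ (i : Fin m) (k : ℕ), (∑ n ∈ range I,
      monomial n (((l ^ (1 / p.toReal) : ℝ) : ℂ) * y i n)).coeff k =
      if k < I then ((l ^ (1 / p.toReal) : ℝ) : ℂ) * y i k else 0 := by
    intro i k
    rw [Polynomial.finsetSum_coeff]
    simp only [Polynomial.coeff_monomial]
    rw [Finset.sum_ite_eq']
    simp only [Finset.mem_range]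
  refine ⟨l, I, fun i => ∑ n ∈ range I, monomial n (((l ^ (1 / p.toReal) : ℝ) : ℂ) * y i n), hl,
    fun i k hk => ?_, fun i => ?_⟩
  · rw [hc, if_neg (not_lt.mpr hk)]
  · have hrr : (((l ^ (-(1 / p.toReal)) : ℝ) : ℂ)) * (((l ^ (1 / p.toReal) : ℝ) : ℂ)) = 1 := by
      rw [← Complex.ofReal_mul, ← Real.rpow_add hl, neg_add_cancel, Real.rpow_zero,
        Complex.ofReal_one]
    have h1 : ∑ k ∈ range I, (((l ^ (-(1 / p.toReal)) : ℝ) : ℂ) *
        (∑ n ∈ range I, monomial n (((l ^ (1 / p.toReal) : ℝ) : ℂ) * y i n)).coeff k) • bx p l k =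
        ∑ k ∈ range I, y i k • bx p l k := by
      refine Finset.sum_congr rfl fun k hk => ?_
      rw [hc, if_pos (Finset.mem_range.mp hk), ← mul_assoc, hrr, one_mul]
    rw [h1]
    exact hy i

end DC8965.BT
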