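import Pool.Agent.Lib.MP_dc8965_an.BT.H2

open Finset Polynomial MeasureTheory Filter Topology
open scoped ENNReal NNReal

namespace DC8965.BT

variable {p : ℝ≥0∞} [Fact (1 ≤ p)]

/-- (H6) the key inequality.

Proof. Let `s = ∑_{k<I} (l^{-1/p} a_k) • bx p l k`, `v(V) = aeval (V p l) v = ∑_j v_j V p (j l)`
(`V_pow`). By `V_step` (`a_k = 0` for `k ≥ I`) `V p (j l) s = ∑_{k<I} (l^{-1/p} a_{k+j}) • bx p l k`, so
`lam (v(V) s) = ∑_j v_j ∑_{k<I} l^{-1/p} lam (bx p l k) a_{k+j} = ∑_j v_j Tp (cpol p lam l I) a.coeff j`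
(`Tp_range`, the coefficients of `cpol` vanish from `I` on). And `lam (v(V) g) = ∑ v_j lam (V p (jl) g) = 0`.
So the left side is `‖lam (v(V) (s - g))‖ ≤ ‖lam‖ ‖v(V)‖ ‖s - g‖ ≤ ‖lam‖ B ‖g - s‖` by (H2). -/
theorem H6 (hp : p ≠ ∞) (lam : Y p →L[ℂ] ℂ) {l : ℝ} (hl : 0 < l) (I : ℕ) (a : ℂ[X])
    (ha : ∀ k, I ≤ k → a.coeff k = 0) (g : Y p) (hg : ∀ u : ℝ, 0 ≤ u → lam (V p u g) = 0)
    {v : ℂ[X]} {B : ℝ} (hB : 0 ≤ B) (hv : MB p.toReal v B) :
    ‖∑ j ∈ v.support, v.coeff j * Tp (cpol p lam l I) (fun n => a.coeff n) j‖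
      ≤ ‖lam‖ * B * ‖g - ∑ k ∈ range I,
          (((l ^ (-(1 / p.toReal)) : ℝ) : ℂ) * a.coeff k) • bx p l k‖ := by
  have hae : ∀ h : Y p, aeval (V p l) v h = ∑ j ∈ v.support, v.coeff j • V p (j * l) h := by
    intro h
    rw [Polynomial.aeval_eq_sum_range, _root_.sum_apply]
    have h1 : ∑ j ∈ range (v.natDegree + 1), (v.coeff j • V p l ^ j) h =
        ∑ j ∈ range (v.natDegree + 1), v.coeff j • V p (j * l) h := by
      refine Finset.sum_congr rfl fun j _ => ?_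
      rw [_root_.smul_apply, V_pow hl.le]
    rw [h1]
    symm
    refine Finset.sum_subset Polynomial.supp_subset_range_natDegree_succ fun j _ hj => ?_
    rw [Polynomial.notMem_support_iff.mp hj, zero_smul]
  have hcp : ∀ k, (cpol p lam l I).coeff k =
      if k < I then ((l ^ (-(1 / p.toReal)) : ℝ) : ℂ) * lam (bx p l k) else 0 := by
    intro k
    rw [cpol, Polynomial.finsetSum_coeff]
    simp only [Polynomial.coeff_monomial]
    rw [Finset.sum_ite_eq']
    simp only [Finset.mem_range]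
  obtain ⟨s, hs⟩ : ∃ s : Y p, s = ∑ k ∈ range I,
      (((l ^ (-(1 / p.toReal)) : ℝ) : ℂ) * a.coeff k) • bx p l k := ⟨_, rfl⟩
  have h1 : lam (aeval (V p l) v s) =
      ∑ j ∈ v.support, v.coeff j * Tp (cpol p lam l I) (fun n => a.coeff n) j := by
    rw [hae, map_sum]
    refine Finset.sum_congr rfl fun j _ => ?_
    rw [map_smul, smul_eq_mul, hs, V_step hl I j
      (fun k => ((l ^ (-(1 / p.toReal)) : ℝ) : ℂ) * a.coeff k)
      (fun k hk => by simp only [ha k hk, mul_zero]), map_sum,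
      Tp_range (n := I) (fun k hk => by rw [hcp, if_neg (not_lt.mpr hk)])]
    congr 1
    refine Finset.sum_congr rfl fun k hk => ?_
    rw [map_smul, smul_eq_mul, hcp, if_pos (Finset.mem_range.mp hk), add_comm j k]
    ring
  have h2 : lam (aeval (V p l) v g) = 0 := by
    rw [hae, map_sum]
    refine Finset.sum_eq_zero fun j _ => ?_
    rw [map_smul, hg _ (by positivity), smul_zero]
  rw [← hs, ← h1]
  have h3 : lam (aeval (V p l) v s) = -lam (aeval (V p l) v (g - s)) := by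
    rw [map_sub, map_sub, h2]
    ring
  rw [h3, norm_neg]
  calc ‖lam (aeval (V p l) v (g - s))‖ ≤ ‖lam‖ * ‖aeval (V p l) v (g - s)‖ := lam.le_opNorm _
    _ ≤ ‖lam‖ * (B * ‖g - s‖) := by
        refine mul_le_mul_of_nonneg_left ?_ (norm_nonneg _)
        exact ((aeval (V p l) v).le_opNorm _).trans
          (mul_le_mul_of_nonneg_right (H2 hp hl hB hv) (norm_nonneg _))
    _ = _ := by ring

end DC8965.BT
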