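import Pool.Agent.Lib.MP_dc8965_an.BT.Basic
import Pool.Agent.Lib.MP_dc8965_an.HSKer

open Finset Polynomial MeasureTheory Filter Topology
open scoped ENNReal NNReal

namespace DC8965.BT

variable {p : ℝ≥0∞} [Fact (1 ≤ p)]

/-- (H7) the kernel of `U(V_l)` is approximated by exponentials (`hs_ker_exp`, `hs_fsp_ker`). -/
theorem H7 (hp : p ≠ ∞) {l : ℝ} (hl : 0 < l) (U : ℂ[X]) (_hU : U ≠ 0) (hnd : U.roots.Nodup)
    (h0 : U.eval 0 ≠ 0) (k : ℕ) (x : Fin k → Y p) (hx : ∀ i, aeval (V p l) U (x i) = 0)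
    {ε : ℝ} (hε : 0 < ε) :
    ∃ E : Finset Ix, (∀ b ∈ E, U.eval (Complex.exp (-b.1 * l)) = 0) ∧
      (∀ i, ∃ e ∈ fsp (ex p) E, ‖x i - e‖ < ε) ∧
      ∀ e ∈ fsp (ex p) E, aeval (V p l) U e = 0 := by
  classical
  choose E hE z hz hzd using fun i => hs_ker_exp hp hl U hnd h0 (x i) (hx i) hε
  have hE' : ∀ b ∈ Finset.univ.biUnion E, U.eval (Complex.exp (-b.1 * l)) = 0 := by
    intro b hb
    obtain ⟨i, -, hb⟩ := Finset.mem_biUnion.mp hb
    exact hE i b hb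
  refine ⟨Finset.univ.biUnion E, hE', fun i => ⟨z i, ?_, hzd i⟩, fun e he => ?_⟩
  · exact Submodule.span_mono (Set.image_mono (by
      intro b hb
      exact Finset.mem_biUnion.mpr ⟨i, Finset.mem_univ i, hb⟩)) (hz i)
  · exact hs_fsp_ker hl U _ hE' he

end DC8965.BT
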