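import Pool.Agent.Lib.MP_dc8965_an.BT.Basic
import Pool.Agent.Lib.MP_dc8965_an.Steps

/-! Step functions on the half line. `Y p`, `V p u`, `bx p l k`, `avg l k` are in
`Pool/Agent/Lib/MP_dc8965_an/Defs.lean` and `Steps.lean`. -/

open Finset Polynomial MeasureTheory Filter Topology
open scoped ENNReal NNReal

namespace DC8965.BT

/-- the step function with the values `x k` on `(kl, (k+1)l]` -/
noncomputable def stp (p : ℝ≥0∞) [Fact (1 ≤ p)] (l : ℝ) (x : ℕ → ℂ) : Y p :=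
  ∑' k, x k • bx p l k

/-- the discretised functional: coefficients `l^{-1/p} lam(1_{(kl,(k+1)l]})`, `k < I` -/
noncomputable def cpol (p : ℝ≥0∞) [Fact (1 ≤ p)] (lam : Y p →L[ℂ] ℂ) (l : ℝ) (I : ℕ) : ℂ[X] :=
  ∑ k ∈ range I, monomial k (((l ^ (-(1 / p.toReal)) : ℝ) : ℂ) * lam (bx p l k))

end DC8965.BT
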